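import Pool.Agent.KS6_2.General

open Real Finset MeasureTheory Filter

namespace Pool.Agent.KS6_2

lemma log_le_of_lt {R k q : ℕ} (hq0 : 0 < q) (hq2 : q < R ^ (k + 2)) :
    Real.log q ≤ (k + 2) * Real.log R := by
  have h1 : Real.log q ≤ Real.log ((R ^ (k + 2) : ℕ) : ℝ) := by
    apply Real.log_le_log (by exact_mod_cast hq0)
    exact_mod_cast hq2.le
  rw [Nat.cast_pow, Real.log_pow] at h1
  push_cast at h1
  exact h1

/-- polynomial decay, divergence -/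
theorem poly_div {c α : ℝ} (hc : 0 < c) (hbad : Bad c α) (z : ℕ → ℝ) (μ : Measure ℝ)
    [IsProbabilityMeasure μ] {C τ : ℝ} (hτ : 0 < τ)
    (hμ : ∀ m : ℕ, 1 ≤ m →
      ‖∫ x, Complex.exp (2 * π * Complex.I * (m : ℂ) * x) ∂μ‖ ≤ C * (m : ℝ) ^ (-τ))
    {ψ : ℕ → ℝ} (hψ : Antitone ψ) (hψ0 : ∀ q, 0 ≤ ψ q)
    (hdiv : ¬ Summable (fun q : ℕ => ψ q * Real.log q)) :
    ∀ᵐ β ∂μ, ∃ᶠ q : ℕ in atTop, nint (q * α) * nint (q * β - z q) < ψ q := by
  set S : ℕ := ⌈16 / c⌉₊ + 2 with hSdef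
  have hS : 2 ≤ S := by omega
  have hSc : 16 / c + 2 ≤ S := by
    rw [hSdef]; push_cast; linarith [Nat.le_ceil (16 / c)]
  have hS2 : (2 : ℝ) ≤ S := by exact_mod_cast hS
  have hS0 : (0 : ℝ) < S := by linarith
  clear_value S
  obtain ⟨R, hR⟩ : ∃ R : ℕ, R = S ^ 32 := ⟨_, rfl⟩
  set a : ℝ := min (1 / 2) τ with ha
  have ha0 : 0 < a := lt_min (by norm_num) hτ
  have ha1 : a ≤ 1 / 2 := min_le_left _ _
  have ha2 : a ≤ τ := min_le_right _ _
  set I : ℕ → ℕ := fun k => ⌊a * k⌋₊ with hI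
  have hIle : ∀ k : ℕ, (I k : ℝ) ≤ a * k := fun k => Nat.floor_le (by positivity)
  have hIge : ∀ k : ℕ, a * k < (I k : ℝ) + 1 := fun k => Nat.lt_floor_add_one _
  have hC : 0 ≤ C := by
    have h1 := (norm_nonneg _).trans (hμ 1 le_rfl)
    simpa using h1
  have h4S : (4 : ℝ) ^ (1 / 2 : ℝ) = 2 := by
    rw [show (4 : ℝ) = 2 ^ (2 : ℝ) by norm_num, ← Real.rpow_mul (by norm_num)]; norm_num
  refine general (k0 := 1) (ρ := fun k => |C| * ((S ^ (10 * k) : ℕ) : ℝ) ^ (-τ)) hc hbad z μ hS hSc (I := I) ?_ ?_ ?_ ?_ ?_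
    hψ hψ0 (Λ := fun q => Real.log q) (fun q => Real.log_natCast_nonneg q)
    (C := (1 / a + 2) * Real.log R) ?_ hdiv
  · intro i j hij
    exact Nat.floor_le_floor (by gcongr)
  · intro k _
    calc (4 : ℝ) ^ I k = (4 : ℝ) ^ (I k : ℝ) := (Real.rpow_natCast _ _).symm
      _ ≤ (4 : ℝ) ^ ((1 / 2 : ℝ) * k) := by
          apply Real.rpow_le_rpow_of_exponent_le (by norm_num)
          refine (hIle k).trans ?_
          gcongr
      _ = 2 ^ k := by rw [Real.rpow_mul (by norm_num), h4S, Real.rpow_natCast]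
      _ ≤ (S : ℝ) ^ k := by gcongr
  · intro k; positivity
  · intro k _ m hm
    have hm1 : 1 ≤ m := le_trans (Nat.one_le_pow _ _ (by omega)) hm
    refine (hμ m hm1).trans ?_
    have h1 : (m : ℝ) ^ (-τ) ≤ ((S ^ (10 * k) : ℕ) : ℝ) ^ (-τ) := by
      apply Real.rpow_le_rpow_of_nonpos
      · have : 0 < S ^ (10 * k) := by positivity
        exact_mod_cast this
      · exact_mod_cast hm
      · linarith
    rw [abs_of_nonneg hC]
    gcongr
  · -- summability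
    have h2 : Summable (fun k : ℕ => |C| * (((k + 1 : ℕ) : ℝ) ^ 1 * ((2 : ℝ) ^ (-(6 * τ))) ^ (k + 1) * (2 : ℝ) ^ (6 * τ))) := by
      have := summable_pow_mul_geometric_of_norm_lt_one (R := ℝ) 1 (r := (2 : ℝ) ^ (-(6 * τ))) (by
        rw [Real.norm_eq_abs, abs_of_pos (by positivity)]
        apply Real.rpow_lt_one_of_one_lt_of_neg (by norm_num) (by linarith))
      exact (((summable_nat_add_iff 1).mpr this).mul_right _).mul_left _
    refine Summable.of_nonneg_of_le (fun k => by positivity) (fun k => ?_) h2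
    have h3 : (16 : ℝ) ^ I k ≤ (2 : ℝ) ^ (4 * τ * k) := by
      calc (16 : ℝ) ^ I k = (16 : ℝ) ^ (I k : ℝ) := (Real.rpow_natCast _ _).symm
        _ ≤ (16 : ℝ) ^ (τ * k) := by
            apply Real.rpow_le_rpow_of_exponent_le (by norm_num)
            refine (hIle k).trans ?_
            gcongr
        _ = (2 : ℝ) ^ (4 * τ * k) := by
            rw [show (16 : ℝ) = 2 ^ (4 : ℝ) by norm_num, ← Real.rpow_mul (by norm_num)]
            congr 1; ring
    have h4 : ((S ^ (10 * k) : ℕ) : ℝ) ^ (-τ) ≤ (2 : ℝ) ^ (-(10 * τ * k)) := by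
      push_cast
      calc ((S : ℝ) ^ (10 * k)) ^ (-τ) ≤ ((2 : ℝ) ^ (10 * k)) ^ (-τ) := by
            apply Real.rpow_le_rpow_of_nonpos (by positivity) (by gcongr) (by linarith)
        _ = (2 : ℝ) ^ (-(10 * τ * k)) := by
            rw [← Real.rpow_natCast, ← Real.rpow_mul (by norm_num)]
            congr 1; push_cast; ring
    calc ((k : ℝ) + 1) * 16 ^ I k * (|C| * ((S ^ (10 * k) : ℕ) : ℝ) ^ (-τ))
        ≤ ((k : ℝ) + 1) * (2 : ℝ) ^ (4 * τ * k) * (|C| * (2 : ℝ) ^ (-(10 * τ * k))) := by gcongr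
      _ = |C| * (((k + 1 : ℕ) : ℝ) ^ 1 * ((2 : ℝ) ^ (-(6 * τ))) ^ (k + 1) * (2 : ℝ) ^ (6 * τ)) := by
          have e1 : ((2 : ℝ) ^ (-(6 * τ))) ^ (k + 1) = (2 : ℝ) ^ (-(6 * τ) * (k + 1)) := by
            rw [← Real.rpow_natCast, ← Real.rpow_mul (by norm_num)]; push_cast; rfl
          have e2 : (2 : ℝ) ^ (-(6 * τ) * (k + 1)) * (2 : ℝ) ^ (6 * τ) = (2 : ℝ) ^ (4 * τ * k) * (2 : ℝ) ^ (-(10 * τ * k)) := by
            rw [← Real.rpow_add (by norm_num), ← Real.rpow_add (by norm_num)]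
            congr 1; ring
          rw [e1, pow_one]
          push_cast
          linear_combination (-(|C| * ((k : ℝ) + 1))) * e2
  · rw [← hR]
    intro k _ q hq1 hq2
    have hR0 : 0 < R := by rw [hR]; positivity
    have hq0 : 0 < q := lt_of_lt_of_le (by positivity) hq1
    have hlogR : 0 ≤ Real.log R := Real.log_natCast_nonneg _
    refine (log_le_of_lt hq0 hq2).trans ?_
    have h1 := hIge k
    have h2 : (k : ℝ) ≤ 1 / a * (I k + 1) := by
      rw [one_div, ← div_eq_inv_mul, le_div_iff₀ ha0]; linarith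
    have h3 : (0 : ℝ) ≤ I k := by positivity
    have h4 : (k : ℝ) + 2 ≤ (1 / a + 2) * (I k + 1) := by linarith
    calc ((k : ℝ) + 2) * Real.log R ≤ ((1 / a + 2) * (I k + 1)) * Real.log R := by gcongr
      _ = _ := by ring

end Pool.Agent.KS6_2
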