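import Pool.Agent.KS6_2.Freq

open Real Finset

namespace Pool.Agent.KS6_2

lemma harmonic_le (J : ℕ) : ∑ j ∈ Icc 1 J, (1 : ℝ) / j ≤ 1 + Real.log J := by
  have h := harmonic_le_one_add_log J
  have e : ((harmonic J : ℚ) : ℝ) = ∑ j ∈ Icc 1 J, (1 : ℝ) / j := by
    rw [harmonic_eq_sum_Icc]
    push_cast
    simp
  rw [e] at h
  exact h

/-- sum of the reciprocals of `‖q α‖` for badly approximable `α` -/
lemma sum_recip {c α : ℝ} (hc : 0 < c) (h : Bad c α) {Q : ℕ} (hQ : 1 ≤ Q) :
    ∑ q ∈ Icc 1 Q, 1 / nint (q * α) ≤ (2 / c) * (1 + Real.log (1 / (2 * c))) * (Q * (1 + Real.log Q)) := by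
  have hQ' : (1 : ℝ) ≤ Q := by exact_mod_cast hQ
  have hc1 : c ≤ 1 / 2 := by
    have := h 1 le_rfl
    have h2 := nint_le_half ((1 : ℕ) * α)
    push_cast at this h2
    linarith
  set s : ℕ → ℝ := fun q => q * α - round (q * α) with hs
  have hsn : ∀ q, |s q| = nint (q * α) := fun q => rfl
  set g : ℝ := c / Q with hg
  have hg0 : 0 < g := by positivity
  have hsep : ∀ q ∈ Icc 1 Q, ∀ q' ∈ Icc 1 Q, q ≠ q' → g ≤ |s q - s q'| := by
    intro q hq q' hq' hne
    rw [mem_Icc] at hq hq'
    have hm : ((q : ℤ) - q') ≠ 0 := by omega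
    have h1 := bad_int h hm (round (q * α) - round (q' * α))
    have e : (((q : ℤ) - q' : ℤ) : ℝ) * α - ((round (q * α) - round (q' * α) : ℤ) : ℝ) = s q - s q' := by
      simp only [hs]; push_cast; ring
    rw [e] at h1
    have h2 : (((q : ℤ) - q').natAbs : ℝ) ≤ Q := by
      have : ((q : ℤ) - q').natAbs ≤ Q := by omega
      exact_mod_cast this
    rw [hg, div_le_iff₀ (by positivity), mul_comm]
    exact h1.trans (mul_le_mul_of_nonneg_right h2 (abs_nonneg _))
  have hlow : ∀ q ∈ Icc 1 Q, g ≤ |s q| := by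
    intro q hq
    rw [mem_Icc] at hq
    have h1 := h q hq.1
    rw [hsn, hg, div_le_iff₀ (by positivity), mul_comm]
    refine h1.trans (mul_le_mul_of_nonneg_right ?_ (nint_nonneg _))
    exact_mod_cast hq.2
  set j : ℕ → ℕ := fun q => ⌊|s q| / g⌋₊ with hj
  set J : ℕ := ⌊(Q : ℝ) / (2 * c)⌋₊ with hJ
  have hj1 : ∀ q ∈ Icc 1 Q, j q ∈ Icc 1 J := by
    intro q hq
    rw [mem_Icc]
    constructor
    · apply Nat.le_floor
      rw [Nat.cast_one, one_le_div hg0]
      exact hlow q hq
    · apply Nat.floor_le_floor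
      rw [hsn, hg, div_div_eq_mul_div]
      have := nint_le_half (q * α)
      rw [div_le_div_iff₀ hc (by positivity)]
      have h5 := mul_le_mul_of_nonneg_right this (by positivity : 0 ≤ (Q : ℝ) * (2 * c))
      linarith
  have hjle : ∀ q ∈ Icc 1 Q, 1 / nint (q * α) ≤ (1 / g) * (1 / (j q : ℝ)) := by
    intro q hq
    have h1 := hj1 q hq
    rw [mem_Icc] at h1
    have h2 : (0 : ℝ) < j q := by exact_mod_cast (by omega : 0 < j q)
    have h3 : (j q : ℝ) ≤ |s q| / g := Nat.floor_le (by positivity)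
    rw [le_div_iff₀ hg0, hsn] at h3
    rw [one_div_mul_one_div]
    exact one_div_le_one_div_of_le (by positivity) (by linarith)
  have half : ∀ P : Finset ℕ, P ⊆ Icc 1 Q → (∀ q ∈ P, ∀ q' ∈ P, |(|s q| - |s q'|)| = |s q - s q'|) →
      ∑ q ∈ P, 1 / nint (q * α) ≤ (1 / g) * (1 + Real.log J) := by
    intro P hP hsgn
    have hinj : Set.InjOn j P := by
      intro q hq q' hq' heq
      by_contra hne
      have h1 := hsep q (hP hq) q' (hP hq') hne
      rw [← hsgn q hq q' hq'] at h1
      simp only [hj] at heq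
      have k1 : (⌊|s q| / g⌋₊ : ℝ) ≤ |s q| / g := Nat.floor_le (by positivity)
      have k2 : |s q| / g < ⌊|s q| / g⌋₊ + 1 := Nat.lt_floor_add_one _
      have k3 : (⌊|s q'| / g⌋₊ : ℝ) ≤ |s q'| / g := Nat.floor_le (by positivity)
      have k4 : |s q'| / g < ⌊|s q'| / g⌋₊ + 1 := Nat.lt_floor_add_one _
      rw [← heq] at k3 k4
      have k5 : |(|s q| / g - |s q'| / g)| < 1 := by
        rw [abs_lt]; constructor <;> linarith
      rw [← sub_div, abs_div, abs_of_pos hg0, div_lt_one hg0] at k5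
      linarith
    calc ∑ q ∈ P, 1 / nint (q * α) ≤ ∑ q ∈ P, (1 / g) * (1 / (j q : ℝ)) :=
          sum_le_sum fun q hq => hjle q (hP hq)
      _ = (1 / g) * ∑ i ∈ P.image j, (1 / (i : ℝ)) := by
          rw [← mul_sum, sum_image hinj]
      _ ≤ (1 / g) * ∑ i ∈ Icc 1 J, (1 / (i : ℝ)) := by
          apply mul_le_mul_of_nonneg_left _ (by positivity)
          apply sum_le_sum_of_subset_of_nonneg
          · intro i hi
            obtain ⟨q, hq, rfl⟩ := mem_image.mp hi
            exact hj1 q (hP hq)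
          · intro i _ _; positivity
      _ ≤ _ := by
          apply mul_le_mul_of_nonneg_left (harmonic_le J) (by positivity)
  have h1 := half ((Icc 1 Q).filter (fun q => 0 ≤ s q)) (filter_subset _ _) (by
    intro q hq q' hq'
    rw [abs_of_nonneg (mem_filter.mp hq).2, abs_of_nonneg (mem_filter.mp hq').2])
  have h2 := half ((Icc 1 Q).filter (fun q => ¬ 0 ≤ s q)) (filter_subset _ _) (by
    intro q hq q' hq'
    have a1 := (mem_filter.mp hq).2
    have a2 := (mem_filter.mp hq').2
    push Not at a1 a2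
    rw [abs_of_neg a1, abs_of_neg a2, ← abs_neg]
    congr 1; ring)
  have h3 := sum_filter_add_sum_filter_not (Icc 1 Q) (fun q => 0 ≤ s q) (fun q : ℕ => 1 / nint (q * α))
  have hJlog : Real.log J ≤ Real.log Q + Real.log (1 / (2 * c)) := by
    rcases Nat.eq_zero_or_pos J with h0 | h0
    · rw [h0]
      simp only [Nat.cast_zero, Real.log_zero]
      apply add_nonneg (Real.log_nonneg hQ')
      apply Real.log_nonneg
      rw [le_div_iff₀ (by positivity)]; linarith
    · rw [← Real.log_mul (by positivity) (by positivity)]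
      apply Real.log_le_log (by exact_mod_cast h0)
      have : (J : ℝ) ≤ (Q : ℝ) / (2 * c) := Nat.floor_le (by positivity)
      refine this.trans (le_of_eq ?_)
      ring
  have hl0 : 0 ≤ Real.log Q := Real.log_nonneg hQ'
  have hl1 : 0 ≤ Real.log (1 / (2 * c)) := by
    apply Real.log_nonneg
    rw [le_div_iff₀ (by positivity)]; linarith
  have e1 : 1 / g = Q / c := by rw [hg, one_div_div]
  rw [e1] at h1 h2
  rw [← h3]
  have h4 : 1 + Real.log J ≤ (1 + Real.log (1 / (2 * c))) * (1 + Real.log Q) := by nlinarith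
  calc _ ≤ (Q / c) * (1 + Real.log J) + (Q / c) * (1 + Real.log J) := add_le_add h1 h2
    _ = 2 / c * Q * (1 + Real.log J) := by ring
    _ ≤ 2 / c * Q * ((1 + Real.log (1 / (2 * c))) * (1 + Real.log Q)) := by gcongr
    _ = _ := by ring

end Pool.Agent.KS6_2
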