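import Pool.Agent.KS6_2.MeasBound
import Pool.Agent.KS6_2.Recip

open Real Finset MeasureTheory Filter

namespace Pool.Agent.KS6_2

lemma sum_blocks (f : ℕ → ℝ) (n : ℕ) :
    ∑ k ∈ range n, ∑ q ∈ Ico (2 ^ k) (2 ^ (k + 1)), f q = ∑ q ∈ Ico 1 (2 ^ n), f q := by
  induction n with
  | zero => simp
  | succ n ih =>
    rw [sum_range_succ, ih, sum_Ico_consecutive]
    · exact Nat.one_le_two_pow
    · exact Nat.pow_le_pow_right (by norm_num) (by omega)

lemma summable_blocks {f : ℕ → ℝ} (hf : ∀ q, 0 ≤ f q) (h : Summable f) :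
    Summable (fun k : ℕ => ∑ q ∈ Ico (2 ^ k) (2 ^ (k + 1)), f q) := by
  apply summable_of_sum_range_le (c := ∑' q, f q) (fun k => sum_nonneg fun q _ => hf q)
  intro n
  rw [sum_blocks]
  exact h.sum_le_tsum _ (fun q _ => hf q)

lemma summable_of_blocks {f : ℕ → ℝ} (hf : ∀ q, 0 ≤ f q)
    (h : Summable (fun k : ℕ => ∑ q ∈ Ico (2 ^ k) (2 ^ (k + 1)), f q)) : Summable f := by
  apply summable_of_sum_range_le (c := f 0 + ∑' k : ℕ, ∑ q ∈ Ico (2 ^ k) (2 ^ (k + 1)), f q) hf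
  intro n
  have hn : n ≤ 2 ^ n := Nat.lt_two_pow_self.le
  calc ∑ q ∈ range n, f q ≤ ∑ q ∈ range (2 ^ n), f q :=
        sum_le_sum_of_subset_of_nonneg (range_mono hn) (fun q _ _ => hf q)
    _ = f 0 + ∑ q ∈ Ico 1 (2 ^ n), f q := by
        rw [range_eq_Ico, ← sum_Ico_consecutive f (Nat.zero_le 1) Nat.one_le_two_pow]
        simp
    _ ≤ _ := by
        rw [← sum_blocks]
        have := h.sum_le_tsum (range n) (fun k _ => sum_nonneg fun q _ => hf q)
        linarith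

lemma summable_cond {ψ : ℕ → ℝ} (hψ : Antitone ψ) (hψ0 : ∀ q, 0 ≤ ψ q)
    (hs : Summable (fun q : ℕ => ψ q * Real.log q)) :
    Summable (fun k : ℕ => ψ (2 ^ k) * 2 ^ k * ((k : ℝ) + 2)) := by
  have hl2 : 0 < Real.log 2 := Real.log_pos (by norm_num)
  have h1 := summable_blocks (fun q => mul_nonneg (hψ0 q) (Real.log_natCast_nonneg q)) hs
  rw [← summable_nat_add_iff 1]
  refine Summable.of_norm_bounded_eventually_nat (h1.mul_left (8 / Real.log 2)) ?_
  filter_upwards [eventually_ge_atTop 1] with j hj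
  have hj1 : (1 : ℝ) ≤ j := by exact_mod_cast hj
  have h0 := hψ0 (2 ^ (j + 1))
  rw [Real.norm_eq_abs, abs_of_nonneg (by positivity)]
  have h2 : ∑ q ∈ Ico (2 ^ j) (2 ^ (j + 1)), ψ (2 ^ (j + 1)) * (j * Real.log 2) ≤
      ∑ q ∈ Ico (2 ^ j) (2 ^ (j + 1)), ψ q * Real.log q := by
    refine sum_le_sum fun q hq => ?_
    rw [mem_Ico] at hq
    have a1 : ψ (2 ^ (j + 1)) ≤ ψ q := hψ hq.2.le
    have a2 : (j : ℝ) * Real.log 2 ≤ Real.log q := by
      rw [← Real.log_pow]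
      apply Real.log_le_log (by positivity)
      exact_mod_cast hq.1
    exact mul_le_mul a1 a2 (by positivity) (hψ0 q)
  rw [sum_const, Nat.card_Ico, nsmul_eq_mul] at h2
  have h3 : ((2 ^ (j + 1) - 2 ^ j : ℕ) : ℝ) = 2 ^ j := by
    rw [pow_succ, Nat.mul_two, Nat.add_sub_cancel]; push_cast; rfl
  rw [h3] at h2
  calc ψ (2 ^ (j + 1)) * 2 ^ (j + 1) * (((j + 1 : ℕ) : ℝ) + 2)
      ≤ ψ (2 ^ (j + 1)) * 2 ^ (j + 1) * (4 * j) := by
        gcongr
        push_cast; linarith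
    _ = 8 / Real.log 2 * (2 ^ j * (ψ (2 ^ (j + 1)) * (j * Real.log 2))) := by
        rw [pow_succ]; field_simp; ring
    _ ≤ _ := by gcongr

/-- polynomial decay with exponent `> 1/2`, convergence -/
theorem poly_conv {c α : ℝ} (hc : 0 < c) (hbad : Bad c α) (z : ℕ → ℝ) (μ : Measure ℝ)
    [IsProbabilityMeasure μ] {C τ : ℝ} (hτ : 1 / 2 < τ)
    (hμ : ∀ m : ℕ, 1 ≤ m →
      ‖∫ x, Complex.exp (2 * π * Complex.I * (m : ℂ) * x) ∂μ‖ ≤ C * (m : ℝ) ^ (-τ))
    {ψ : ℕ → ℝ} (hψ : Antitone ψ) (hψ0 : ∀ q, 0 ≤ ψ q)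
    (hs : Summable (fun q : ℕ => ψ q * Real.log q)) :
    ∀ᵐ β ∂μ, ∀ᶠ q : ℕ in atTop, ψ q ≤ nint (q * α) * nint (q * β - z q) := by
  have hC : 0 ≤ C := by
    have h1 := (norm_nonneg _).trans (hμ 1 le_rfl)
    simpa using h1
  have hc1 : c ≤ 1 / 2 := by
    have := hbad 1 le_rfl
    have h2 := nint_le_half ((1 : ℕ) * α)
    push_cast at this h2
    linarith
  obtain ⟨s, hs1, hs2, hs3⟩ : ∃ s : ℝ, 1 / 2 < s ∧ s < τ ∧ s ≤ 1 := by
    refine ⟨(1 / 2 + min τ 1) / 2, ?_, ?_, ?_⟩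
    · have : 1 / 2 < min τ 1 := lt_min hτ (by norm_num)
      linarith
    · have : min τ 1 ≤ τ := min_le_left _ _
      linarith
    · have : min τ 1 ≤ 1 := min_le_right _ _
      linarith
  have hcond := summable_cond hψ hψ0 hs
  set t : ℕ → ℝ := fun k => ψ (2 ^ k) * 2 ^ k * ((k : ℝ) + 2) with ht
  have ht0 : ∀ k, 0 ≤ t k := fun k => by have := hψ0 (2 ^ k); positivity
  set T := ∑' k, t k with hT
  have hTk : ∀ k : ℕ, ψ (2 ^ k) ≤ T / 2 ^ k := by
    intro k
    rw [le_div_iff₀ (by positivity)]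
    have h1 : t k ≤ T := hcond.le_tsum k (fun j _ => ht0 j)
    have h2 := hψ0 (2 ^ k)
    have h3 : (0 : ℝ) ≤ k := by positivity
    have h4 : 0 ≤ ψ (2 ^ k) * 2 ^ k := by positivity
    simp only [ht] at h1
    nlinarith
  have hT0 : 0 ≤ T := tsum_nonneg ht0
  set K1 : ℝ := (2 / c) * (1 + Real.log (1 / (2 * c))) with hK1
  have hl1 : 0 ≤ Real.log (1 / (2 * c)) := by
    apply Real.log_nonneg
    rw [le_div_iff₀ (by positivity)]; linarith
  have hK1' : 0 ≤ K1 := by positivity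
  have hblk : ∀ k : ℕ, ∑ q ∈ Ico ((2 : ℕ) ^ k) (2 ^ (k + 1)), 1 / nint ((q : ℝ) * α) ≤ 2 * K1 * 2 ^ k * (k + 2) := by
    intro k
    have h1 := sum_recip hc hbad (Q := 2 ^ (k + 1)) Nat.one_le_two_pow
    have h2 : ∑ q ∈ Ico ((2 : ℕ) ^ k) (2 ^ (k + 1)), 1 / nint ((q : ℝ) * α) ≤
        ∑ q ∈ Icc 1 ((2 : ℕ) ^ (k + 1)), 1 / nint ((q : ℝ) * α) := by
      apply sum_le_sum_of_subset_of_nonneg
      · intro q hq
        rw [mem_Ico] at hq
        rw [mem_Icc]
        exact ⟨le_trans Nat.one_le_two_pow hq.1, hq.2.le⟩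
      · intro q _ _
        exact div_nonneg zero_le_one (nint_nonneg _)
    refine h2.trans (h1.trans ?_)
    rw [← hK1]
    push_cast
    rw [Real.log_pow]
    have hl2 : Real.log 2 ≤ 1 := by have := Real.log_two_lt_d9; linarith
    have hk0 : (0 : ℝ) ≤ k := by positivity
    have h5 : 1 + ((k + 1 : ℕ) : ℝ) * Real.log 2 ≤ k + 2 := by
      push_cast
      nlinarith
    calc K1 * (2 ^ (k + 1) * (1 + ((k + 1 : ℕ) : ℝ) * Real.log 2))
        ≤ K1 * (2 ^ (k + 1) * (k + 2)) := by gcongr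
      _ = _ := by rw [pow_succ]; ring
  set Z := ∑' n : ℕ, ((n + 1 : ℕ) : ℝ) ^ (-(1 + (τ - s))) with hZ
  have hZ0 : 0 ≤ Z := tsum_nonneg fun n => by positivity
  set C1 : ℝ := 8 * C * Z with hC1
  have hC10 : 0 ≤ C1 := by positivity
  set B : ℕ → Set ℝ := fun q => {x : ℝ | nint (q * x - z q) < ψ q / nint (q * α)} with hB
  have hsum : Summable (fun q => μ.real (B q)) := by
    apply summable_of_blocks (fun q => measureReal_nonneg)
    have hmaj : Summable (fun k : ℕ => 8 * K1 * t k +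
        C1 * T ^ s * (2 * K1 + 1) * (((k : ℝ) + 2) * ((2 : ℝ) ^ (1 - 2 * s)) ^ k)) := by
      apply (hcond.mul_left (8 * K1)).add
      apply Summable.mul_left
      have hr : ‖(2 : ℝ) ^ (1 - 2 * s)‖ < 1 := by
        rw [Real.norm_eq_abs, abs_of_pos (by positivity)]
        exact Real.rpow_lt_one_of_one_lt_of_neg (by norm_num) (by linarith)
      have h1 := summable_pow_mul_geometric_of_norm_lt_one (R := ℝ) 1 hr
      have h2 := summable_geometric_of_norm_lt_one hr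
      refine (h1.add (h2.mul_left 2)).congr fun k => ?_
      rw [pow_one]; ring
    refine Summable.of_nonneg_of_le (fun k => sum_nonneg fun q _ => measureReal_nonneg) (fun k => ?_) hmaj
    have hq : ∀ q ∈ Ico ((2 : ℕ) ^ k) (2 ^ (k + 1)), μ.real (B q) ≤
        4 * ψ (2 ^ k) * (1 / nint (q * α)) + C1 * (T ^ s * (4 : ℝ) ^ (-(s * k))) * (1 / nint (q * α) + 1) := by
      intro q hq
      rw [mem_Ico] at hq
      have hq1 : 1 ≤ q := le_trans Nat.one_le_two_pow hq.1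
      have hq0 : (0 : ℝ) < q := by exact_mod_cast hq1
      have hqk : (2 : ℝ) ^ k ≤ q := by exact_mod_cast hq.1
      have hx : 0 < nint (q * α) := by
        have := hbad q hq1
        by_contra hneg
        push Not at hneg
        nlinarith
      have hψq : ψ q ≤ ψ (2 ^ k) := hψ hq.1
      have hδ0 : 0 ≤ ψ q / nint (q * α) := div_nonneg (hψ0 q) hx.le
      have h1 := measure_near μ (by linarith : 0 ≤ s) hs3 hs2 hμ q hq1 hδ0 (z q)
      refine h1.trans ?_
      rw [← hZ, ← hC1]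
      have h2 : 4 * (ψ q / nint (q * α)) ≤ 4 * ψ (2 ^ k) * (1 / nint (q * α)) := by
        rw [mul_assoc, mul_one_div]
        gcongr
      have h3 : (ψ q / nint (q * α) / q) ^ s ≤ T ^ s * (4 : ℝ) ^ (-(s * k)) * (1 / nint (q * α) + 1) := by
        have a1 : ψ q / nint (q * α) / q ≤ T * (4 : ℝ) ^ (-(k : ℝ)) * (1 / nint (q * α)) := by
          have e4 : (4 : ℝ) ^ (-(k : ℝ)) = 1 / (2 ^ k * 2 ^ k) := by
            rw [Real.rpow_neg (by norm_num), Real.rpow_natCast, ← mul_pow]; norm_num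
          rw [e4]
          calc ψ q / nint (q * α) / q = ψ q / q * (1 / nint (q * α)) := by ring
            _ ≤ (T / 2 ^ k) / 2 ^ k * (1 / nint (q * α)) := by
                gcongr
                exact hψq.trans (hTk k)
            _ = _ := by field_simp
        have a2 : 0 ≤ ψ q / nint (q * α) / q := by positivity
        have a3 : (1 / nint (q * α)) ^ s ≤ 1 / nint (q * α) + 1 := by
          have hy : 1 ≤ 1 / nint (q * α) := by
            rw [le_div_iff₀ hx]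
            have := nint_le_half (q * α)
            linarith
          calc (1 / nint (q * α)) ^ s ≤ (1 / nint (q * α)) ^ (1 : ℝ) :=
                Real.rpow_le_rpow_of_exponent_le hy hs3
            _ = 1 / nint (q * α) := Real.rpow_one _
            _ ≤ _ := by linarith
        calc (ψ q / nint (q * α) / q) ^ s ≤ (T * (4 : ℝ) ^ (-(k : ℝ)) * (1 / nint (q * α))) ^ s := by
              gcongr
          _ = T ^ s * (4 : ℝ) ^ (-(s * k)) * (1 / nint (q * α)) ^ s := by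
              rw [Real.mul_rpow (by positivity) (by positivity), Real.mul_rpow hT0 (by positivity),
                ← Real.rpow_mul (by norm_num)]
              congr 3; ring
          _ ≤ _ := by gcongr
      calc 4 * (ψ q / nint (q * α)) + C1 * (ψ q / nint (q * α) / q) ^ s
          ≤ 4 * ψ (2 ^ k) * (1 / nint (q * α)) + C1 * (T ^ s * (4 : ℝ) ^ (-(s * k)) * (1 / nint (q * α) + 1)) := by
            gcongr
        _ = _ := by ring
    refine (sum_le_sum hq).trans ?_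
    rw [sum_add_distrib, ← mul_sum, ← mul_sum, sum_add_distrib, sum_const, Nat.card_Ico, nsmul_eq_mul]
    have h3 : ((2 ^ (k + 1) - 2 ^ k : ℕ) : ℝ) = 2 ^ k := by
      rw [pow_succ, Nat.mul_two, Nat.add_sub_cancel]; push_cast; rfl
    rw [h3, mul_one]
    have h4 := hblk k
    have h5 := hψ0 (2 ^ k)
    have hk0 : (0 : ℝ) ≤ k := by positivity
    have e5 : (4 : ℝ) ^ (-(s * k)) * 2 ^ k = ((2 : ℝ) ^ (1 - 2 * s)) ^ k := by
      rw [show (4 : ℝ) = 2 ^ (2 : ℝ) by norm_num, ← Real.rpow_mul (by norm_num), ← Real.rpow_natCast,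
        ← Real.rpow_natCast, ← Real.rpow_mul (by norm_num), ← Real.rpow_add (by norm_num)]
      congr 1; ring
    calc 4 * ψ (2 ^ k) * ∑ q ∈ Ico ((2 : ℕ) ^ k) (2 ^ (k + 1)), 1 / nint ((q : ℝ) * α) +
          C1 * (T ^ s * (4 : ℝ) ^ (-(s * k))) * (∑ q ∈ Ico ((2 : ℕ) ^ k) (2 ^ (k + 1)), 1 / nint ((q : ℝ) * α) + 2 ^ k)
        ≤ 4 * ψ (2 ^ k) * (2 * K1 * 2 ^ k * (k + 2)) +
          C1 * (T ^ s * (4 : ℝ) ^ (-(s * k))) * (2 * K1 * 2 ^ k * (k + 2) + 2 ^ k * (k + 2)) := by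
          gcongr
          exact le_mul_of_one_le_right (by positivity) (by linarith)
      _ = 8 * K1 * t k + C1 * T ^ s * (2 * K1 + 1) * (((k : ℝ) + 2) * ((4 : ℝ) ^ (-(s * k)) * 2 ^ k)) := by
          simp only [ht]; ring
      _ = _ := by rw [e5]
  have hne : ∑' q, μ (B q) ≠ ⊤ := by
    have e : ∀ q, μ (B q) = ENNReal.ofReal (μ.real (B q)) := fun q => by
      rw [ofReal_measureReal]
    simp_rw [e]
    exact hsum.tsum_ofReal_ne_top
  filter_upwards [ae_eventually_notMem hne] with β hβ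
  filter_upwards [hβ, eventually_ge_atTop 1] with q hq hq1
  have hx : 0 < nint (q * α) := by
    have := hbad q hq1
    have hq0 : (0 : ℝ) < q := by exact_mod_cast hq1
    by_contra hneg
    push Not at hneg
    nlinarith
  simp only [hB, Set.mem_ofPred_eq, not_lt] at hq
  rw [div_le_iff₀ hx] at hq
  linarith

end Pool.Agent.KS6_2
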