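import Pool.Agent.KS6_2.Freq

open Real Finset

namespace Pool.Agent.KS6_2

lemma sum_inv_sq_le (U : ℕ) (hU : 2 ≤ U) :
    ∑ g ∈ Icc 2 U, 1 / (g : ℝ) ^ 2 ≤ 3 / 4 - 1 / (U : ℝ) := by
  induction U, hU using Nat.le_induction with
  | base => norm_num
  | succ U hU ih =>
    rw [sum_Icc_succ_top (by omega)]
    have h2 : (2 : ℝ) ≤ U := by exact_mod_cast hU
    have : 1 / ((U + 1 : ℕ) : ℝ) ^ 2 ≤ 1 / U - 1 / ((U + 1 : ℕ) : ℝ) := by
      push_cast
      rw [div_sub_div _ _ (by positivity) (by positivity), div_le_div_iff₀ (by positivity) (by positivity)]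
      nlinarith
    linarith

lemma card_coprime (U : ℕ) (hU : 1 ≤ U) :
    (U : ℝ) ^ 2 / 4 ≤ (((Icc 1 U ×ˢ Icc 1 U).filter (fun x => Nat.Coprime x.1 x.2)).card : ℝ) := by
  have h1 : ((Icc 1 U ×ˢ Icc 1 U).filter (fun x => ¬ Nat.Coprime x.1 x.2)).card ≤
      ∑ g ∈ Icc 2 U, (U / g) ^ 2 := by
    calc _ ≤ ((Icc 2 U).biUnion (fun g => (Icc 1 (U / g) ×ˢ Icc 1 (U / g)).image
          (fun x => (g * x.1, g * x.2)))).card := by
          apply card_le_card
          intro x hx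
          simp only [mem_filter, mem_product, mem_Icc] at hx
          obtain ⟨⟨⟨h1, h2⟩, h3, h4⟩, h5⟩ := hx
          simp only [mem_biUnion, mem_image, mem_product, mem_Icc]
          have hg1 : Nat.gcd x.1 x.2 ∣ x.1 := Nat.gcd_dvd_left _ _
          have hg2 : Nat.gcd x.1 x.2 ∣ x.2 := Nat.gcd_dvd_right _ _
          have hpos : 0 < Nat.gcd x.1 x.2 := Nat.gcd_pos_of_pos_left _ (by omega)
          refine ⟨Nat.gcd x.1 x.2, ⟨?_, ?_⟩, (x.1 / Nat.gcd x.1 x.2, x.2 / Nat.gcd x.1 x.2), ?_, ?_⟩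
          · have : Nat.gcd x.1 x.2 ≠ 1 := h5
            omega
          · exact (Nat.le_of_dvd (by omega) hg1).trans h2
          · refine ⟨⟨Nat.div_pos (Nat.le_of_dvd (by omega) hg1) hpos, Nat.div_le_div_right h2⟩,
              Nat.div_pos (Nat.le_of_dvd (by omega) hg2) hpos, Nat.div_le_div_right h4⟩
          · simp only
            rw [Nat.mul_div_cancel' hg1, Nat.mul_div_cancel' hg2]
      _ ≤ ∑ g ∈ Icc 2 U, ((Icc 1 (U / g) ×ˢ Icc 1 (U / g)).image
          (fun x : ℕ × ℕ => (g * x.1, g * x.2))).card := card_biUnion_le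
      _ ≤ ∑ g ∈ Icc 2 U, (U / g) ^ 2 := by
          refine sum_le_sum fun g _ => ?_
          refine card_image_le.trans ?_
          rw [card_product, Nat.card_Icc]
          simp [sq]
  have h2 : (∑ g ∈ Icc 2 U, (U / g) ^ 2 : ℕ) ≤ (U : ℝ) ^ 2 * (3 / 4) := by
    push_cast
    rcases Nat.lt_or_ge U 2 with h | h
    · have : Icc 2 U = ∅ := by rw [Icc_eq_empty]; omega
      rw [this]; simp
    calc ∑ g ∈ Icc 2 U, ((U / g : ℕ) : ℝ) ^ 2 ≤ ∑ g ∈ Icc 2 U, (U : ℝ) ^ 2 * (1 / (g : ℝ) ^ 2) := by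
          refine sum_le_sum fun g hg => ?_
          have : ((U / g : ℕ) : ℝ) ≤ U / g := Nat.cast_div_le
          calc ((U / g : ℕ) : ℝ) ^ 2 ≤ ((U : ℝ) / g) ^ 2 := by gcongr
            _ = _ := by rw [div_pow]; ring
      _ = (U : ℝ) ^ 2 * ∑ g ∈ Icc 2 U, (1 / (g : ℝ) ^ 2) := by rw [mul_sum]
      _ ≤ _ := by
          have := sum_inv_sq_le U h
          have h3 : (0 : ℝ) ≤ 1 / U := by positivity
          gcongr
          linarith
  have h3 := card_filter_add_card_filter_not (s := Icc 1 U ×ˢ Icc 1 U) (fun x => Nat.Coprime x.1 x.2)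
  have h4 : (Icc 1 U ×ˢ Icc 1 U).card = U * U := by simp
  rw [h4] at h3
  have h5 : (((Icc 1 U ×ˢ Icc 1 U).filter (fun x => Nat.Coprime x.1 x.2)).card : ℝ) +
      (((Icc 1 U ×ˢ Icc 1 U).filter (fun x => ¬ Nat.Coprime x.1 x.2)).card : ℝ) = U * U := by
    exact_mod_cast h3
  have h6 : (((Icc 1 U ×ˢ Icc 1 U).filter (fun x => ¬ Nat.Coprime x.1 x.2)).card : ℝ) ≤
      (∑ g ∈ Icc 2 U, (U / g) ^ 2 : ℕ) := by exact_mod_cast h1
  nlinarith

/-- coprime pairs with a large first coordinate -/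
def Pairs (U : ℕ) : Finset (ℕ × ℕ) :=
  (Icc 1 U ×ˢ Icc 1 U).filter (fun x => Nat.Coprime x.1 x.2 ∧ U < 8 * x.1)

lemma card_Pairs (U : ℕ) (hU : 1 ≤ U) : (U : ℝ) ^ 2 / 8 ≤ ((Pairs U).card : ℝ) := by
  have h1 := card_coprime U hU
  have h2 : ((Icc 1 U ×ˢ Icc 1 U).filter (fun x => Nat.Coprime x.1 x.2)) ⊆
      Pairs U ∪ (Icc 1 (U / 8) ×ˢ Icc 1 U) := by
    intro x hx
    simp only [mem_filter, mem_product, mem_Icc] at hx
    simp only [Pairs, mem_union, mem_filter, mem_product, mem_Icc]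
    by_cases h : U < 8 * x.1
    · left; exact ⟨hx.1, hx.2, h⟩
    · right; exact ⟨⟨hx.1.1.1, by omega⟩, hx.1.2⟩
  have h3 := (card_le_card h2).trans (card_union_le _ _)
  rw [card_product, Nat.card_Icc, Nat.card_Icc] at h3
  have h4 : (((Icc 1 U ×ˢ Icc 1 U).filter (fun x => Nat.Coprime x.1 x.2)).card : ℝ) ≤
      ((Pairs U).card : ℝ) + ((U / 8 : ℕ) : ℝ) * U := by
    have : ((Icc 1 U ×ˢ Icc 1 U).filter (fun x => Nat.Coprime x.1 x.2)).card ≤
      (Pairs U).card + (U / 8) * U := by simpa using h3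
    exact_mod_cast this
  have h5 : ((U / 8 : ℕ) : ℝ) ≤ U / 8 := by exact_mod_cast Nat.cast_div_le (α := ℝ) (m := U) (n := 8)
  have h6 : (0 : ℝ) ≤ U := by positivity
  nlinarith

lemma count_family {c α : ℝ} (hc : 0 < c) (h : Bad c α) {X R U : ℕ} (hU : 1 ≤ U)
    (hX : 2 * (U : ℝ) ^ 2 < X) (hR : 16 / c + 2 ≤ R) :
    (U : ℝ) ^ 2 / 8 ≤ ((Fam α X (R * X) ((U : ℝ) ^ 2 / X)).card : ℝ) := by
  have hU' : (1 : ℝ) ≤ U := by exact_mod_cast hU
  have hX0 : (0 : ℝ) < X := lt_of_le_of_lt (by positivity) hX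
  have hUX : (U : ℝ) ≤ X := by nlinarith
  have hc1 : c ≤ 1 / 2 := by
    have := h 1 le_rfl
    have h2 := nint_le_half ((1 : ℕ) * α)
    push_cast at this h2
    linarith
  set n : ℕ := ⌈8 * X / (c * U)⌉₊ with hn
  have hn0 : 0 < n := Nat.ceil_pos.mpr (by positivity)
  have hn1 : 8 * X / (c * U) ≤ n := Nat.le_ceil _
  have hn2 : (n : ℝ) < 8 * X / (c * U) + 1 := Nat.ceil_lt_add_one (by positivity)
  obtain ⟨r, hr1, hr2⟩ := Real.exists_rat_abs_sub_le_and_den_le α hn0
  set b : ℕ := r.den with hb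
  set a : ℤ := r.num with ha
  have hb0 : 0 < b := r.den_pos
  have hb0' : (0 : ℝ) < b := by exact_mod_cast hb0
  have hba : |b * α - a| ≤ 1 / (n + 1) := by
    have e : (b : ℝ) * α - a = b * (α - r) := by
      have : (r : ℝ) = a / b := by rw [Rat.cast_def]
      rw [this]; field_simp
    rw [e, abs_mul, abs_of_pos hb0']
    calc (b : ℝ) * |α - r| ≤ b * (1 / ((n + 1) * b)) := by gcongr
      _ = _ := by field_simp
  have hbn : c * (n + 1) ≤ b := by
    have h1 := h b hb0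
    have h2 : (b : ℝ) * nint (b * α) ≤ b * (1 / (n + 1)) := by
      gcongr
      exact (nint_le_abs_sub _ a).trans hba
    have h3 : c ≤ b * (1 / ((n : ℝ) + 1)) := h1.trans h2
    rw [mul_one_div, le_div_iff₀ (by positivity)] at h3
    exact h3
  have hcn : 8 * X / U ≤ c * (n + 1) := by
    have : c * (8 * X / (c * U)) = 8 * X / U := by field_simp
    rw [← this]
    gcongr
    linarith
  -- Bezout
  obtain ⟨x, y, hxy⟩ : IsCoprime a (b : ℤ) := by
    rw [Int.isCoprime_iff_gcd_eq_one, Int.gcd_eq_natAbs]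
    simpa using r.reduced
  set t : ℤ := (-x) / b with ht
  set b' : ℤ := (-x) % b with hb'
  have hb'0 : 0 ≤ b' := Int.emod_nonneg _ (by positivity)
  have hb'1 : b' < b := Int.emod_lt_of_pos _ (by exact_mod_cast hb0)
  have hb'2 : b' = -x - b * t := by
    have := Int.emod_add_mul_ediv (-x) b
    rw [← ht, ← hb'] at this
    linarith
  set a' : ℤ := y - a * t with ha'
  have hdet : (b : ℤ) * a' - a * b' = 1 := by
    rw [ha', hb'2]; linear_combination hxy
  have hdetR : (b : ℝ) * a' - a * b' = 1 := by exact_mod_cast hdet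
  have hb'a : |b' * α - a'| ≤ U / (4 * X) := by
    have e : (b : ℝ) * (b' * α - a') = b' * (b * α - a) - 1 := by linear_combination -hdetR
    have hb'R0 : (0 : ℝ) ≤ b' := by exact_mod_cast hb'0
    have hb'R1 : (b' : ℝ) ≤ b := by exact_mod_cast hb'1.le
    have h1 : (b : ℝ) * |b' * α - a'| ≤ b * (1 / (n + 1)) + 1 := by
      rw [← abs_of_pos hb0', ← abs_mul, e, abs_of_pos hb0']
      refine (abs_sub _ _).trans ?_
      rw [abs_mul, abs_of_nonneg hb'R0, abs_one]
      gcongr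
    have h2 : |b' * α - a'| ≤ 1 / (n + 1) + 1 / b := by
      have : (b : ℝ) * (1 / (n + 1)) + 1 = b * (1 / (n + 1) + 1 / b) := by field_simp
      rw [this] at h1
      exact le_of_mul_le_mul_left h1 hb0'
    have h3 : 1 / (b : ℝ) ≤ U / (8 * X) := by
      have : 8 * (X : ℝ) / U ≤ b := hcn.trans hbn
      calc 1 / (b : ℝ) ≤ 1 / (8 * X / U) := one_div_le_one_div_of_le (by positivity) this
        _ = _ := by rw [one_div_div]
    have h4 : 1 / ((n : ℝ) + 1) ≤ U / (8 * X) := by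
      have h5 : 8 * (X : ℝ) / U ≤ n + 1 := by
        refine hcn.trans ?_
        have : (0 : ℝ) < n + 1 := by positivity
        nlinarith
      calc 1 / ((n : ℝ) + 1) ≤ 1 / (8 * X / U) := one_div_le_one_div_of_le (by positivity) h5
        _ = _ := by rw [one_div_div]
    have h6 : (U : ℝ) / (4 * X) = U / (8 * X) + U / (8 * X) := by field_simp; ring
    linarith
  have hba2 : |b * α - a| ≤ U / (8 * X) := by
    refine hba.trans ?_
    have h5 : 8 * (X : ℝ) / U ≤ n + 1 := by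
      refine hcn.trans ?_
      have : (0 : ℝ) < n + 1 := by positivity
      nlinarith
    calc 1 / ((n : ℝ) + 1) ≤ 1 / (8 * X / U) := one_div_le_one_div_of_le (by positivity) h5
      _ = _ := by rw [one_div_div]
  -- the map
  have hcast : ((b'.toNat : ℕ) : ℤ) = b' := Int.toNat_of_nonneg hb'0
  have hcastR : ((b'.toNat : ℕ) : ℝ) = (b' : ℝ) := by exact_mod_cast congrArg (fun z : ℤ => (z : ℝ)) hcast
  refine (card_Pairs U hU).trans ?_
  have hmain : ∀ u v : ℕ, u ≤ U → v ≤ U →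
      |((u * b + v * b'.toNat : ℕ) : ℝ) * α - ((u * a + v * a' : ℤ) : ℝ)| ≤ (U : ℝ) ^ 2 / (2 * X) := by
    intro u v hu hv
    have hu' : (u : ℝ) ≤ U := by exact_mod_cast hu
    have hv' : (v : ℝ) ≤ U := by exact_mod_cast hv
    have e : ((u * b + v * b'.toNat : ℕ) : ℝ) * α - ((u * a + v * a' : ℤ) : ℝ)
        = u * (b * α - a) + v * (b' * α - a') := by
      push_cast
      rw [hcastR]; ring
    rw [e]
    refine (abs_add_le _ _).trans ?_
    rw [abs_mul, abs_mul, Nat.abs_cast, Nat.abs_cast]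
    calc (u : ℝ) * |b * α - a| + v * |b' * α - a'| ≤ U * (U / (8 * X)) + U * (U / (4 * X)) := by
          gcongr
      _ = (U : ℝ) ^ 2 * 3 / (8 * X) := by field_simp; ring
      _ ≤ (U : ℝ) ^ 2 / (2 * X) := by
          rw [div_le_div_iff₀ (by positivity) (by positivity)]
          have : 0 ≤ (U : ℝ) ^ 2 * X := by positivity
          nlinarith
  have hcardle : (Pairs U).card ≤ (Fam α X (R * X) ((U : ℝ) ^ 2 / X)).card := by
    apply card_le_card_of_injOn (fun w : ℕ × ℕ => w.1 * b + w.2 * b'.toNat)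
    · intro w hw
      have hw' := hw
      simp only [Pairs, coe_filter, mem_product, mem_Icc, Set.mem_ofPred_eq] at hw'
      obtain ⟨⟨⟨h1, h2⟩, h3, h4⟩, h5, h6⟩ := hw'
      have h1' : (1 : ℝ) ≤ w.1 := by exact_mod_cast h1
      have h2' : (w.1 : ℝ) ≤ U := by exact_mod_cast h2
      have h4' : (w.2 : ℝ) ≤ U := by exact_mod_cast h4
      have h6' : (U : ℝ) < 8 * w.1 := by exact_mod_cast h6
      rw [mem_coe, mem_Fam]
      refine ⟨⟨?_, ?_⟩, w.1 * a + w.2 * a', ?_, ?_⟩
      · have : (X : ℝ) ≤ ((w.1 * b + w.2 * b'.toNat : ℕ) : ℝ) := by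
          push_cast
          have k1 : 8 * (X : ℝ) / U ≤ b := hcn.trans hbn
          have k2 : 8 * (X : ℝ) ≤ b * U := by rwa [div_le_iff₀ (by positivity)] at k1
          have k3 : (b : ℝ) * U ≤ b * (8 * w.1) := by gcongr
          have k4 : (0 : ℝ) ≤ w.2 * b'.toNat := by positivity
          nlinarith
        exact_mod_cast this
      · have : ((w.1 * b + w.2 * b'.toNat : ℕ) : ℝ) < ((R * X : ℕ) : ℝ) := by
          push_cast
          rw [hcastR]
          have k1 : (b : ℝ) ≤ n := by exact_mod_cast hr2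
          have k2 : (b' : ℝ) < b := by exact_mod_cast hb'1
          have k0 : (0 : ℝ) ≤ b' := by exact_mod_cast hb'0
          have k3 : (w.1 : ℝ) * b ≤ U * n := by gcongr
          have k4 : (w.2 : ℝ) * b' ≤ U * n := by
            calc (w.2 : ℝ) * b' ≤ U * b := by gcongr
              _ ≤ U * n := by gcongr
          have k5 : U * (n : ℝ) < U * (8 * X / (c * U) + 1) := by
            apply mul_lt_mul_of_pos_left hn2 (by positivity)
          have k6 : U * (8 * X / (c * U) + 1) = 8 * X / c + U := by field_simp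
          have k7 : (16 / c + 2) * (X : ℝ) ≤ R * X := by gcongr
          have k8 : (16 / c + 2) * (X : ℝ) = 2 * (8 * X / c) + 2 * X := by ring
          linarith
        exact_mod_cast this
      · have hcop : IsCoprime (w.1 : ℤ) (w.2 : ℤ) := Nat.isCoprime_iff_coprime.mpr h5
        obtain ⟨s, s', hs⟩ := hcop
        refine ⟨s * a' - s' * a, -s * b' + s' * b, ?_⟩
        push_cast
        rw [hcast]
        linear_combination hs + (s * w.1 + s' * w.2) * hdet
      · refine (hmain w.1 w.2 h2 h4).trans ?_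
        gcongr
        linarith
    · intro w hw w' hw' heq
      simp only [Pairs, coe_filter, mem_product, mem_Icc, Set.mem_ofPred_eq] at hw hw'
      obtain ⟨⟨⟨h1, h2⟩, h3, h4⟩, h5, h6⟩ := hw
      obtain ⟨⟨⟨h1', h2'⟩, h3', h4'⟩, h5', h6'⟩ := hw'
      have e1 := hmain w.1 w.2 h2 h4
      have e2 := hmain w'.1 w'.2 h2' h4'
      simp only at heq
      rw [← heq] at e2
      have e3 : |(((w.1 * a + w.2 * a') - (w'.1 * a + w'.2 * a') : ℤ) : ℝ)| < 1 := by
        have : (((w.1 * a + w.2 * a') - (w'.1 * a + w'.2 * a') : ℤ) : ℝ) =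
          -(((w.1 * b + w.2 * b'.toNat : ℕ) : ℝ) * α - ((w.1 * a + w.2 * a' : ℤ) : ℝ)) +
          (((w.1 * b + w.2 * b'.toNat : ℕ) : ℝ) * α - ((w'.1 * a + w'.2 * a' : ℤ) : ℝ)) := by
          push_cast; ring
        rw [this]
        refine lt_of_le_of_lt (abs_add_le _ _) ?_
        rw [abs_neg]
        refine lt_of_le_of_lt (add_le_add e1 e2) ?_
        have : (U : ℝ) ^ 2 / (2 * X) + (U : ℝ) ^ 2 / (2 * X) = U ^ 2 / X := by field_simp; ring
        rw [this, div_lt_one hX0]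
        nlinarith
      have e4 : (w.1 * a + w.2 * a') - (w'.1 * a + w'.2 * a') = 0 := by
        apply Int.abs_lt_one_iff.mp
        exact_mod_cast e3
      have e5 : ((w.1 : ℤ) * b + w.2 * b') = w'.1 * b + w'.2 * b' := by
        have := congrArg (fun z : ℕ => (z : ℤ)) heq
        push_cast at this
        rw [hcast] at this
        exact this
      have f1 : (w.1 : ℤ) = w'.1 := by
        linear_combination (-(w.1 : ℤ) + w'.1) * hdet + a' * e5 - b' * e4
      have f2 : (w.2 : ℤ) = w'.2 := by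
        linear_combination (-(w.2 : ℤ) + w'.2) * hdet + b * e4 - a * e5
      exact Prod.ext (by exact_mod_cast f1) (by exact_mod_cast f2)
  exact_mod_cast hcardle

end Pool.Agent.KS6_2
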