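import Pool.Agent.KS6_2.Tent

open Real Finset MeasureTheory

namespace Pool.Agent.KS6_2

lemma co_zero (δ : ℝ) : co δ 0 = 0 := by simp [co]

lemma co_le {δ : ℝ} (h0 : 0 < δ) {n : ℕ} (hn : 1 ≤ n) :
    co δ (n + 1) ≤ (1 / δ) * (1 / n - 1 / (n + 1 : ℕ)) := by
  have hn' : (1 : ℝ) ≤ n := by exact_mod_cast hn
  have hpi : (3 : ℝ) < π := Real.pi_gt_three
  have h1 : 1 - Real.cos (2 * π * ((n + 1 : ℕ) : ℝ) * δ) ≤ 2 := by
    linarith [Real.neg_one_le_cos (2 * π * ((n + 1 : ℕ) : ℝ) * δ)]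
  have h2 : co δ (n + 1) ≤ 2 / (π ^ 2 * ((n + 1 : ℕ) : ℝ) ^ 2 * δ) := by
    rw [co]
    gcongr
  refine h2.trans ?_
  have e : (1 / δ) * (1 / n - 1 / (n + 1 : ℕ)) = 1 / (n * ((n + 1 : ℕ) : ℝ) * δ) := by
    push_cast
    field_simp
    ring
  rw [e, div_le_div_iff₀ (by positivity) (by positivity)]
  push_cast
  have h3 : (9 : ℝ) ≤ π ^ 2 := by nlinarith
  have h4 : (2 : ℝ) * n ≤ π ^ 2 * (n + 1) := by nlinarith
  have h5 : (0 : ℝ) ≤ ((n : ℝ) + 1) * δ := by positivity
  nlinarith [mul_le_mul_of_nonneg_right h4 h5]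

lemma sum_tail {δ : ℝ} (h0 : 0 < δ) {H : ℕ} (hH : 1 ≤ H) (K : ℕ) :
    ∑ j ∈ range K, co δ (H + 1 + j) ≤ (1 / δ) * (1 / H - 1 / (H + K : ℕ)) := by
  induction K with
  | zero => simp
  | succ K ih =>
    rw [sum_range_succ]
    have := co_le h0 (n := H + K) (by omega)
    have e : H + 1 + K = H + K + 1 := by ring
    rw [e]
    have e2 : H + (K + 1) = H + K + 1 := by ring
    rw [e2]
    calc _ ≤ (1 / δ) * (1 / H - 1 / (H + K : ℕ)) + (1 / δ) * (1 / (H + K : ℕ) - 1 / (H + K + 1 : ℕ)) :=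
          add_le_add ih this
      _ = _ := by ring

lemma sum_tail' {δ : ℝ} (h0 : 0 < δ) {H : ℕ} (hH : 1 ≤ H) (K : ℕ) :
    ∑ j ∈ range K, co δ (H + 1 + j) ≤ 1 / (δ * H) := by
  refine (sum_tail h0 hH K).trans ?_
  have : (0 : ℝ) ≤ 1 / (H + K : ℕ) := by positivity
  have h1 : 0 ≤ 1 / δ := by positivity
  calc (1 / δ) * (1 / H - 1 / (H + K : ℕ)) ≤ (1 / δ) * (1 / H) := by
        apply mul_le_mul_of_nonneg_left _ h1; linarith
    _ = 1 / (δ * H) := by rw [one_div_mul_one_div]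

/-- truncated cosine series -/
noncomputable def gH (δ : ℝ) (H : ℕ) (x : ℝ) : ℝ :=
  ∑ n ∈ range (H + 1), co δ n * Real.cos (2 * π * n * x)

lemma abs_gH_le {δ : ℝ} (h0 : 0 < δ) (h1 : δ ≤ 1 / 2) (H : ℕ) (x : ℝ) : |gH δ H x| ≤ 1 := by
  refine (abs_sum_le_sum_abs _ _).trans (le_trans (sum_le_sum fun n _ => ?_) (sum_co_le h0 h1 (range (H + 1))))
  rw [abs_mul, abs_of_nonneg (co_nonneg h0 n)]
  exact mul_le_of_le_one_right (co_nonneg h0 n) (Real.abs_cos_le_one _)

lemma abs_tent_sub_le {δ : ℝ} (h0 : 0 < δ) (h1 : δ ≤ 1 / 2) (x : ℝ) : |tent δ x - δ| ≤ 1 := by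
  rw [abs_le]
  constructor
  · linarith [tent_nonneg δ x]
  · linarith [tent_le_one h0 x]

lemma abs_sub_gH_le {δ : ℝ} (h0 : 0 < δ) (h1 : δ ≤ 1 / 2) {H : ℕ} (hH : 1 ≤ H) (x : ℝ) :
    |tent δ x - δ - gH δ H x| ≤ 1 / (δ * H) := by
  have ht := (hasSum_tent h0 h1 x).tendsto_sum_nat
  have ht2 : Filter.Tendsto (fun M : ℕ => |∑ n ∈ range M, co δ n * Real.cos (2 * π * n * x) - gH δ H x|)
      Filter.atTop (nhds |tent δ x - δ - gH δ H x|) := (ht.sub_const _).abs
  refine le_of_tendsto ht2 ?_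
  filter_upwards [Filter.eventually_ge_atTop (H + 1)] with M hM
  obtain ⟨K, rfl⟩ := Nat.exists_eq_add_of_le hM
  rw [sum_range_add, gH, add_sub_cancel_left]
  refine (abs_sum_le_sum_abs _ _).trans (le_trans (sum_le_sum fun n _ => ?_) (sum_tail' h0 hH K))
  rw [abs_mul, abs_of_nonneg (co_nonneg h0 _)]
  exact mul_le_of_le_one_right (co_nonneg h0 _) (Real.abs_cos_le_one _)

/-- bound for the integral of a cosine -/
lemma abs_integral_cos_le (μ : Measure ℝ) [IsProbabilityMeasure μ] (m : ℤ) (θ ρ : ℝ)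
    (h : ‖∫ x, Complex.exp (2 * π * Complex.I * (m.natAbs : ℂ) * x) ∂μ‖ ≤ ρ) :
    |∫ x, Real.cos (2 * π * (m * x - θ)) ∂μ| ≤ ρ := by
  -- reduce to `m = natAbs` by parity
  have key : ∀ (k : ℕ) (θ : ℝ), ‖∫ x, Complex.exp (2 * π * Complex.I * (k : ℂ) * x) ∂μ‖ ≤ ρ →
      |∫ x, Real.cos (2 * π * (k * x - θ)) ∂μ| ≤ ρ := by
    intro k θ hk
    have e : ∀ x : ℝ, Real.cos (2 * π * (k * x - θ)) =
        (Complex.exp (-(2 * π * Complex.I * θ)) * Complex.exp (2 * π * Complex.I * (k : ℂ) * x)).re := by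
      intro x
      rw [← Complex.exp_add]
      have : -(2 * π * Complex.I * θ) + 2 * π * Complex.I * (k : ℂ) * x
          = ((2 * π * (k * x - θ) : ℝ) : ℂ) * Complex.I := by push_cast; ring
      rw [this, Complex.exp_ofReal_mul_I_re]
    simp_rw [e]
    have hint : Integrable (fun x : ℝ => Complex.exp (-(2 * π * Complex.I * θ)) *
        Complex.exp (2 * π * Complex.I * (k : ℂ) * x)) μ := by
      apply Integrable.const_mul
      refine (integrable_const (1 : ℝ)).mono' (by fun_prop) ?_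
      filter_upwards with x
      have : 2 * π * Complex.I * (k : ℂ) * x = ((2 * π * k * x : ℝ) : ℂ) * Complex.I := by push_cast; ring
      rw [this, Complex.norm_exp_ofReal_mul_I]
    have h2 := integral_re (𝕜 := ℂ) hint
    simp only [RCLike.re_to_complex] at h2
    rw [h2, integral_const_mul]
    refine (Complex.abs_re_le_norm _).trans ?_
    rw [norm_mul]
    have : -(2 * π * Complex.I * θ) = ((-(2 * π * θ) : ℝ) : ℂ) * Complex.I := by push_cast; ring
    rw [this, Complex.norm_exp_ofReal_mul_I, one_mul]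
    exact hk
  rcases Int.natAbs_eq m with hm | hm
  · have := key m.natAbs θ h
    rw [hm]
    simpa using this
  · have := key m.natAbs (-θ) h
    have e : ∀ x : ℝ, Real.cos (2 * π * (m * x - θ)) = Real.cos (2 * π * ((m.natAbs : ℝ) * x - -θ)) := by
      intro x
      have hm' : (m : ℝ) = -(m.natAbs : ℝ) := by
        have : (m : ℝ) = ((-(m.natAbs : ℤ) : ℤ) : ℝ) := by rw [← hm]
        rw [this, Int.cast_neg, Int.cast_natCast]
      rw [hm', ← Real.cos_neg]
      congr 1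
      ring
    simp_rw [e]
    exact this

lemma measurable_nint : Measurable nint := by
  have : nint = fun x => min (Int.fract x) (1 - Int.fract x) := funext nint_eq_min
  rw [this]
  exact measurable_fract.min (measurable_const.sub measurable_fract)

lemma measurable_tent (δ : ℝ) : Measurable (tent δ) := by
  unfold tent
  exact measurable_const.max (measurable_const.sub (measurable_nint.div_const δ))

lemma continuous_gH (δ : ℝ) (H : ℕ) : Continuous (gH δ H) := by
  unfold gH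
  fun_prop

lemma integrable_of_abs_le_one (μ : Measure ℝ) [IsProbabilityMeasure μ] {f : ℝ → ℝ}
    (hf : Measurable f) {B : ℝ} (hb : ∀ x, |f x| ≤ B) : Integrable f μ :=
  (integrable_const B).mono' hf.aestronglyMeasurable (by filter_upwards with x using hb x)

lemma abs_integral_le_of (μ : Measure ℝ) [IsProbabilityMeasure μ] {f : ℝ → ℝ} {B : ℝ}
    (hb : ∀ x, |f x| ≤ B) : |∫ x, f x ∂μ| ≤ B := by
  have := norm_integral_le_of_norm_le_const (μ := μ) (f := f) (C := B)
    (by filter_upwards with x using hb x)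
  simpa using this

/-- the truncated functions are almost uncorrelated -/
lemma gH_cross (μ : Measure ℝ) [IsProbabilityMeasure μ] {L : ℕ} {ρ : ℝ}
    (hρ : ∀ m : ℕ, L ≤ m → ‖∫ x, Complex.exp (2 * π * Complex.I * (m : ℂ) * x) ∂μ‖ ≤ ρ)
    {δ δ' : ℝ} (h0 : 0 < δ) (h1 : δ ≤ 1 / 2) (h0' : 0 < δ') (h1' : δ' ≤ 1 / 2) {H q q' : ℕ}
    (z z' : ℝ) (hL : ∀ n n' : ℕ, 1 ≤ n → n ≤ H → 1 ≤ n' → n' ≤ H →
      L ≤ ((n : ℤ) * q - n' * q').natAbs) (hρ0 : 0 ≤ ρ) :
    |∫ x, gH δ H (q * x - z) * gH δ' H (q' * x - z') ∂μ| ≤ ρ := by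
  have hint : ∀ (n n' : ℕ), Integrable (fun x : ℝ => co δ n * Real.cos (2 * π * n * (q * x - z)) *
      (co δ' n' * Real.cos (2 * π * n' * (q' * x - z')))) μ := by
    intro n n'
    refine integrable_of_abs_le_one μ (B := co δ n * co δ' n') (by fun_prop) (fun x => ?_)
    rw [abs_mul, abs_mul, abs_mul, abs_of_nonneg (co_nonneg h0 n), abs_of_nonneg (co_nonneg h0' n')]
    have a1 := Real.abs_cos_le_one (2 * π * n * (q * x - z))
    have a2 := Real.abs_cos_le_one (2 * π * n' * (q' * x - z'))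
    exact mul_le_mul (mul_le_of_le_one_right (co_nonneg h0 n) a1)
      (mul_le_of_le_one_right (co_nonneg h0' n') a2)
      (mul_nonneg (co_nonneg h0' n') (abs_nonneg _)) (co_nonneg h0 n)
  have e : ∫ x, gH δ H (q * x - z) * gH δ' H (q' * x - z') ∂μ
      = ∑ n ∈ range (H + 1), ∑ n' ∈ range (H + 1),
        ∫ x, co δ n * Real.cos (2 * π * n * (q * x - z)) *
      (co δ' n' * Real.cos (2 * π * n' * (q' * x - z'))) ∂μ := by
    have e1 : ∀ x : ℝ, gH δ H (q * x - z) * gH δ' H (q' * x - z') =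
        ∑ n ∈ range (H + 1), ∑ n' ∈ range (H + 1), co δ n * Real.cos (2 * π * n * (q * x - z)) *
          (co δ' n' * Real.cos (2 * π * n' * (q' * x - z'))) := by
      intro x
      rw [gH, gH, sum_mul_sum]
    simp_rw [e1]
    rw [integral_finsetSum _ (fun n _ => integrable_finsetSum _ (fun n' _ => hint n n'))]
    refine sum_congr rfl fun n _ => ?_
    rw [integral_finsetSum _ (fun n' _ => hint n n')]
  rw [e]
  have hterm : ∀ n ∈ range (H + 1), ∀ n' ∈ range (H + 1),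
      |∫ x, co δ n * Real.cos (2 * π * n * (q * x - z)) *
        (co δ' n' * Real.cos (2 * π * n' * (q' * x - z'))) ∂μ| ≤ co δ n * co δ' n' * ρ := by
    intro n hn n' hn'
    rcases Nat.eq_zero_or_pos n with rfl | hn0
    · simp [co_zero]
    rcases Nat.eq_zero_or_pos n' with rfl | hn0'
    · simp [co_zero]
    rw [mem_range] at hn hn'
    have hL1 := hL n n' hn0 (by omega) hn0' (by omega)
    have hL2 : L ≤ ((n : ℤ) * q + n' * q').natAbs := by
      refine hL1.trans ?_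
      have a1 : (0 : ℤ) ≤ (n : ℤ) * q := by positivity
      have a2 : (0 : ℤ) ≤ (n' : ℤ) * q' := by positivity
      omega
    have b1 := abs_integral_cos_le μ ((n : ℤ) * q - n' * q') (n * z - n' * z') ρ (hρ _ hL1)
    have b2 := abs_integral_cos_le μ ((n : ℤ) * q + n' * q') (n * z + n' * z') ρ (hρ _ hL2)
    have e2 : ∀ x : ℝ, co δ n * Real.cos (2 * π * n * (q * x - z)) *
        (co δ' n' * Real.cos (2 * π * n' * (q' * x - z'))) =
        (co δ n * co δ' n' / 2) * Real.cos (2 * π * ((((n : ℤ) * q - n' * q' : ℤ) : ℝ) * x - (n * z - n' * z'))) +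
        (co δ n * co δ' n' / 2) * Real.cos (2 * π * ((((n : ℤ) * q + n' * q' : ℤ) : ℝ) * x - (n * z + n' * z'))) := by
      intro x
      have h3 := Real.two_mul_cos_mul_cos (2 * π * n * (q * x - z)) (2 * π * n' * (q' * x - z'))
      have h4 : 2 * π * ((((n : ℤ) * q - n' * q' : ℤ) : ℝ) * x - (n * z - n' * z'))
          = 2 * π * n * (q * x - z) - 2 * π * n' * (q' * x - z') := by push_cast; ring
      have h5 : 2 * π * ((((n : ℤ) * q + n' * q' : ℤ) : ℝ) * x - (n * z + n' * z'))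
          = 2 * π * n * (q * x - z) + 2 * π * n' * (q' * x - z') := by push_cast; ring
      rw [h4, h5]
      linear_combination (co δ n * co δ' n' / 2) * h3
    simp_rw [e2]
    rw [integral_add, integral_const_mul, integral_const_mul]
    · have hc : 0 ≤ co δ n * co δ' n' / 2 := by
        have := mul_nonneg (co_nonneg h0 n) (co_nonneg h0' n')
        linarith
      refine (abs_add_le _ _).trans ?_
      rw [abs_mul, abs_mul, abs_of_nonneg hc]
      have := mul_le_mul_of_nonneg_left b1 hc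
      have := mul_le_mul_of_nonneg_left b2 hc
      linarith
    · refine (integrable_of_abs_le_one μ (B := 1) (by fun_prop) (fun x => ?_)).const_mul _
      exact Real.abs_cos_le_one _
    · refine (integrable_of_abs_le_one μ (B := 1) (by fun_prop) (fun x => ?_)).const_mul _
      exact Real.abs_cos_le_one _
  calc |∑ n ∈ range (H + 1), ∑ n' ∈ range (H + 1),
        ∫ x, co δ n * Real.cos (2 * π * n * (q * x - z)) *
      (co δ' n' * Real.cos (2 * π * n' * (q' * x - z'))) ∂μ|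
      ≤ ∑ n ∈ range (H + 1), ∑ n' ∈ range (H + 1), co δ n * co δ' n' * ρ := by
        refine (abs_sum_le_sum_abs _ _).trans (sum_le_sum fun n hn => ?_)
        exact (abs_sum_le_sum_abs _ _).trans (sum_le_sum fun n' hn' => hterm n hn n' hn')
    _ = (∑ n ∈ range (H + 1), co δ n) * (∑ n' ∈ range (H + 1), co δ' n') * ρ := by
        rw [sum_mul_sum, sum_mul]
        refine sum_congr rfl fun n _ => ?_
        rw [sum_mul]
    _ ≤ 1 * 1 * ρ := by
        gcongr
        · exact sum_nonneg fun n _ => co_nonneg h0' n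
        · exact sum_co_le h0 h1 _
        · exact sum_co_le h0' h1' _
    _ = ρ := by ring

/-- **the tent functions are almost uncorrelated** -/
lemma tent_cross (μ : Measure ℝ) [IsProbabilityMeasure μ] {L : ℕ} {ρ : ℝ}
    (hρ : ∀ m : ℕ, L ≤ m → ‖∫ x, Complex.exp (2 * π * Complex.I * (m : ℂ) * x) ∂μ‖ ≤ ρ)
    {δ δ' : ℝ} (h0 : 0 < δ) (h1 : δ ≤ 1 / 2) (h0' : 0 < δ') (h1' : δ' ≤ 1 / 2) {H q q' : ℕ}
    (hH : 1 ≤ H)
    (z z' : ℝ) (hL : ∀ n n' : ℕ, 1 ≤ n → n ≤ H → 1 ≤ n' → n' ≤ H →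
      L ≤ ((n : ℤ) * q - n' * q').natAbs) (hρ0 : 0 ≤ ρ) :
    |∫ x, (tent δ (q * x - z) - δ) * (tent δ' (q' * x - z') - δ') ∂μ| ≤
      ρ + 1 / (δ * H) + 1 / (δ' * H) := by
  have hm1 : Measurable fun x : ℝ => tent δ (q * x - z) - δ :=
    ((measurable_tent δ).comp (by fun_prop)).sub_const δ
  have hm2 : Measurable fun x : ℝ => tent δ' (q' * x - z') - δ' :=
    ((measurable_tent δ').comp (by fun_prop)).sub_const δ'
  have hm3 : Measurable fun x : ℝ => gH δ H (q * x - z) :=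
    ((continuous_gH δ H).measurable).comp (by fun_prop)
  have hm4 : Measurable fun x : ℝ => gH δ' H (q' * x - z') :=
    ((continuous_gH δ' H).measurable).comp (by fun_prop)
  have hi1 : Integrable (fun x => (tent δ (q * x - z) - δ) * (tent δ' (q' * x - z') - δ')) μ := by
    refine integrable_of_abs_le_one μ (B := 1 * 1) (hm1.mul hm2) (fun x => ?_)
    rw [abs_mul]
    exact mul_le_mul (abs_tent_sub_le h0 h1 _) (abs_tent_sub_le h0' h1' _) (abs_nonneg _) zero_le_one
  have hi2 : Integrable (fun x => gH δ H (q * x - z) * gH δ' H (q' * x - z')) μ := by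
    refine integrable_of_abs_le_one μ (B := 1 * 1) (hm3.mul hm4) (fun x => ?_)
    rw [abs_mul]
    exact mul_le_mul (abs_gH_le h0 h1 H _) (abs_gH_le h0' h1' H _) (abs_nonneg _) zero_le_one
  have hdiff : |∫ x, ((tent δ (q * x - z) - δ) * (tent δ' (q' * x - z') - δ') -
      gH δ H (q * x - z) * gH δ' H (q' * x - z')) ∂μ| ≤ 1 / (δ * H) + 1 / (δ' * H) := by
    apply abs_integral_le_of
    intro x
    set a := tent δ (q * x - z) - δ
    set b := tent δ' (q' * x - z') - δ'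
    set a' := gH δ H (q * x - z)
    set b' := gH δ' H (q' * x - z')
    have e : a * b - a' * b' = (a - a') * b + a' * (b - b') := by ring
    rw [e]
    have k1 : |a - a'| ≤ 1 / (δ * H) := abs_sub_gH_le h0 h1 hH _
    have k2 : |b - b'| ≤ 1 / (δ' * H) := abs_sub_gH_le h0' h1' hH _
    have k3 : |b| ≤ 1 := abs_tent_sub_le h0' h1' _
    have k4 : |a'| ≤ 1 := abs_gH_le h0 h1 H _
    refine (abs_add_le _ _).trans ?_
    rw [abs_mul, abs_mul]
    have k5 : |a - a'| * |b| ≤ 1 / (δ * H) * 1 :=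
      mul_le_mul k1 k3 (abs_nonneg _) ((abs_nonneg _).trans k1)
    have k6 : |a'| * |b - b'| ≤ 1 * (1 / (δ' * H)) :=
      mul_le_mul k4 k2 (abs_nonneg _) zero_le_one
    linarith
  rw [integral_sub hi1 hi2] at hdiff
  have h3 := gH_cross μ hρ h0 h1 h0' h1' z z' hL hρ0
  have h4 := abs_sub_abs_le_abs_sub (∫ x, (tent δ (q * x - z) - δ) * (tent δ' (q' * x - z') - δ') ∂μ)
    (∫ x, gH δ H (q * x - z) * gH δ' H (q' * x - z') ∂μ)
  linarith

/-- the mean value of the tent function -/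
lemma tent_mean (μ : Measure ℝ) [IsProbabilityMeasure μ] {L : ℕ} {ρ : ℝ}
    (hρ : ∀ m : ℕ, L ≤ m → ‖∫ x, Complex.exp (2 * π * Complex.I * (m : ℂ) * x) ∂μ‖ ≤ ρ)
    {δ : ℝ} (h0 : 0 < δ) (h1 : δ ≤ 1 / 2) {H q : ℕ} (hH : 1 ≤ H) (hq : L ≤ q)
    (z : ℝ) (hρ0 : 0 ≤ ρ) :
    |∫ x, (tent δ (q * x - z) - δ) ∂μ| ≤ ρ + 1 / (δ * H) := by
  have hm1 : Measurable fun x : ℝ => tent δ (q * x - z) - δ :=
    ((measurable_tent δ).comp (by fun_prop)).sub_const δ
  have hm3 : Measurable fun x : ℝ => gH δ H (q * x - z) :=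
    ((continuous_gH δ H).measurable).comp (by fun_prop)
  have hi1 : Integrable (fun x => (tent δ (q * x - z) - δ)) μ :=
    integrable_of_abs_le_one μ (B := 1) hm1 (fun x => abs_tent_sub_le h0 h1 _)
  have hi2 : Integrable (fun x => gH δ H (q * x - z)) μ :=
    integrable_of_abs_le_one μ (B := 1) hm3 (fun x => abs_gH_le h0 h1 H _)
  have hdiff : |∫ x, ((tent δ (q * x - z) - δ) - gH δ H (q * x - z)) ∂μ| ≤ 1 / (δ * H) :=
    abs_integral_le_of μ fun x => abs_sub_gH_le h0 h1 hH _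
  rw [integral_sub hi1 hi2] at hdiff
  have h3 : |∫ x, gH δ H (q * x - z) ∂μ| ≤ ρ := by
    have e : ∫ x, gH δ H (q * x - z) ∂μ = ∑ n ∈ range (H + 1),
        ∫ x, co δ n * Real.cos (2 * π * n * (q * x - z)) ∂μ := by
      unfold gH
      rw [integral_finsetSum]
      intro n _
      refine (integrable_of_abs_le_one μ (B := 1) (by fun_prop) (fun x => ?_)).const_mul _
      exact Real.abs_cos_le_one _
    rw [e]
    have hterm : ∀ n ∈ range (H + 1), |∫ x, co δ n * Real.cos (2 * π * n * (q * x - z)) ∂μ| ≤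
        co δ n * ρ := by
      intro n _
      rcases Nat.eq_zero_or_pos n with rfl | hn0
      · simp [co_zero]
      rw [integral_const_mul, abs_mul, abs_of_nonneg (co_nonneg h0 n)]
      refine mul_le_mul_of_nonneg_left ?_ (co_nonneg h0 n)
      have hL2 : L ≤ ((n : ℤ) * q).natAbs := by
        have : ((n : ℤ) * q).natAbs = n * q := by
          rw [Int.natAbs_mul]; simp
        rw [this]
        nlinarith
      have := abs_integral_cos_le μ ((n : ℤ) * q) (n * z) ρ (hρ _ hL2)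
      have e5 : ∀ x : ℝ, 2 * π * n * (q * x - z) = 2 * π * ((((n : ℤ) * q : ℤ) : ℝ) * x - n * z) := by
        intro x; push_cast; ring
      simp_rw [e5]
      exact this
    calc _ ≤ ∑ n ∈ range (H + 1), co δ n * ρ :=
          (abs_sum_le_sum_abs _ _).trans (sum_le_sum hterm)
      _ = (∑ n ∈ range (H + 1), co δ n) * ρ := by rw [sum_mul]
      _ ≤ 1 * ρ := by gcongr; exact sum_co_le h0 h1 _
      _ = ρ := one_mul ρ
  have h4 := abs_sub_abs_le_abs_sub (∫ x, (tent δ (q * x - z) - δ) ∂μ) (∫ x, gH δ H (q * x - z) ∂μ)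
  linarith

end Pool.Agent.KS6_2
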