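import Pool.Agent.KS6_2.Tent

open Real Finset

namespace Pool.Agent.KS6_2

/-- `q` is the first coordinate of a primitive vector `(q, p)` with `|q α - p| ≤ ε`. -/
def Ap (α ε : ℝ) (q : ℕ) : Prop := ∃ p : ℤ, IsCoprime (q : ℤ) p ∧ |q * α - p| ≤ ε

lemma freq_ne {α ε ε' : ℝ} {q q' n n' : ℕ} (hq : Ap α ε q) (hq' : Ap α ε' q') (hne : q ≠ q')
    (hn : 1 ≤ n) (hn' : 1 ≤ n') (hs : n * ε + n' * ε' < 1) : (n : ℤ) * q - n' * q' ≠ 0 := by
  obtain ⟨p, ⟨a, b, hab⟩, hp⟩ := hq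
  obtain ⟨p', ⟨a', b', hab'⟩, hp'⟩ := hq'
  intro h0
  have hz : (n : ℤ) * p - n' * p' = 0 := by
    have h1 : (((n : ℤ) * p - n' * p' : ℤ) : ℝ) = -(n * (q * α - p)) + n' * (q' * α - p') := by
      have h2 : (n : ℝ) * q - n' * q' = 0 := by exact_mod_cast h0
      push_cast
      linear_combination α * h2
    have h3 : |(((n : ℤ) * p - n' * p' : ℤ) : ℝ)| < 1 := by
      rw [h1]
      refine lt_of_le_of_lt (abs_add_le _ _) ?_
      rw [abs_neg, abs_mul, abs_mul, Nat.abs_cast, Nat.abs_cast]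
      have k1 := mul_le_mul_of_nonneg_left hp (Nat.cast_nonneg (α := ℝ) n)
      have k2 := mul_le_mul_of_nonneg_left hp' (Nat.cast_nonneg (α := ℝ) n')
      linarith
    have h4 : |(n : ℤ) * p - n' * p'| < 1 := by exact_mod_cast h3
    exact Int.abs_lt_one_iff.mp h4
  have e1 : (n : ℤ) * q = n' * q' := by linarith
  have e2 : (n : ℤ) * p = n' * p' := by linarith
  have d1 : (n' : ℤ) ∣ n := by
    refine ⟨a * q' + b * p', ?_⟩
    calc (n : ℤ) = n * (a * q + b * p) := by rw [hab]; ring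
      _ = a * (n * q) + b * (n * p) := by ring
      _ = _ := by rw [e1, e2]; ring
  have d2 : (n : ℤ) ∣ n' := by
    refine ⟨a' * q + b' * p, ?_⟩
    calc (n' : ℤ) = n' * (a' * q' + b' * p') := by rw [hab']; ring
      _ = a' * (n' * q') + b' * (n' * p') := by ring
      _ = _ := by rw [← e1, ← e2]; ring
  have d : n = n' := Nat.dvd_antisymm (by exact_mod_cast d2) (by exact_mod_cast d1)
  subst d
  apply hne
  have hn0 : (n : ℤ) ≠ 0 := by positivity
  exact_mod_cast mul_left_cancel₀ hn0 e1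

/-- `α` is badly approximable with the constant `c`. -/
def Bad (c α : ℝ) : Prop := ∀ q : ℕ, 1 ≤ q → c ≤ q * nint (q * α)

lemma bad_int {c α : ℝ} (h : Bad c α) {m : ℤ} (hm : m ≠ 0) (p : ℤ) :
    c ≤ m.natAbs * |m * α - p| := by
  have h1 : 1 ≤ m.natAbs := Int.natAbs_pos.mpr hm
  have h2 := h m.natAbs h1
  refine h2.trans (mul_le_mul_of_nonneg_left ?_ (Nat.cast_nonneg _))
  rcases Int.natAbs_eq m with e | e
  · have : (m : ℝ) = (m.natAbs : ℝ) := by
      conv_lhs => rw [e]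
      rw [Int.cast_natCast]
    rw [this]
    exact nint_le_abs_sub _ _
  · have : (m : ℝ) = -(m.natAbs : ℝ) := by
      conv_lhs => rw [e]
      rw [Int.cast_neg, Int.cast_natCast]
    rw [this]
    refine (nint_le_abs_sub _ (-p)).trans (le_of_eq ?_)
    rw [← abs_neg]
    congr 1
    push_cast; ring

lemma freq_large {c α ε ε' : ℝ} (h : Bad c α) {q q' n n' : ℕ} (hq : Ap α ε q) (hq' : Ap α ε' q')
    (hne : q ≠ q')
    (hn : 1 ≤ n) (hn' : 1 ≤ n') (hs : n * ε + n' * ε' < 1) :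
    c ≤ ((n : ℤ) * q - n' * q').natAbs * (n * ε + n' * ε') := by
  have h0 := freq_ne hq hq' hne hn hn' hs
  obtain ⟨p, _, hp⟩ := hq
  obtain ⟨p', _, hp'⟩ := hq'
  refine (bad_int h h0 (n * p - n' * p')).trans (mul_le_mul_of_nonneg_left ?_ (Nat.cast_nonneg _))
  have e : (((n : ℤ) * q - n' * q' : ℤ) : ℝ) * α - ((n * p - n' * p' : ℤ) : ℝ)
      = n * (q * α - p) + -(n' * (q' * α - p')) := by push_cast; ring
  rw [e]
  refine (abs_add_le _ _).trans ?_
  rw [abs_neg, abs_mul, abs_mul, Nat.abs_cast, Nat.abs_cast]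
  have k1 := mul_le_mul_of_nonneg_left hp (Nat.cast_nonneg (α := ℝ) n)
  have k2 := mul_le_mul_of_nonneg_left hp' (Nat.cast_nonneg (α := ℝ) n')
  linarith

lemma card_separated {S : Finset ℕ} {Y g : ℝ} (hg : 0 < g) (hY0 : 0 ≤ Y) (hY : ∀ q ∈ S, (q : ℝ) ≤ Y)
    (hsep : ∀ q ∈ S, ∀ q' ∈ S, q < q' → g ≤ (q' : ℝ) - q) : (S.card : ℝ) ≤ Y / g + 1 := by
  have h1 : S.card ≤ (range (⌊Y / g⌋₊ + 1)).card := by
    apply card_le_card_of_injOn (fun q : ℕ => ⌊(q : ℝ) / g⌋₊)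
    · intro q hq
      simp only [coe_range, Set.mem_Iio]
      have : ⌊(q : ℝ) / g⌋₊ ≤ ⌊Y / g⌋₊ := Nat.floor_le_floor (by gcongr; exact hY q hq)
      omega
    · have key : ∀ q ∈ S, ∀ q' ∈ S, q < q' → ⌊(q : ℝ) / g⌋₊ ≠ ⌊(q' : ℝ) / g⌋₊ := by
        intro q hq q' hq' hlt heq
        have h2 := hsep q hq q' hq' hlt
        have h3 : (q' : ℝ) / g < ⌊(q : ℝ) / g⌋₊ + 1 := by rw [heq]; exact Nat.lt_floor_add_one _
        have h4 : (⌊(q : ℝ) / g⌋₊ : ℝ) ≤ (q : ℝ) / g := Nat.floor_le (by positivity)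
        have h5 : (q' : ℝ) / g < (q : ℝ) / g + 1 := by linarith
        have h6 : (q' : ℝ) / g - (q : ℝ) / g = (q' - q) / g := by ring
        have h7 : 1 ≤ ((q' : ℝ) - q) / g := (one_le_div hg).mpr h2
        linarith
      intro q hq q' hq' heq
      rcases lt_trichotomy q q' with h | h | h
      · exact absurd heq (key q hq q' hq' h)
      · exact h
      · exact absurd heq.symm (key q' hq' q hq h)
  rw [card_range] at h1
  have h2 : (S.card : ℝ) ≤ ⌊Y / g⌋₊ + 1 := by exact_mod_cast h1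
  have h3 : (⌊Y / g⌋₊ : ℝ) ≤ Y / g := Nat.floor_le (by positivity)
  linarith

/-- the family of the scale `X` -/
noncomputable def Fam (α : ℝ) (X Y : ℕ) (ε : ℝ) : Finset ℕ := by
  classical exact (Ico X Y).filter (fun q => Ap α ε q)

lemma mem_Fam {α : ℝ} {X Y : ℕ} {ε : ℝ} {q : ℕ} : q ∈ Fam α X Y ε ↔ (X ≤ q ∧ q < Y) ∧ Ap α ε q := by
  classical
  simp [Fam]

lemma card_Fam_le {c α : ℝ} (hc : 0 < c) (h : Bad c α) {X Y : ℕ} {ε : ℝ} (hε : 0 < ε) :
    ((Fam α X Y ε).card : ℝ) ≤ Y * (2 * ε) / c + 1 := by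
  have h1 := card_separated (S := Fam α X Y ε) (Y := Y) (g := c / (2 * ε)) (by positivity)
    (by positivity) (fun q hq => by
      have := (mem_Fam.mp hq).1.2
      exact_mod_cast this.le) (fun q hq q' hq' hlt => by
      obtain ⟨p, _, hp⟩ := (mem_Fam.mp hq).2
      obtain ⟨p', _, hp'⟩ := (mem_Fam.mp hq').2
      have hm : ((q' : ℤ) - q) ≠ 0 := by omega
      have h2 := bad_int h hm (p' - p)
      have h3 : |(((q' : ℤ) - q : ℤ) : ℝ) * α - ((p' - p : ℤ) : ℝ)| ≤ 2 * ε := by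
        have : (((q' : ℤ) - q : ℤ) : ℝ) * α - ((p' - p : ℤ) : ℝ) = (q' * α - p') + -(q * α - p) := by
          push_cast; ring
        rw [this]
        refine (abs_add_le _ _).trans ?_
        rw [abs_neg]; linarith
      have h4 : (((q' : ℤ) - q).natAbs : ℝ) = (q' : ℝ) - q := by
        have : (((q' : ℤ) - q).natAbs : ℤ) = (q' : ℤ) - q := by omega
        have h5 : ((((q' : ℤ) - q).natAbs : ℤ) : ℝ) = (((q' : ℤ) - q : ℤ) : ℝ) := by rw [this]
        rw [Int.cast_natCast, Int.cast_sub, Int.cast_natCast, Int.cast_natCast] at h5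
        exact h5
      rw [h4] at h2
      rw [div_le_iff₀ (by positivity)]
      have h6 : (0 : ℝ) ≤ (q' : ℝ) - q := by
        have : (q : ℝ) < q' := by exact_mod_cast hlt
        linarith
      exact h2.trans (mul_le_mul_of_nonneg_left h3 h6))
  refine h1.trans (le_of_eq ?_)
  field_simp

end Pool.Agent.KS6_2
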