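import Pool.Agent.KS6_2.Sum

open Real Finset MeasureTheory Filter

namespace Pool.Agent.KS6_2

lemma summable_poly_div {S : ℕ} (hS : 2 ≤ S) (p : ℕ) :
    Summable (fun k : ℕ => ((k : ℝ) + 1) ^ p / (S : ℝ) ^ k) := by
  have h0 : (2 : ℝ) ≤ S := by exact_mod_cast hS
  have h1 : Summable (fun k : ℕ => ((k + 1 : ℕ) : ℝ) ^ p * (1 / (S : ℝ)) ^ (k + 1)) := by
    have := summable_pow_mul_geometric_of_norm_lt_one (R := ℝ) p (r := 1 / (S : ℝ)) (by
      rw [Real.norm_eq_abs, abs_of_pos (by positivity), div_lt_one (by positivity)]; linarith)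
    exact (summable_nat_add_iff 1).mpr this
  refine (h1.mul_left (S : ℝ)).congr fun k => ?_
  push_cast
  rw [one_div, inv_pow, pow_succ (S : ℝ)]
  field_simp

lemma block_summable {ψ Λ : ℕ → ℝ} (hψ : Antitone ψ) (hψ0 : ∀ q, 0 ≤ ψ q) (hΛ0 : ∀ q, 0 ≤ Λ q)
    {R k0 : ℕ} (hR : 2 ≤ R) {J : ℕ → ℝ} (hJ : ∀ k, 0 ≤ J k) {C : ℝ}
    (hΛ : ∀ k, k0 ≤ k → ∀ q, R ^ (k + 1) ≤ q → q < R ^ (k + 2) → Λ q ≤ C * J k)
    (hs : Summable (fun k : ℕ => ψ (R ^ (k + 1)) * (R : ℝ) ^ k * J k)) :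
    Summable (fun q => ψ q * Λ q) := by
  set t : ℕ → ℝ := fun k => ψ (R ^ (k + 1)) * (R : ℝ) ^ k * J k with ht
  have ht0 : ∀ k, 0 ≤ t k := fun k => by
    have := hψ0 (R ^ (k + 1)); have := hJ k; positivity
  have hC0 : 0 ≤ |C| := abs_nonneg C
  have key : ∀ K, ∑ q ∈ range (R ^ (k0 + 1 + K)), ψ q * Λ q ≤
      ∑ q ∈ range (R ^ (k0 + 1)), ψ q * Λ q + |C| * (R : ℝ) ^ 2 * ∑ k ∈ range K, t (k0 + k) := by
    intro K
    induction K with
    | zero => simp
    | succ K ih =>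
      have hle : R ^ (k0 + 1 + K) ≤ R ^ (k0 + 1 + (K + 1)) := Nat.pow_le_pow_right (by omega) (by omega)
      rw [← sum_range_add_sum_Ico _ hle, sum_range_succ]
      have hblock : ∑ q ∈ Ico (R ^ (k0 + 1 + K)) (R ^ (k0 + 1 + (K + 1))), ψ q * Λ q ≤
          |C| * (R : ℝ) ^ 2 * t (k0 + K) := by
        calc ∑ q ∈ Ico (R ^ (k0 + 1 + K)) (R ^ (k0 + 1 + (K + 1))), ψ q * Λ q
            ≤ ∑ q ∈ Ico (R ^ (k0 + 1 + K)) (R ^ (k0 + 1 + (K + 1))),
              ψ (R ^ (k0 + K + 1)) * (|C| * J (k0 + K)) := by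
              refine sum_le_sum fun q hq => ?_
              rw [mem_Ico] at hq
              have e1 : k0 + 1 + K = k0 + K + 1 := by ring
              have e2 : k0 + 1 + (K + 1) = k0 + K + 2 := by ring
              rw [e1, e2] at hq
              have h1 := hΛ (k0 + K) (by omega) q hq.1 hq.2
              have h2 : ψ q ≤ ψ (R ^ (k0 + K + 1)) := hψ hq.1
              have h3 : C * J (k0 + K) ≤ |C| * J (k0 + K) :=
                mul_le_mul_of_nonneg_right (le_abs_self C) (hJ _)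
              exact mul_le_mul h2 (h1.trans h3) (hΛ0 q) (hψ0 _)
          _ = ((Ico (R ^ (k0 + 1 + K)) (R ^ (k0 + 1 + (K + 1)))).card : ℝ) *
              (ψ (R ^ (k0 + K + 1)) * (|C| * J (k0 + K))) := by
              rw [sum_const, nsmul_eq_mul]
          _ ≤ (R : ℝ) ^ (k0 + K + 2) * (ψ (R ^ (k0 + K + 1)) * (|C| * J (k0 + K))) := by
              have h1 : ((Ico (R ^ (k0 + 1 + K)) (R ^ (k0 + 1 + (K + 1)))).card : ℝ) ≤
                  (R : ℝ) ^ (k0 + K + 2) := by
                rw [Nat.card_Ico]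
                have e2 : k0 + 1 + (K + 1) = k0 + K + 2 := by ring
                rw [e2]
                have : R ^ (k0 + K + 2) - R ^ (k0 + 1 + K) ≤ R ^ (k0 + K + 2) := Nat.sub_le _ _
                exact_mod_cast this
              have := hψ0 (R ^ (k0 + K + 1)); have := hJ (k0 + K)
              gcongr
          _ = |C| * (R : ℝ) ^ 2 * t (k0 + K) := by
              rw [ht]; simp only [pow_add]; ring
      rw [mul_add]
      linarith
  apply summable_of_sum_range_le (c := ∑ q ∈ range (R ^ (k0 + 1)), ψ q * Λ q + |C| * (R : ℝ) ^ 2 * ∑' k, t (k0 + k))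
  · intro q; exact mul_nonneg (hψ0 q) (hΛ0 q)
  · intro n
    have hn : n ≤ R ^ (k0 + 1 + n) := by
      calc n ≤ 2 ^ n := Nat.lt_two_pow_self.le
        _ ≤ R ^ n := Nat.pow_le_pow_left hR n
        _ ≤ R ^ (k0 + 1 + n) := Nat.pow_le_pow_right (by omega) (by omega)
    have hs' : Summable (fun k => t (k0 + k)) := by
      have := (summable_nat_add_iff k0).mpr hs
      refine this.congr fun k => ?_
      simp only [ht, add_comm]
    calc ∑ q ∈ range n, ψ q * Λ q ≤ ∑ q ∈ range (R ^ (k0 + 1 + n)), ψ q * Λ q := by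
          apply sum_le_sum_of_subset_of_nonneg (range_mono hn)
          intro q _ _; exact mul_nonneg (hψ0 q) (hΛ0 q)
      _ ≤ _ := key n
      _ ≤ _ := by
          have : ∑ k ∈ range n, t (k0 + k) ≤ ∑' k, t (k0 + k) :=
            hs'.sum_le_tsum _ (fun k _ => ht0 _)
          gcongr

/-- **general divergence theorem** -/
theorem general {c α : ℝ} (hc : 0 < c) (hbad : Bad c α) (z : ℕ → ℝ) (μ : Measure ℝ)
    [IsProbabilityMeasure μ] {S : ℕ} (hS : 2 ≤ S) (hSc : 16 / c + 2 ≤ S) {I : ℕ → ℕ} (hI : Monotone I)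
    {k0 : ℕ} (hI' : ∀ k, k0 ≤ k → (4 : ℝ) ^ I k ≤ (S : ℝ) ^ k) {ρ : ℕ → ℝ} (hρ : ∀ k, 0 ≤ ρ k)
    (hμ : ∀ k, k0 ≤ k → ∀ m : ℕ, S ^ (10 * k) ≤ m →
      ‖∫ x, Complex.exp (2 * π * Complex.I * (m : ℂ) * x) ∂μ‖ ≤ ρ k)
    (hsum : Summable (fun k : ℕ => ((k : ℝ) + 1) * 16 ^ I k * ρ k))
    {ψ Λ : ℕ → ℝ} (hψ : Antitone ψ) (hψ0 : ∀ q, 0 ≤ ψ q) (hΛ0 : ∀ q, 0 ≤ Λ q) {C : ℝ}
    (hΛ : ∀ k, k0 ≤ k → ∀ q, (S ^ 32) ^ (k + 1) ≤ q → q < (S ^ 32) ^ (k + 2) → Λ q ≤ C * (I k + 1))
    (hdiv : ¬ Summable (fun q => ψ q * Λ q)) :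
    ∀ᵐ β ∂μ, ∃ᶠ q : ℕ in atTop, nint (q * α) * nint (q * β - z q) < ψ q := by
  set R : ℕ := S ^ 32 with hR
  have hS2 : (2 : ℝ) ≤ S := by exact_mod_cast hS
  have hSR : S ≤ R := by
    calc S = S ^ 1 := (pow_one S).symm
      _ ≤ S ^ 32 := Nat.pow_le_pow_right (by omega) (by norm_num)
  have hR2 : 2 ≤ R := hS.trans hSR
  have hRc : 16 / c + 2 ≤ (R : ℝ) := hSc.trans (by exact_mod_cast hSR)
  have hRpos : (0 : ℝ) < R := by exact_mod_cast (by omega : 0 < R)
  -- a larger k0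
  obtain ⟨k2, hk2⟩ : ∃ k2 : ℕ, ∀ k, k2 ≤ k → 2 ≤ c * (S : ℝ) ^ k := by
    have h1 : Tendsto (fun k : ℕ => c * (S : ℝ) ^ k) atTop atTop :=
      (tendsto_pow_atTop_atTop_of_one_lt (by linarith)).const_mul_atTop hc
    exact eventually_atTop.mp (h1.eventually_ge_atTop 2)
  set k1 := max k0 k2 + 1 with hk1
  set Ψ : ℕ → ℝ := fun k => min (ψ (R ^ (k + 1))) (c / (2 * (R : ℝ) ^ (k + 1))) with hΨ
  set A : Set ℕ := {k | k1 ≤ k ∧ 1 / ((k + 1 : ℝ) ^ 3 * (R : ℝ) ^ k) ≤ ψ (R ^ (k + 1))} with hA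
  set D : ℝ := max 1 (2 * R / c) with hD
  have hD1 : 1 ≤ D := le_max_left _ _
  have hD2 : 2 * R / c ≤ D := le_max_right _ _
  let d : Dat :=
    { c := c, α := α, S := S, R := R, I := I, k0 := k1, D := D, Ψ := Ψ, A := A, ρ := ρ, z := z
      hc := hc, hbad := hbad, hS := hS, hRS := hR, hR := hRc, hI := hI
      hI' := fun k hk => hI' k (by omega)
      hk0 := fun k hk => hk2 k (by omega)
      hk1 := by omega
      hD := hD1
      hA := fun k hk => hk.1
      hΨ0 := by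
        intro k hk
        rw [hΨ]
        refine lt_min (lt_of_lt_of_le ?_ hk.2) ?_ <;> positivity
      hΨ1 := fun k _ => min_le_right _ _
      hΨ2 := by
        intro k hk
        refine le_min (le_trans ?_ hk.2) ?_
        · gcongr
          have : (0 : ℝ) < (k + 1) ^ 3 := by positivity
          nlinarith
        · rw [div_le_div_iff₀ (by positivity) (by positivity)]
          rw [div_le_iff₀ hc] at hD2
          have h3 : (1 : ℝ) ≤ (k + 1) ^ 3 := one_le_pow₀ (by linarith [Nat.cast_nonneg (α := ℝ) k])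
          have h4 : (0 : ℝ) < (R : ℝ) ^ k := by positivity
          calc 1 * (2 * (R : ℝ) ^ (k + 1)) = (2 * R) * 1 * (R : ℝ) ^ k := by rw [pow_succ]; ring
            _ ≤ (D * c) * (k + 1) ^ 3 * (R : ℝ) ^ k := by gcongr
            _ = _ := by ring
      hρ := hρ }
  have hDec : d.Dec μ := fun k hk m hm => hμ k (by have : k1 ≤ k := hk; omega) m hm
  have hT : Summable (fun k : ℕ => ((k : ℝ) + 1) * 16 ^ d.I k * d.E k) := by
    have h1 : Summable (fun k : ℕ => ((k : ℝ) + 1) * 16 ^ I k * (2 * (D * (k + 1) ^ 3 / (S : ℝ) ^ (3 * k)))) := by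
      have h2 := ((summable_poly_div hS 4).mul_left (2 * D))
      refine Summable.of_norm_bounded_eventually_nat h2 ?_
      filter_upwards [eventually_ge_atTop k0] with k hk
      rw [Real.norm_eq_abs, abs_of_nonneg (by positivity)]
      have h3 : (16 : ℝ) ^ I k ≤ (S : ℝ) ^ (2 * k) := by
        have h4 := hI' k hk
        have : (16 : ℝ) ^ I k = 4 ^ I k * 4 ^ I k := by rw [← mul_pow]; norm_num
        rw [this, two_mul, pow_add]
        gcongr
      calc ((k : ℝ) + 1) * 16 ^ I k * (2 * (D * (k + 1) ^ 3 / (S : ℝ) ^ (3 * k)))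
          ≤ ((k : ℝ) + 1) * (S : ℝ) ^ (2 * k) * (2 * (D * (k + 1) ^ 3 / (S : ℝ) ^ (3 * k))) := by gcongr
        _ = 2 * D * (((k : ℝ) + 1) ^ 4 / (S : ℝ) ^ k) := by
            have : (S : ℝ) ^ (3 * k) = (S : ℝ) ^ (2 * k) * (S : ℝ) ^ k := by rw [← pow_add]; congr 1; ring
            rw [this]
            field_simp
    refine (hsum.add h1).congr fun k => ?_
    change _ = ((k : ℝ) + 1) * 16 ^ I k * (ρ k + 2 * (D * (k + 1) ^ 3 / (S : ℝ) ^ (3 * k)))
    ring
  have hDiv : ∀ B : ℝ, ∃ K, B ≤ ∑ i ∈ d.idx K, d.δ i.1 i.2 := by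
    classical
    by_contra hcon
    push Not at hcon
    obtain ⟨B, hB⟩ := hcon
    apply hdiv
    -- lower bound
    have hlow : ∀ K, 3 / 32 * ∑ k ∈ (range K).filter (· ∈ A), Ψ k * (R : ℝ) ^ k * (I k + 1) ≤
        ∑ i ∈ d.idx K, d.δ i.1 i.2 := by
      intro K
      have e0 : ∑ i ∈ d.idx K, d.δ i.1 i.2 =
          ∑ k ∈ (range K).filter (· ∈ A), ∑ q ∈ d.F k, d.δ k q := by
        rw [Dat.idx, sum_sigma]
        apply sum_congr
        · ext k; simp only [mem_filter]; rfl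
        · intro k _; rfl
      rw [e0, mul_sum]
      apply sum_le_sum
      intro k hk
      have hkA : k ∈ A := (mem_filter.mp hk).2
      have h1 := sum_family hc hbad (X := R ^ k) (R := R) (I := I k) (by
        have h2 := hI' k (by have := hkA.1; omega)
        have h3 : ((R ^ k : ℕ) : ℝ) = (S : ℝ) ^ (32 * k) := by rw [hR]; push_cast; rw [← pow_mul]
        rw [h3]
        have hk1' : 1 ≤ k := by have := hkA.1; omega
        have h4 : (S : ℝ) ^ (32 * k) = (S : ℝ) ^ k * (S : ℝ) ^ (31 * k) := by rw [← pow_add]; congr 1; ring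
        have h5 : (2 : ℝ) < (S : ℝ) ^ (31 * k) := by
          calc (2 : ℝ) < 2 ^ 31 := by norm_num
            _ ≤ (S : ℝ) ^ 31 := by gcongr
            _ ≤ (S : ℝ) ^ (31 * k) := pow_le_pow_right₀ (by linarith) (by omega)
        have h6 : (0 : ℝ) < (S : ℝ) ^ k := by positivity
        rw [h4]
        nlinarith) hRc
      have h2 : ∑ q ∈ d.F k, d.δ k q = Ψ k * ∑ q ∈ Fam α (R ^ k) (R * R ^ k) ((4 : ℝ) ^ I k / (R ^ k : ℕ)),
          1 / nint (q * α) := by
        rw [mul_sum]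
        refine sum_congr rfl fun q _ => ?_
        change Ψ k / nint (q * α) = _
        ring
      change _ ≤ ∑ q ∈ d.F k, d.δ k q
      rw [h2]
      have hΨk : 0 ≤ Ψ k := (d.hΨ0 k hkA).le
      calc 3 / 32 * (Ψ k * (R : ℝ) ^ k * (I k + 1)) = Ψ k * (3 / 32 * ((R ^ k : ℕ) : ℝ) * (I k + 1)) := by
            push_cast; ring
        _ ≤ _ := mul_le_mul_of_nonneg_left h1 hΨk
    set u : ℕ → ℝ := fun k => if k ∈ A then Ψ k * (R : ℝ) ^ k * (I k + 1) else 0 with hu
    have hu0 : ∀ k, 0 ≤ u k := by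
      intro k
      simp only [hu]
      split_ifs with h
      · have := (d.hΨ0 k h).le
        change 0 ≤ Ψ k at this
        positivity
      · exact le_rfl
    have husum : Summable u := by
      apply summable_of_sum_range_le (c := 32 / 3 * B) hu0
      intro n
      have h1 := hlow n
      have h2 := (hB n).le
      rw [sum_filter] at h1
      change 3 / 32 * ∑ k ∈ range n, u k ≤ _ at h1
      linarith
    -- eventually the minimum is the first term
    have hlim := husum.tendsto_atTop_zero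
    have hev := hlim.eventually (gt_mem_nhds (show (0 : ℝ) < c / (2 * R) by positivity))
    -- summability of the unrestricted series
    apply block_summable hψ hψ0 hΛ0 (k0 := k0) hR2 (J := fun k => (I k : ℝ) + 1)
      (fun k => by positivity) hΛ
    have hsum3 : Summable (fun k : ℕ => ((k : ℝ) + 1) / (k + 1) ^ 3 * (2 + Real.log S)) := by
      have h1 : Summable (fun k : ℕ => 1 / (((k + 1 : ℕ) : ℝ)) ^ 2) :=
        (summable_nat_add_iff 1).mpr (Real.summable_one_div_nat_pow.mpr (by norm_num))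
      refine Summable.mul_right _ (h1.congr fun k => ?_)
      push_cast
      field_simp
    refine Summable.of_norm_bounded_eventually_nat (husum.add hsum3) ?_
    filter_upwards [hev, eventually_ge_atTop k1] with k hk hkk
    have hterm0 : 0 ≤ ψ (R ^ (k + 1)) * (R : ℝ) ^ k * (I k + 1) := by
      have := hψ0 (R ^ (k + 1)); positivity
    have hlogS : 0 ≤ Real.log S := Real.log_nonneg (by linarith)
    rw [Real.norm_eq_abs, abs_of_nonneg hterm0]
    by_cases hkA : k ∈ A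
    · have h1 : u k = Ψ k * (R : ℝ) ^ k * (I k + 1) := by simp only [hu]; rw [if_pos hkA]
      have h2 : Ψ k = ψ (R ^ (k + 1)) := by
        rw [hΨ]
        simp only
        apply min_eq_left
        by_contra hlt
        push Not at hlt
        have h3 : Ψ k = c / (2 * (R : ℝ) ^ (k + 1)) := by
          rw [hΨ]; exact min_eq_right hlt.le
        rw [h1, h3] at hk
        have h4 : c / (2 * (R : ℝ) ^ (k + 1)) * (R : ℝ) ^ k * (I k + 1) = c / (2 * R) * (I k + 1) := by
          rw [pow_succ]; field_simp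
        rw [h4] at hk
        have h5 : (1 : ℝ) ≤ (I k : ℝ) + 1 := by
          have : (0 : ℝ) ≤ I k := by positivity
          linarith
        have h6 : 0 < c / (2 * R) := by positivity
        nlinarith
      rw [h1, h2]
      have : 0 ≤ ((k : ℝ) + 1) / (k + 1) ^ 3 * (2 + Real.log S) := by positivity
      linarith
    · have h1 : u k = 0 := by simp only [hu]; rw [if_neg hkA]
      have h2 : ψ (R ^ (k + 1)) < 1 / ((k + 1 : ℝ) ^ 3 * (R : ℝ) ^ k) := by
        by_contra hge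
        push Not at hge
        exact hkA ⟨hkk, hge⟩
      rw [h1, zero_add]
      have hIk : (I k : ℝ) + 1 ≤ (k + 1) * (2 + Real.log S) := by
        have h3 := hI' k (by omega)
        have h4 : (I k : ℝ) * Real.log 4 ≤ k * Real.log S := by
          have := Real.log_le_log (by positivity) h3
          rwa [Real.log_pow, Real.log_pow] at this
        have h5 : (1 : ℝ) ≤ Real.log 4 := by
          rw [Real.le_log_iff_exp_le (by norm_num)]
          have := Real.exp_one_lt_d9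
          linarith
        have h6 : (0 : ℝ) ≤ I k := by positivity
        have h7 : (0 : ℝ) ≤ k := by positivity
        nlinarith
      calc ψ (R ^ (k + 1)) * (R : ℝ) ^ k * (I k + 1)
          ≤ 1 / ((k + 1 : ℝ) ^ 3 * (R : ℝ) ^ k) * (R : ℝ) ^ k * ((k + 1) * (2 + Real.log S)) := by
            gcongr
        _ = ((k : ℝ) + 1) / (k + 1) ^ 3 * (2 + Real.log S) := by field_simp
  have hfin := d.ae_infinitely hDec hT hDiv
  filter_upwards [hfin] with β hβ
  rw [frequently_atTop]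
  intro N
  obtain ⟨k, hk, hkA, q, hq, hlt⟩ := hβ N
  have hq1 := (d.mem_F.mp hq).1
  refine ⟨q, ?_, ?_⟩
  · calc N ≤ k := hk
      _ ≤ 2 ^ k := Nat.lt_two_pow_self.le
      _ ≤ R ^ k := Nat.pow_le_pow_left hR2 k
      _ ≤ q := hq1.1
  · have hx := d.nint_pos hq
    change 0 < nint (q * α) at hx
    change nint (q * β - z q) < Ψ k / nint (q * α) at hlt
    rw [lt_div_iff₀ hx] at hlt
    have h1 : Ψ k ≤ ψ (R ^ (k + 1)) := min_le_left _ _
    have h2 : ψ (R ^ (k + 1)) ≤ ψ q := by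
      apply hψ
      rw [pow_succ, mul_comm]
      exact hq1.2.le
    linarith

end Pool.Agent.KS6_2
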