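import Mathlib

open Real Finset

namespace Pool.Agent.KS6_2

/-- distance to the nearest integer -/
noncomputable def nint (x : ℝ) : ℝ := |x - round x|

lemma nint_eq_min (x : ℝ) : nint x = min (Int.fract x) (1 - Int.fract x) := abs_sub_round_eq_min x

lemma nint_nonneg (x : ℝ) : 0 ≤ nint x := abs_nonneg _

lemma nint_le_half (x : ℝ) : nint x ≤ 1 / 2 := abs_sub_round x

lemma nint_le_abs_sub (x : ℝ) (n : ℤ) : nint x ≤ |x - n| := round_le x n

/-- the periodic second Bernoulli function -/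
noncomputable def B2 (x : ℝ) : ℝ := Int.fract x ^ 2 - Int.fract x + 1 / 6

lemma bernoulli_two_eval (x : ℝ) :
    (Polynomial.map (algebraMap ℚ ℝ) (Polynomial.bernoulli 2)).eval x = x ^ 2 - x + 1 / 6 := by
  simp [Polynomial.bernoulli, Finset.sum_range_succ, bernoulli, bernoulli'_two]
  ring

lemma cos_fract (n : ℕ) (x : ℝ) : Real.cos (2 * π * n * Int.fract x) = Real.cos (2 * π * n * x) := by
  have h : 2 * π * n * Int.fract x = 2 * π * n * x - ((n : ℤ) * ⌊x⌋ : ℤ) * (2 * π) := by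
    rw [Int.fract]; push_cast; ring
  rw [h, Real.cos_sub_int_mul_two_pi]

lemma hasSum_cos (x : ℝ) :
    HasSum (fun n : ℕ => 1 / (n : ℝ) ^ 2 * Real.cos (2 * π * n * x)) (π ^ 2 * B2 x) := by
  have h := hasSum_one_div_nat_pow_mul_cos (k := 1) (by norm_num) (x := Int.fract x)
    ⟨Int.fract_nonneg x, (Int.fract_lt_one x).le⟩
  simp only [mul_one, cos_fract] at h
  have e : (-1 : ℝ) ^ (1 + 1) * (2 * π) ^ 2 / 2 / (Nat.factorial 2 : ℕ) *
      (Polynomial.map (algebraMap ℚ ℝ) (Polynomial.bernoulli 2)).eval (Int.fract x)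
      = π ^ 2 * B2 x := by
    rw [bernoulli_two_eval, B2]
    have : ((Nat.factorial 2 : ℕ) : ℝ) = 2 := by norm_num [Nat.factorial]
    rw [this]
    ring
  rw [e] at h
  exact h

/-- the tent function of height `1` and half-width `δ` around the integers -/
noncomputable def tent (δ x : ℝ) : ℝ := max 0 (1 - nint x / δ)

/-- its cosine coefficients -/
noncomputable def co (δ : ℝ) (n : ℕ) : ℝ := (1 - Real.cos (2 * π * n * δ)) / (π ^ 2 * n ^ 2 * δ)

lemma tent_eq_B2 {δ : ℝ} (h0 : 0 < δ) (h1 : δ ≤ 1 / 2) (x : ℝ) :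
    tent δ x = δ - (B2 (x + δ) + B2 (x - δ) - 2 * B2 x) / (2 * δ) := by
  have hy0 := Int.fract_nonneg x
  have hy1 := Int.fract_lt_one x
  set y := Int.fract x with hy
  have hx : x = y + ⌊x⌋ := (Int.fract_add_floor x).symm
  have e1 : Int.fract (x + δ) = if y + δ < 1 then y + δ else y + δ - 1 := by
    split_ifs with h
    · rw [Int.fract_eq_iff]
      refine ⟨by linarith, h, ⌊x⌋, ?_⟩
      linarith
    · rw [Int.fract_eq_iff]
      refine ⟨by linarith, by linarith, ⌊x⌋ + 1, ?_⟩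
      push_cast; linarith
  have e2 : Int.fract (x - δ) = if δ ≤ y then y - δ else y - δ + 1 := by
    split_ifs with h
    · rw [Int.fract_eq_iff]
      refine ⟨by linarith, by linarith, ⌊x⌋, ?_⟩
      linarith
    · rw [Int.fract_eq_iff]
      refine ⟨by linarith, by linarith, ⌊x⌋ - 1, ?_⟩
      push_cast; linarith
  rw [tent, nint_eq_min, B2, B2, B2, e1, e2, ← hy]
  split_ifs with h2 h3 h3
  · -- middle
    have hm : δ ≤ min y (1 - y) := le_min h3 (by linarith)
    have : 1 - min y (1 - y) / δ ≤ 0 := by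
      have := (one_le_div h0).mpr hm
      linarith
    rw [max_eq_left this]
    field_simp
    ring
  · -- y < δ
    push Not at h3
    have hm : min y (1 - y) = y := min_eq_left (by linarith)
    rw [hm]
    have : 0 ≤ 1 - y / δ := by
      have := (div_lt_one h0).mpr h3
      linarith
    rw [max_eq_right this]
    field_simp
    ring
  · push Not at h2
    have hm : min y (1 - y) = 1 - y := min_eq_right (by linarith)
    rw [hm]
    have : 0 ≤ 1 - (1 - y) / δ := by
      have : (1 - y) / δ ≤ 1 := (div_le_one h0).mpr (by linarith)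
      linarith
    rw [max_eq_right this]
    field_simp
    ring
  · exfalso
    push Not at h2 h3
    linarith

lemma hasSum_tent {δ : ℝ} (h0 : 0 < δ) (h1 : δ ≤ 1 / 2) (x : ℝ) :
    HasSum (fun n : ℕ => co δ n * Real.cos (2 * π * n * x)) (tent δ x - δ) := by
  have h := ((hasSum_cos (x + δ)).add (hasSum_cos (x - δ))).sub ((hasSum_cos x).mul_left 2)
  have h' := h.mul_left (-1 / (2 * δ * π ^ 2))
  have e1 : (fun n : ℕ => co δ n * Real.cos (2 * π * n * x)) = fun n : ℕ =>
      -1 / (2 * δ * π ^ 2) * (1 / (n : ℝ) ^ 2 * Real.cos (2 * π * n * (x + δ)) +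
        1 / (n : ℝ) ^ 2 * Real.cos (2 * π * n * (x - δ)) -
        2 * (1 / (n : ℝ) ^ 2 * Real.cos (2 * π * n * x))) := by
    funext n
    rw [co]
    rcases Nat.eq_zero_or_pos n with rfl | hn
    · simp
    have hn' : (n : ℝ) ≠ 0 := by positivity
    have e : Real.cos (2 * π * n * (x + δ)) + Real.cos (2 * π * n * (x - δ))
        = 2 * Real.cos (2 * π * n * x) * Real.cos (2 * π * n * δ) := by
      rw [mul_add, mul_sub, Real.cos_add, Real.cos_sub]; ring
    have hpi : π ≠ 0 := Real.pi_ne_zero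
    have : 1 / (n : ℝ) ^ 2 * Real.cos (2 * π * n * (x + δ)) +
        1 / (n : ℝ) ^ 2 * Real.cos (2 * π * n * (x - δ)) -
        2 * (1 / (n : ℝ) ^ 2 * Real.cos (2 * π * n * x))
        = 1 / (n : ℝ) ^ 2 * (2 * Real.cos (2 * π * n * x) * (Real.cos (2 * π * n * δ) - 1)) := by
      rw [← mul_add, e]; ring
    rw [this]
    field_simp
    ring
  have e2 : tent δ x - δ = -1 / (2 * δ * π ^ 2) *
      (π ^ 2 * B2 (x + δ) + π ^ 2 * B2 (x - δ) - 2 * (π ^ 2 * B2 x)) := by
    rw [tent_eq_B2 h0 h1]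
    have hpi : π ≠ 0 := Real.pi_ne_zero
    field_simp
    ring
  rw [e1, e2]
  exact h'

lemma tent_zero {δ : ℝ} : tent δ 0 = 1 := by simp [tent, nint]

lemma tent_nonneg (δ x : ℝ) : 0 ≤ tent δ x := le_max_left _ _

lemma tent_le_one {δ : ℝ} (h0 : 0 < δ) (x : ℝ) : tent δ x ≤ 1 := by
  rw [tent]
  refine max_le zero_le_one ?_
  have := div_nonneg (nint_nonneg x) h0.le
  linarith

lemma lt_of_tent_pos {δ x : ℝ} (h0 : 0 < δ) (h : 0 < tent δ x) : nint x < δ := by
  rw [tent, lt_max_iff] at h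
  rcases h with h | h
  · exact absurd h (lt_irrefl _)
  · have : nint x / δ < 1 := by linarith
    exact (div_lt_one h0).mp this

lemma co_nonneg {δ : ℝ} (h0 : 0 < δ) (n : ℕ) : 0 ≤ co δ n := by
  rw [co]
  apply div_nonneg
  · linarith [Real.cos_le_one (2 * π * n * δ)]
  · positivity

lemma hasSum_co {δ : ℝ} (h0 : 0 < δ) (h1 : δ ≤ 1 / 2) : HasSum (co δ) (1 - δ) := by
  have := hasSum_tent h0 h1 0
  simpa [tent_zero] using this

lemma sum_co_le {δ : ℝ} (h0 : 0 < δ) (h1 : δ ≤ 1 / 2) (s : Finset ℕ) : ∑ n ∈ s, co δ n ≤ 1 := by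
  have := sum_le_hasSum s (fun n _ => co_nonneg h0 n) (hasSum_co h0 h1)
  linarith

end Pool.Agent.KS6_2
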