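import Pool.Agent.KS6_2.Cross

open Real Finset MeasureTheory Filter

namespace Pool.Agent.KS6_2

variable {ι : Type*}

/-- divergence from a second moment bound -/
lemma ae_unbounded (μ : Measure ℝ) [IsProbabilityMeasure μ] (s : ℕ → Finset ι)
    (f : ι → ℝ → ℝ) (δ : ι → ℝ) (hf : ∀ i, Measurable (f i))
    (hf1 : ∀ K, ∀ i ∈ s K, ∀ x, |f i x - δ i| ≤ 1) (C : ℝ)
    (hC : ∀ K, ∫ x, (∑ i ∈ s K, (f i x - δ i)) ^ 2 ∂μ ≤ 2 * ∑ i ∈ s K, δ i + C)
    (hD : ∀ B : ℝ, ∃ K, B ≤ ∑ i ∈ s K, δ i) :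
    ∀ᵐ x ∂μ, ∀ M : ℕ, ∃ K, (M : ℝ) < ∑ i ∈ s K, f i x := by
  rw [ae_all_iff]
  intro M
  rw [ae_iff]
  have hC0 : ∀ K, 0 ≤ 2 * ∑ i ∈ s K, δ i + C := fun K =>
    (integral_nonneg fun x => sq_nonneg _).trans (hC K)
  -- the measure is smaller than every positive number
  by_contra hne
  set B := {x : ℝ | ¬ ∃ K, (M : ℝ) < ∑ i ∈ s K, f i x} with hB
  have hpos : 0 < μ.real B := by
    rw [Measure.real, ENNReal.toReal_pos_iff]
    exact ⟨pos_iff_ne_zero.mpr hne, measure_lt_top μ B⟩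
  set m := μ.real B with hm
  obtain ⟨K, hK⟩ := hD (max (max (2 * M) 1) (max (|C|) (13 / m)))
  set D := ∑ i ∈ s K, δ i with hDdef
  have hD1 : 2 * (M : ℝ) ≤ D := le_trans (le_max_left _ _ |>.trans (le_max_left _ _)) hK
  have hD2 : 1 ≤ D := le_trans (le_max_right _ _ |>.trans (le_max_left _ _)) hK
  have hD3 : |C| ≤ D := le_trans (le_max_left _ _ |>.trans (le_max_right _ _)) hK
  have hD4 : 13 / m ≤ D := le_trans (le_max_right _ _ |>.trans (le_max_right _ _)) hK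
  set S : ℝ → ℝ := fun x => ∑ i ∈ s K, (f i x - δ i) with hS
  have hSm : Measurable S := by
    apply Finset.measurable_sum
    intro i _
    exact (hf i).sub_const _
  have hSb : ∀ x, |S x| ≤ (s K).card := by
    intro x
    refine (abs_sum_le_sum_abs _ _).trans ((sum_le_sum fun i hi => hf1 K i hi x).trans ?_)
    simp
  have hSint : Integrable (fun x => S x ^ 2) μ := by
    refine integrable_of_abs_le_one μ (B := ((s K).card : ℝ) ^ 2) (hSm.pow_const 2) (fun x => ?_)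
    rw [abs_pow]
    gcongr
    exact hSb x
  have hsub : B ⊆ {x | (D / 2) ^ 2 ≤ S x ^ 2} := by
    intro x hx
    simp only [hB, Set.mem_ofPred_eq, not_exists, not_lt] at hx
    have h1 := hx K
    have h2 : S x = ∑ i ∈ s K, f i x - D := by rw [hS, hDdef]; simp only [sum_sub_distrib]
    simp only [Set.mem_ofPred_eq]
    have h3 : S x ≤ -(D / 2) := by rw [h2]; linarith
    nlinarith
  have hmk := mul_meas_ge_le_integral_of_nonneg (μ := μ) (f := fun x => S x ^ 2)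
    (by filter_upwards with x using sq_nonneg _) hSint ((D / 2) ^ 2)
  have h5 : m ≤ μ.real {x | (D / 2) ^ 2 ≤ S x ^ 2} := measureReal_mono hsub
  have h6 : (D / 2) ^ 2 * m ≤ 2 * D + C :=
    (mul_le_mul_of_nonneg_left h5 (by positivity)).trans (hmk.trans (hC K))
  have h7 : C ≤ D := (le_abs_self C).trans hD3
  have h8 : 13 ≤ D * m := by rwa [div_le_iff₀ hpos] at hD4
  nlinarith

lemma second_moment [DecidableEq ι] (μ : Measure ℝ) [IsProbabilityMeasure μ] (s : Finset ι)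
    (g : ι → ℝ → ℝ) (hg : ∀ i, Measurable (g i)) (hg1 : ∀ i ∈ s, ∀ x, |g i x| ≤ 1)
    (V : ι → ℝ) (E : ι → ι → ℝ) (hV : ∀ i ∈ s, ∫ x, g i x ^ 2 ∂μ ≤ V i)
    (hE : ∀ i ∈ s, ∀ j ∈ s, i ≠ j → ∫ x, g i x * g j x ∂μ ≤ E i j)
    (hE0 : ∀ i j, 0 ≤ E i j) :
    ∫ x, (∑ i ∈ s, g i x) ^ 2 ∂μ ≤ ∑ i ∈ s, V i + ∑ i ∈ s, ∑ j ∈ s, E i j := by
  have hint : ∀ i ∈ s, ∀ j ∈ s, Integrable (fun x => g i x * g j x) μ := by
    intro i hi j hj
    refine integrable_of_abs_le_one μ (B := 1 * 1) ((hg i).mul (hg j)) (fun x => ?_)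
    rw [abs_mul]
    exact mul_le_mul (hg1 i hi x) (hg1 j hj x) (abs_nonneg _) zero_le_one
  have e1 : ∀ x : ℝ, (∑ i ∈ s, g i x) ^ 2 = ∑ i ∈ s, ∑ j ∈ s, g i x * g j x := by
    intro x; rw [sq, sum_mul_sum]
  simp_rw [e1]
  rw [integral_finsetSum _ (fun i hi => integrable_finsetSum _ (fun j hj => hint i hi j hj))]
  rw [← sum_add_distrib]
  refine sum_le_sum fun i hi => ?_
  rw [integral_finsetSum _ (fun j hj => hint i hi j hj)]
  rw [← add_sum_erase s _ hi]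
  refine add_le_add ?_ ?_
  · have := hV i hi
    simpa [sq] using this
  · calc ∑ j ∈ s.erase i, ∫ x, g i x * g j x ∂μ ≤ ∑ j ∈ s.erase i, E i j := by
          refine sum_le_sum fun j hj => ?_
          rw [mem_erase] at hj
          exact hE i hi j hj.2 (Ne.symm hj.1)
      _ ≤ ∑ j ∈ s, E i j := sum_le_sum_of_subset_of_nonneg (erase_subset _ _) (fun j _ _ => hE0 i j)

end Pool.Agent.KS6_2
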