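import Pool.Agent.KS6_2.Shell
import Pool.Agent.KS6_2.Second

open Real Finset MeasureTheory Filter

namespace Pool.Agent.KS6_2

/-- the data of the construction -/
structure Dat where
  c : ℝ
  α : ℝ
  S : ℕ
  R : ℕ
  I : ℕ → ℕ
  k0 : ℕ
  D : ℝ
  Ψ : ℕ → ℝ
  A : Set ℕ
  ρ : ℕ → ℝ
  z : ℕ → ℝ
  hc : 0 < c
  hbad : Bad c α
  hS : 2 ≤ S
  hRS : R = S ^ 32
  hR : 16 / c + 2 ≤ R
  hI : Monotone I
  hI' : ∀ k, k0 ≤ k → (4 : ℝ) ^ I k ≤ (S : ℝ) ^ k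
  hk0 : ∀ k, k0 ≤ k → 2 ≤ c * (S : ℝ) ^ k
  hk1 : 1 ≤ k0
  hD : 1 ≤ D
  hA : ∀ k ∈ A, k0 ≤ k
  hΨ0 : ∀ k ∈ A, 0 < Ψ k
  hΨ1 : ∀ k ∈ A, Ψ k ≤ c / (2 * (R : ℝ) ^ (k + 1))
  hΨ2 : ∀ k ∈ A, 1 / (D * (k + 1) ^ 3 * (R : ℝ) ^ k) ≤ Ψ k
  hρ : ∀ k, 0 ≤ ρ k

namespace Dat

variable (d : Dat)

noncomputable def F (k : ℕ) : Finset ℕ := Fam d.α (d.R ^ k) (d.R * d.R ^ k) ((4 : ℝ) ^ d.I k / (d.R ^ k : ℕ))

noncomputable def δ (k q : ℕ) : ℝ := d.Ψ k / nint (q * d.α)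

noncomputable def E (k : ℕ) : ℝ := d.ρ k + 2 * (d.D * (k + 1) ^ 3 / (d.S : ℝ) ^ (3 * k))

lemma E_nonneg (k : ℕ) : 0 ≤ d.E k := by
  have h1 := d.hρ k
  have h2 := d.hD
  have h3 : (0 : ℝ) < d.S := by have := d.hS; positivity
  unfold E
  positivity

lemma hS' : (2 : ℝ) ≤ d.S := by exact_mod_cast d.hS

lemma hc1 : d.c ≤ 1 / 2 := by
  have := d.hbad 1 le_rfl
  have h2 := nint_le_half ((1 : ℕ) * d.α)
  push_cast at this h2
  linarith

lemma R_pos : 0 < d.R := by rw [d.hRS]; have := d.hS; positivity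

lemma Rk (k : ℕ) : ((d.R ^ k : ℕ) : ℝ) = (d.S : ℝ) ^ (32 * k) := by
  rw [d.hRS]; push_cast; rw [← pow_mul]

lemma mem_F {k q : ℕ} : q ∈ d.F k ↔ (d.R ^ k ≤ q ∧ q < d.R * d.R ^ k) ∧
    Ap d.α ((4 : ℝ) ^ d.I k / (d.R ^ k : ℕ)) q := mem_Fam

lemma nint_pos {k q : ℕ} (hq : q ∈ d.F k) : 0 < nint (q * d.α) := by
  have h1 := (d.mem_F.mp hq).1.1
  have h0 : 0 < d.R ^ k := by have := d.R_pos; positivity
  have h2 := nint_pos_of_bad d.hbad (q := q) (by omega)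
  have : (0 : ℝ) < q := by exact_mod_cast (by omega : 0 < q)
  have := d.hc
  exact lt_of_lt_of_le (by positivity) h2

lemma δ_pos {k q : ℕ} (hk : k ∈ d.A) (hq : q ∈ d.F k) : 0 < d.δ k q :=
  div_pos (d.hΨ0 k hk) (d.nint_pos hq)

lemma δ_le {k q : ℕ} (hk : k ∈ d.A) (hq : q ∈ d.F k) : d.δ k q ≤ 1 / 2 := by
  have hx := d.nint_pos hq
  rw [δ, div_le_iff₀ hx]
  have h1 := (d.mem_F.mp hq).1
  have h0 : 0 < d.R ^ k := by have := d.R_pos; positivity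
  have hq0 : (0 : ℝ) < q := by exact_mod_cast (by omega : 0 < q)
  have h2 := nint_pos_of_bad d.hbad (q := q) (by omega)
  have h3 : (q : ℝ) ≤ (d.R : ℝ) ^ (k + 1) := by
    have : q ≤ d.R ^ (k + 1) := by rw [pow_succ, mul_comm]; exact h1.2.le
    exact_mod_cast this
  have hc := d.hc
  calc d.Ψ k ≤ d.c / (2 * (d.R : ℝ) ^ (k + 1)) := d.hΨ1 k hk
    _ ≤ d.c / (2 * q) := by gcongr
    _ = 1 / 2 * (d.c / q) := by field_simp
    _ ≤ 1 / 2 * nint (q * d.α) := by gcongr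

lemma δ_ge {k q : ℕ} (hk : k ∈ d.A) (hq : q ∈ d.F k) :
    1 / (d.D * (k + 1) ^ 3 * (d.S : ℝ) ^ k) ≤ d.δ k q := by
  have hx := d.nint_pos hq
  have hx2 := nint_le_of_Ap (d.mem_F.mp hq).2
  have hI := d.hI' k (d.hA k hk)
  have hRk : (0 : ℝ) < (d.R ^ k : ℕ) := by have := d.R_pos; positivity
  have hD := d.hD
  have hSk : (0 : ℝ) < (d.S : ℝ) ^ k := by have := d.hS'; positivity
  have h2 := d.hΨ2 k hk
  rw [δ, le_div_iff₀ hx]
  calc 1 / (d.D * (k + 1) ^ 3 * (d.S : ℝ) ^ k) * nint (q * d.α)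
      ≤ 1 / (d.D * (k + 1) ^ 3 * (d.S : ℝ) ^ k) * ((d.S : ℝ) ^ k / (d.R ^ k : ℕ)) := by
        gcongr
        exact hx2.trans (by gcongr)
    _ = 1 / (d.D * (k + 1) ^ 3 * (d.R : ℝ) ^ k) := by
        push_cast
        field_simp
    _ ≤ d.Ψ k := h2

/-- the frequencies are large -/
lemma freq {k k' q q' n n' : ℕ} (hk : k ∈ d.A) (hk' : k' ∈ d.A) (hkk : k ≤ k')
    (hq : q ∈ d.F k) (hq' : q' ∈ d.F k') (hne : q ≠ q') (hn : 1 ≤ n) (hn1 : n ≤ d.S ^ (4 * k'))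
    (hn' : 1 ≤ n') (hn1' : n' ≤ d.S ^ (4 * k')) :
    d.S ^ (10 * k') ≤ ((n : ℤ) * q - n' * q').natAbs := by
  have hS' := d.hS'
  have hS0 : (0 : ℝ) < d.S := by linarith
  have hS1 : (1 : ℝ) ≤ d.S := by linarith
  have hnR : (n : ℝ) ≤ (d.S : ℝ) ^ (4 * k') := by exact_mod_cast hn1
  have hnR' : (n' : ℝ) ≤ (d.S : ℝ) ^ (4 * k') := by exact_mod_cast hn1'
  rcases Nat.lt_or_ge (2 * k) k' with h | h
  · -- far levels
    have h1 := (d.mem_F.mp hq).1.2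
    have h2 := (d.mem_F.mp hq').1.1
    have hSn := d.hS
    have e1 : n * q ≤ d.S ^ (4 * k') * (d.R * d.R ^ k) := Nat.mul_le_mul hn1 h1.le
    have e2 : d.S ^ (4 * k') * (d.R * d.R ^ k) ≤ d.S ^ (31 * k') := by
      rw [d.hRS, ← pow_mul, ← pow_add, ← pow_add]
      apply Nat.pow_le_pow_right (by omega)
      have := d.hA k hk; have := d.hk1
      omega
    have e3 : d.S ^ (32 * k') ≤ n' * q' := by
      have : d.R ^ k' = d.S ^ (32 * k') := by rw [d.hRS, ← pow_mul]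
      rw [this] at h2
      calc d.S ^ (32 * k') ≤ q' := h2
        _ ≤ n' * q' := Nat.le_mul_of_pos_left _ (by omega)
    have e4 : d.S ^ (31 * k') + d.S ^ (10 * k') ≤ d.S ^ (32 * k') := by
      have a1 : d.S ^ (10 * k') ≤ d.S ^ (31 * k') := Nat.pow_le_pow_right (by omega) (by omega)
      have a2 : d.S ^ (32 * k') = d.S ^ (31 * k') * d.S ^ k' := by rw [← pow_add]; congr 1; ring
      have a3 : 2 ≤ d.S ^ k' := by
        calc 2 ≤ d.S := hSn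
          _ = d.S ^ 1 := (pow_one _).symm
          _ ≤ d.S ^ k' := Nat.pow_le_pow_right (by omega) (by omega)
      rw [a2]
      calc _ ≤ d.S ^ (31 * k') * 2 := by omega
        _ ≤ _ := Nat.mul_le_mul_left _ a3
    have e5 : n * q + d.S ^ (10 * k') ≤ n' * q' := by omega
    have e6 : ((n * q + d.S ^ (10 * k') : ℕ) : ℤ) ≤ ((n' * q' : ℕ) : ℤ) := by exact_mod_cast e5
    push_cast at e6
    zify
    rw [abs_of_nonpos (by have : (0 : ℤ) ≤ (d.S : ℤ) ^ (10 * k') := by positivity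
                          linarith)]
    linarith
  · -- near levels
    have hε : (4 : ℝ) ^ d.I k / (d.R ^ k : ℕ) ≤ 1 / (d.S : ℝ) ^ (31 * k) := by
      rw [d.Rk, div_le_div_iff₀ (by positivity) (by positivity), one_mul]
      calc (4 : ℝ) ^ d.I k * (d.S : ℝ) ^ (31 * k) ≤ (d.S : ℝ) ^ k * (d.S : ℝ) ^ (31 * k) := by
            gcongr; exact d.hI' k (d.hA k hk)
        _ = _ := by rw [← pow_add]; congr 1; ring
    have hε' : (4 : ℝ) ^ d.I k' / (d.R ^ k' : ℕ) ≤ 1 / (d.S : ℝ) ^ (31 * k) := by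
      rw [d.Rk, div_le_div_iff₀ (by positivity) (by positivity), one_mul]
      calc (4 : ℝ) ^ d.I k' * (d.S : ℝ) ^ (31 * k) ≤ (d.S : ℝ) ^ k' * (d.S : ℝ) ^ (31 * k') := by
            gcongr
            · exact d.hI' k' (d.hA k' hk')
        _ = _ := by rw [← pow_add]; congr 1; ring
    have hsum : (n : ℝ) * ((4 : ℝ) ^ d.I k / (d.R ^ k : ℕ)) + n' * ((4 : ℝ) ^ d.I k' / (d.R ^ k' : ℕ))
        ≤ 2 / (d.S : ℝ) ^ (11 * k') := by
      calc _ ≤ (d.S : ℝ) ^ (4 * k') * (1 / (d.S : ℝ) ^ (31 * k)) +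
            (d.S : ℝ) ^ (4 * k') * (1 / (d.S : ℝ) ^ (31 * k)) := by gcongr
        _ = 2 * ((d.S : ℝ) ^ (4 * k') / (d.S : ℝ) ^ (31 * k)) := by ring
        _ ≤ 2 * (1 / (d.S : ℝ) ^ (11 * k')) := by
            apply mul_le_mul_of_nonneg_left _ (by norm_num)
            rw [div_le_div_iff₀ (by positivity) (by positivity), one_mul, ← pow_add]
            exact pow_le_pow_right₀ hS1 (by omega)
        _ = _ := by ring
    have hk0 := d.hk0 k' (d.hA k' hk')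
    have hc := d.hc
    have hc1 := d.hc1
    have hS11 : (d.S : ℝ) ^ (11 * k') = (d.S : ℝ) ^ (10 * k') * (d.S : ℝ) ^ k' := by
      rw [← pow_add]; congr 1; ring
    have hlt : (n : ℝ) * ((4 : ℝ) ^ d.I k / (d.R ^ k : ℕ)) + n' * ((4 : ℝ) ^ d.I k' / (d.R ^ k' : ℕ)) < 1 := by
      refine lt_of_le_of_lt hsum ?_
      rw [div_lt_one (by positivity)]
      have : (1 : ℝ) ≤ (d.S : ℝ) ^ (10 * k') := one_le_pow₀ hS1
      have h4 : (4 : ℝ) ≤ (d.S : ℝ) ^ k' := by nlinarith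
      rw [hS11]
      nlinarith
    have hmain := freq_large d.hbad (d.mem_F.mp hq).2 (d.mem_F.mp hq').2 hne hn hn' hlt
    set m := ((n : ℤ) * q - n' * q').natAbs with hm
    have h5 : d.c ≤ m * (2 / (d.S : ℝ) ^ (11 * k')) :=
      hmain.trans (mul_le_mul_of_nonneg_left hsum (Nat.cast_nonneg _))
    have h6 : d.c * (d.S : ℝ) ^ (11 * k') ≤ m * 2 := by
      have := mul_le_mul_of_nonneg_right h5 (by positivity : 0 ≤ (d.S : ℝ) ^ (11 * k'))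
      have e : (m : ℝ) * (2 / (d.S : ℝ) ^ (11 * k')) * (d.S : ℝ) ^ (11 * k') = m * 2 := by
        field_simp
      linarith
    rw [hS11] at h6
    have h7 : (d.S : ℝ) ^ (10 * k') ≤ m := by
      have : (0 : ℝ) < (d.S : ℝ) ^ (10 * k') := by positivity
      nlinarith
    exact_mod_cast h7

/-- the functions -/
noncomputable def g (k q : ℕ) (x : ℝ) : ℝ := tent (d.δ k q) (q * x - d.z q) - d.δ k q

lemma measurable_g (k q : ℕ) : Measurable (d.g k q) :=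
  ((measurable_tent _).comp (by fun_prop)).sub_const _

lemma abs_g_le {k q : ℕ} (hk : k ∈ d.A) (hq : q ∈ d.F k) (x : ℝ) : |d.g k q x| ≤ 1 :=
  abs_tent_sub_le (d.δ_pos hk hq) (d.δ_le hk hq) _

/-- the hypothesis on the measure -/
def Dec (μ : Measure ℝ) : Prop := ∀ k, d.k0 ≤ k → ∀ m : ℕ, d.S ^ (10 * k) ≤ m →
  ‖∫ x, Complex.exp (2 * π * Complex.I * (m : ℂ) * x) ∂μ‖ ≤ d.ρ k

lemma tail_le {k k' q : ℕ} (hk : k ∈ d.A) (hkk : k ≤ k') (hq : q ∈ d.F k) :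
    1 / (d.δ k q * ((d.S ^ (4 * k') : ℕ) : ℝ)) ≤ d.D * (k' + 1) ^ 3 / (d.S : ℝ) ^ (3 * k') := by
  have hS' := d.hS'
  have hS0 : (0 : ℝ) < d.S := by linarith
  have hS1 : (1 : ℝ) ≤ d.S := by linarith
  have h1 := d.δ_ge hk hq
  have hD := d.hD
  have hkk' : (k : ℝ) ≤ k' := by exact_mod_cast hkk
  have h2 : 1 / (d.D * (k' + 1) ^ 3 * (d.S : ℝ) ^ k') ≤ d.δ k q := by
    refine le_trans ?_ h1
    gcongr
  have hSn : 0 < d.S := by have := d.hS; omega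
  calc 1 / (d.δ k q * ((d.S ^ (4 * k') : ℕ) : ℝ))
      ≤ 1 / (1 / (d.D * (k' + 1) ^ 3 * (d.S : ℝ) ^ k') * ((d.S ^ (4 * k') : ℕ) : ℝ)) := by
        apply one_div_le_one_div_of_le (by positivity)
        gcongr
    _ = d.D * (k' + 1) ^ 3 / (d.S : ℝ) ^ (3 * k') := by
        push_cast
        have : (d.S : ℝ) ^ (4 * k') = (d.S : ℝ) ^ (3 * k') * (d.S : ℝ) ^ k' := by
          rw [← pow_add]; congr 1; ring
        rw [this]
        field_simp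

lemma cross {μ : Measure ℝ} [IsProbabilityMeasure μ] (hμ : d.Dec μ) {k k' q q' : ℕ}
    (hk : k ∈ d.A) (hk' : k' ∈ d.A) (hkk : k ≤ k')
    (hq : q ∈ d.F k) (hq' : q' ∈ d.F k') (hne : q ≠ q') :
    |∫ x, d.g k q x * d.g k' q' x ∂μ| ≤ d.E k' := by
  have h := tent_cross μ (L := d.S ^ (10 * k')) (ρ := d.ρ k') (hμ k' (d.hA k' hk'))
    (d.δ_pos hk hq) (d.δ_le hk hq) (d.δ_pos hk' hq') (d.δ_le hk' hq') (H := d.S ^ (4 * k'))
    (q := q) (q' := q') (Nat.one_le_pow _ _ (by have := d.hS; omega)) (d.z q) (d.z q')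
    (fun n n' h1 h2 h3 h4 => d.freq hk hk' hkk hq hq' hne h1 h2 h3 h4) (d.hρ k')
  refine h.trans ?_
  have h1 := d.tail_le hk hkk hq
  have h2 := d.tail_le hk' le_rfl hq'
  unfold E
  linarith

lemma cross' {μ : Measure ℝ} [IsProbabilityMeasure μ] (hμ : d.Dec μ) {k k' q q' : ℕ}
    (hk : k ∈ d.A) (hk' : k' ∈ d.A)
    (hq : q ∈ d.F k) (hq' : q' ∈ d.F k') (hne : q ≠ q') :
    |∫ x, d.g k q x * d.g k' q' x ∂μ| ≤ d.E (max k k') := by
  rcases le_total k k' with h | h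
  · rw [max_eq_right h]; exact d.cross hμ hk hk' h hq hq' hne
  · rw [max_eq_left h]
    have := d.cross hμ hk' hk h hq' hq (Ne.symm hne)
    simp_rw [mul_comm (d.g k q _)]
    exact this

lemma var_le {μ : Measure ℝ} [IsProbabilityMeasure μ] (hμ : d.Dec μ) {k q : ℕ}
    (hk : k ∈ d.A) (hq : q ∈ d.F k) : ∫ x, d.g k q x ^ 2 ∂μ ≤ 2 * d.δ k q + d.E k := by
  have h0 := d.δ_pos hk hq
  have h1 := d.δ_le hk hq
  have hqk : d.S ^ (10 * k) ≤ q := by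
    have h2 := (d.mem_F.mp hq).1.1
    rw [d.hRS, ← pow_mul] at h2
    refine le_trans (Nat.pow_le_pow_right (by have := d.hS; omega) (by omega)) h2
  have h := tent_mean μ (L := d.S ^ (10 * k)) (ρ := d.ρ k) (hμ k (d.hA k hk)) h0 h1
    (H := d.S ^ (4 * k)) (q := q) (Nat.one_le_pow _ _ (by have := d.hS; omega)) hqk (d.z q) (d.hρ k)
  have h2 := d.tail_le hk le_rfl hq
  have hint : Integrable (d.g k q) μ :=
    integrable_of_abs_le_one μ (d.measurable_g k q) (d.abs_g_le hk hq)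
  have hint2 : Integrable (fun x => d.g k q x ^ 2) μ := by
    refine integrable_of_abs_le_one μ (B := 1) ((d.measurable_g k q).pow_const 2) (fun x => ?_)
    rw [abs_pow]
    exact pow_le_one₀ (abs_nonneg _) (d.abs_g_le hk hq x)
  have h3 : ∫ x, d.g k q x ^ 2 ∂μ ≤ ∫ x, (d.g k q x + (d.δ k q + d.δ k q ^ 2)) ∂μ := by
    apply integral_mono hint2 (hint.add (integrable_const _))
    intro x
    change (tent (d.δ k q) (q * x - d.z q) - d.δ k q) ^ 2 ≤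
      tent (d.δ k q) (q * x - d.z q) - d.δ k q + (d.δ k q + d.δ k q ^ 2)
    have a0 := tent_nonneg (d.δ k q) (q * x - d.z q)
    have a1 := tent_le_one h0 (q * x - d.z q)
    nlinarith
  have h4 : ∫ x, (d.g k q x + (d.δ k q + d.δ k q ^ 2)) ∂μ = ∫ x, d.g k q x ∂μ + (d.δ k q + d.δ k q ^ 2) := by
    rw [integral_add hint (integrable_const _)]
    simp
  have h5 : |∫ x, d.g k q x ∂μ| ≤ d.ρ k + 1 / (d.δ k q * ((d.S ^ (4 * k) : ℕ) : ℝ)) := h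
  have h6 : 0 ≤ d.D * (k + 1) ^ 3 / (d.S : ℝ) ^ (3 * k) := by
    have := d.hD
    have : (0 : ℝ) < d.S := by have := d.hS'; linarith
    positivity
  rw [h4] at h3
  have h7 := le_abs_self (∫ x, d.g k q x ∂μ)
  unfold E
  nlinarith

/-- constant in the cardinality bound -/
noncomputable def CF : ℝ := 2 * d.R / d.c + 1

lemma CF_pos : 1 ≤ d.CF := by
  have := d.hc
  have : 0 ≤ 2 * (d.R : ℝ) / d.c := by positivity
  unfold CF
  linarith

lemma card_F (k : ℕ) : ((d.F k).card : ℝ) ≤ d.CF * 4 ^ d.I k := by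
  have hRk : (0 : ℝ) < (d.R ^ k : ℕ) := by have := d.R_pos; positivity
  have h := card_Fam_le (X := d.R ^ k) (Y := d.R * d.R ^ k) d.hc d.hbad
    (ε := (4 : ℝ) ^ d.I k / (d.R ^ k : ℕ)) (by positivity)
  have hc := d.hc
  have h4 : (1 : ℝ) ≤ 4 ^ d.I k := one_le_pow₀ (by norm_num)
  refine h.trans ?_
  unfold CF
  have e : ((d.R * d.R ^ k : ℕ) : ℝ) * (2 * ((4 : ℝ) ^ d.I k / (d.R ^ k : ℕ))) / d.c
      = 2 * d.R / d.c * 4 ^ d.I k := by
    push_cast at hRk ⊢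
    field_simp
  rw [e]
  linarith

end Dat

end Pool.Agent.KS6_2
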