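import Pool.Agent.KS6_2.Cross

open Real Finset MeasureTheory Filter

namespace Pool.Agent.KS6_2

lemma co_le_lin {δ : ℝ} (h0 : 0 < δ) {n : ℕ} (hn : 1 ≤ n) : co δ n ≤ 2 * δ := by
  have hn' : (1 : ℝ) ≤ n := by exact_mod_cast hn
  have hpi := Real.pi_pos
  have h1 : 1 - Real.cos (2 * π * n * δ) ≤ (2 * π * n * δ) ^ 2 / 2 := by
    have := Real.one_sub_sq_div_two_le_cos (x := 2 * π * n * δ)
    linarith
  rw [co, div_le_iff₀ (by positivity)]
  refine h1.trans (le_of_eq ?_)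
  ring

lemma co_le_sq {δ : ℝ} (h0 : 0 < δ) {n : ℕ} (hn : 1 ≤ n) : co δ n ≤ 1 / ((n : ℝ) ^ 2 * δ) := by
  have hn' : (1 : ℝ) ≤ n := by exact_mod_cast hn
  have hpi : (3 : ℝ) < π := Real.pi_gt_three
  have h1 : 1 - Real.cos (2 * π * n * δ) ≤ 2 := by
    linarith [Real.neg_one_le_cos (2 * π * n * δ)]
  rw [co, div_le_div_iff₀ (by positivity) (by positivity)]
  have h3 : (2 : ℝ) ≤ π ^ 2 := by nlinarith
  have h4 : 0 ≤ (n : ℝ) ^ 2 * δ := by positivity
  nlinarith

lemma co_interp {δ : ℝ} (h0 : 0 < δ) {n : ℕ} (hn : 1 ≤ n) {s : ℝ} (hs0 : 0 ≤ s) (hs1 : s ≤ 1) :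
    co δ n ≤ 2 * δ ^ s * (n : ℝ) ^ (-(1 - s)) := by
  have hn' : (0 : ℝ) < n := by exact_mod_cast hn
  have h1 := co_le_lin h0 hn
  have h2 := co_le_sq h0 hn
  have hc0 := co_nonneg h0 n
  set θ : ℝ := (1 + s) / 2 with hθ
  have hθ0 : 0 ≤ θ := by rw [hθ]; linarith
  have hθ1 : 0 ≤ 1 - θ := by rw [hθ]; linarith
  rcases eq_or_lt_of_le hc0 with h | h
  · rw [← h]; positivity
  have e : co δ n = (co δ n) ^ θ * (co δ n) ^ (1 - θ) := by
    rw [← Real.rpow_add h]; simp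
  rw [e]
  calc (co δ n) ^ θ * (co δ n) ^ (1 - θ) ≤ (2 * δ) ^ θ * (1 / ((n : ℝ) ^ 2 * δ)) ^ (1 - θ) := by gcongr
    _ = 2 ^ θ * (δ ^ θ * δ ^ (-(1 - θ))) * ((n : ℝ) ^ (2 : ℝ)) ^ (-(1 - θ)) := by
        rw [Real.mul_rpow (by norm_num) h0.le, one_div, Real.inv_rpow (by positivity),
          Real.mul_rpow (by positivity) h0.le, mul_inv, ← Real.rpow_neg (by positivity),
          ← Real.rpow_neg h0.le, Real.rpow_two]
        ring
    _ = 2 ^ θ * δ ^ s * (n : ℝ) ^ (-(1 - s)) := by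
        rw [← Real.rpow_add h0, ← Real.rpow_mul hn'.le]
        congr 2
        · congr 1; rw [hθ]; ring
        · rw [hθ]; ring
    _ ≤ 2 * δ ^ s * (n : ℝ) ^ (-(1 - s)) := by
        have : (2 : ℝ) ^ θ ≤ 2 := by
          calc (2 : ℝ) ^ θ ≤ 2 ^ (1 : ℝ) := Real.rpow_le_rpow_of_exponent_le (by norm_num) (by rw [hθ]; linarith)
            _ = 2 := by norm_num
        gcongr

/-- the mean value of the tent function, for given bounds of the Fourier coefficients -/
lemma tent_mean_sum (μ : Measure ℝ) [IsProbabilityMeasure μ] {b : ℕ → ℝ}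
    {q : ℕ} (hb : ∀ n : ℕ, 1 ≤ n → ‖∫ x, Complex.exp (2 * π * Complex.I * ((n * q : ℕ) : ℂ) * x) ∂μ‖ ≤ b n)
    {δ : ℝ} (h0 : 0 < δ) (h1 : δ ≤ 1 / 2) (z : ℝ) {W : ℝ}
    (hW : ∀ H : ℕ, ∑ n ∈ range H, co δ (n + 1) * b (n + 1) ≤ W) :
    |∫ x, (tent δ (q * x - z) - δ) ∂μ| ≤ W := by
  have hm1 : Measurable fun x : ℝ => tent δ (q * x - z) - δ :=
    ((measurable_tent δ).comp (by fun_prop)).sub_const δ
  have hi1 : Integrable (fun x => (tent δ (q * x - z) - δ)) μ :=
    integrable_of_abs_le_one μ (B := 1) hm1 (fun x => abs_tent_sub_le h0 h1 _)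
  have key : ∀ H : ℕ, 1 ≤ H → |∫ x, (tent δ (q * x - z) - δ) ∂μ| ≤ W + 1 / (δ * H) := by
    intro H hH
    have hm3 : Measurable fun x : ℝ => gH δ H (q * x - z) :=
      ((continuous_gH δ H).measurable).comp (by fun_prop)
    have hi2 : Integrable (fun x => gH δ H (q * x - z)) μ :=
      integrable_of_abs_le_one μ (B := 1) hm3 (fun x => abs_gH_le h0 h1 H _)
    have hdiff : |∫ x, ((tent δ (q * x - z) - δ) - gH δ H (q * x - z)) ∂μ| ≤ 1 / (δ * H) :=
      abs_integral_le_of μ fun x => abs_sub_gH_le h0 h1 hH _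
    rw [integral_sub hi1 hi2] at hdiff
    have h3 : |∫ x, gH δ H (q * x - z) ∂μ| ≤ W := by
      have e : ∫ x, gH δ H (q * x - z) ∂μ = ∑ n ∈ range (H + 1),
          ∫ x, co δ n * Real.cos (2 * π * n * (q * x - z)) ∂μ := by
        unfold gH
        rw [integral_finsetSum]
        intro n _
        refine (integrable_of_abs_le_one μ (B := 1) (by fun_prop) (fun x => ?_)).const_mul _
        exact Real.abs_cos_le_one _
      rw [e, sum_range_succ']
      simp only [co_zero, zero_mul, integral_zero, add_zero]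
      refine (abs_sum_le_sum_abs _ _).trans (le_trans (sum_le_sum fun n _ => ?_) (hW H))
      rw [integral_const_mul, abs_mul, abs_of_nonneg (co_nonneg h0 _)]
      refine mul_le_mul_of_nonneg_left ?_ (co_nonneg h0 _)
      have e3 : (((n + 1 : ℕ) : ℤ) * q).natAbs = (n + 1) * q := by
        rw [Int.natAbs_mul]; simp only [Int.natAbs_natCast]
      have := abs_integral_cos_le μ (((n + 1 : ℕ) : ℤ) * q) ((n + 1 : ℕ) * z) (b (n + 1))
        (by rw [e3]; exact hb (n + 1) (by omega))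
      have e5 : ∀ x : ℝ, 2 * π * ((n + 1 : ℕ) : ℝ) * (q * x - z) =
          2 * π * (((((n + 1 : ℕ) : ℤ) * q : ℤ) : ℝ) * x - (n + 1 : ℕ) * z) := by
        intro x; push_cast; ring
      simp_rw [e5]
      exact this
    have h4 := abs_sub_abs_le_abs_sub (∫ x, (tent δ (q * x - z) - δ) ∂μ) (∫ x, gH δ H (q * x - z) ∂μ)
    linarith
  have hlim : Tendsto (fun H : ℕ => W + 1 / (δ * H)) atTop (nhds (W + 0)) := by
    apply Tendsto.const_add
    simp_rw [← one_div_mul_one_div]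
    have := tendsto_one_div_atTop_nhds_zero_nat (𝕜 := ℝ)
    simpa using this.const_mul (1 / δ)
  rw [add_zero] at hlim
  refine ge_of_tendsto hlim ?_
  filter_upwards [eventually_ge_atTop 1] with H hH using key H hH

/-- measure of the set where `q x` is close to `z` -/
lemma measure_near (μ : Measure ℝ) [IsProbabilityMeasure μ] {C τ s : ℝ} (hs0 : 0 ≤ s) (hs1 : s ≤ 1)
    (hsτ : s < τ)
    (hμ : ∀ m : ℕ, 1 ≤ m →
      ‖∫ x, Complex.exp (2 * π * Complex.I * (m : ℂ) * x) ∂μ‖ ≤ C * (m : ℝ) ^ (-τ))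
    (q : ℕ) (hq : 1 ≤ q) {δ : ℝ} (hδ : 0 ≤ δ) (z : ℝ) :
    μ.real {x : ℝ | nint (q * x - z) < δ} ≤
      4 * δ + 8 * C * (∑' n : ℕ, ((n + 1 : ℕ) : ℝ) ^ (-(1 + (τ - s)))) * (δ / q) ^ s := by
  have hC : 0 ≤ C := by
    have h1 := (norm_nonneg _).trans (hμ 1 le_rfl)
    simpa using h1
  have hsumm : Summable (fun n : ℕ => ((n + 1 : ℕ) : ℝ) ^ (-(1 + (τ - s)))) :=
    (summable_nat_add_iff 1).mpr (Real.summable_nat_rpow.mpr (by linarith))
  set Z := ∑' n : ℕ, ((n + 1 : ℕ) : ℝ) ^ (-(1 + (τ - s))) with hZ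
  have hZ0 : 0 ≤ Z := tsum_nonneg fun n => by positivity
  have hq' : (1 : ℝ) ≤ q := by exact_mod_cast hq
  have hq0 : (0 : ℝ) < q := by linarith
  rcases eq_or_lt_of_le hδ with h | h
  · have : {x : ℝ | nint (q * x - z) < δ} = ∅ := by
      ext x
      simp only [Set.mem_ofPred_eq, Set.mem_empty_iff_false, iff_false, not_lt]
      rw [← h]; exact nint_nonneg _
    rw [this]
    simp only [measureReal_empty]
    positivity
  rcases lt_or_ge (1 / 4) δ with h4 | h4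
  · have h1 : μ.real {x : ℝ | nint (q * x - z) < δ} ≤ 1 := measureReal_le_one
    have : 0 ≤ 8 * C * Z * (δ / q) ^ s := by positivity
    linarith
  · -- main case
    have hδ2 : 0 < 2 * δ := by linarith
    have hW := tent_mean_sum μ (b := fun n => C * ((n * q : ℕ) : ℝ) ^ (-τ)) (q := q)
      (fun n hn => hμ (n * q) (by nlinarith)) hδ2 (by linarith : 2 * δ ≤ 1 / 2) z
      (W := 2 * C * Z * (2 * δ) ^ s * (q : ℝ) ^ (-τ)) (by
        intro H
        calc ∑ n ∈ range H, co (2 * δ) (n + 1) * (C * (((n + 1) * q : ℕ) : ℝ) ^ (-τ))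
            ≤ ∑ n ∈ range H, (2 * C * (2 * δ) ^ s * (q : ℝ) ^ (-τ)) * ((n + 1 : ℕ) : ℝ) ^ (-(1 + (τ - s))) := by
              refine sum_le_sum fun n _ => ?_
              have hn0 : (0 : ℝ) < ((n + 1 : ℕ) : ℝ) := by positivity
              have h5 := co_interp hδ2 (n := n + 1) (by omega) hs0 hs1
              calc co (2 * δ) (n + 1) * (C * (((n + 1) * q : ℕ) : ℝ) ^ (-τ))
                  ≤ (2 * (2 * δ) ^ s * ((n + 1 : ℕ) : ℝ) ^ (-(1 - s))) * (C * (((n + 1) * q : ℕ) : ℝ) ^ (-τ)) := by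
                    gcongr
                _ = (2 * C * (2 * δ) ^ s * (q : ℝ) ^ (-τ)) * ((n + 1 : ℕ) : ℝ) ^ (-(1 + (τ - s))) := by
                    have e1 : (((n + 1) * q : ℕ) : ℝ) ^ (-τ) = ((n + 1 : ℕ) : ℝ) ^ (-τ) * (q : ℝ) ^ (-τ) := by
                      rw [Nat.cast_mul, Real.mul_rpow (by positivity) (by positivity)]
                    have e2 : ((n + 1 : ℕ) : ℝ) ^ (-(1 + (τ - s))) =
                        ((n + 1 : ℕ) : ℝ) ^ (-(1 - s)) * ((n + 1 : ℕ) : ℝ) ^ (-τ) := by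
                      rw [← Real.rpow_add hn0]; congr 1; ring
                    rw [e1, e2]; ring
          _ = (2 * C * (2 * δ) ^ s * (q : ℝ) ^ (-τ)) * ∑ n ∈ range H, ((n + 1 : ℕ) : ℝ) ^ (-(1 + (τ - s))) := by
              rw [mul_sum]
          _ ≤ (2 * C * (2 * δ) ^ s * (q : ℝ) ^ (-τ)) * Z := by
              apply mul_le_mul_of_nonneg_left _ (by positivity)
              exact hsumm.sum_le_tsum _ (fun n _ => by positivity)
          _ = _ := by ring)
    have hm1 : Measurable fun x : ℝ => tent (2 * δ) (q * x - z) :=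
      (measurable_tent _).comp (by fun_prop)
    have hi0 : Integrable (fun x => tent (2 * δ) (q * x - z)) μ :=
      integrable_of_abs_le_one μ (B := 1) hm1 (fun x => by
        rw [abs_of_nonneg (tent_nonneg _ _)]; exact tent_le_one hδ2 _)
    rw [integral_sub hi0 (integrable_const _)] at hW
    simp only [integral_const, probReal_univ, smul_eq_mul, one_mul] at hW
    have hmk := mul_meas_ge_le_integral_of_nonneg (μ := μ) (f := fun x => tent (2 * δ) (q * x - z))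
      (by filter_upwards with x using tent_nonneg _ _) hi0 (1 / 2)
    have hsub : {x : ℝ | nint (q * x - z) < δ} ⊆ {x | 1 / 2 ≤ tent (2 * δ) (q * x - z)} := by
      intro x hx
      simp only [Set.mem_ofPred_eq] at hx ⊢
      rw [tent]
      refine le_trans ?_ (le_max_right _ _)
      have : nint (q * x - z) / (2 * δ) ≤ 1 / 2 := by
        rw [div_le_iff₀ hδ2]; linarith
      linarith
    have h6 : μ.real {x : ℝ | nint (q * x - z) < δ} ≤ μ.real {x | 1 / 2 ≤ tent (2 * δ) (q * x - z)} :=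
      measureReal_mono hsub
    have h7 := (abs_le.mp hW).2
    have h8 : 2 * C * Z * (2 * δ) ^ s * (q : ℝ) ^ (-τ) ≤ 4 * C * Z * (δ / q) ^ s := by
      have a1 : (2 * δ) ^ s ≤ 2 * δ ^ s := by
        rw [Real.mul_rpow (by norm_num) h.le]
        have : (2 : ℝ) ^ s ≤ 2 := by
          calc (2 : ℝ) ^ s ≤ 2 ^ (1 : ℝ) := Real.rpow_le_rpow_of_exponent_le (by norm_num) hs1
            _ = 2 := by norm_num
        gcongr
      have a2 : (q : ℝ) ^ (-τ) ≤ (q : ℝ) ^ (-s) :=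
        Real.rpow_le_rpow_of_exponent_le hq' (by linarith)
      have a3 : (δ / q) ^ s = δ ^ s * (q : ℝ) ^ (-s) := by
        rw [Real.div_rpow h.le hq0.le, Real.rpow_neg hq0.le]; rfl
      rw [a3]
      calc 2 * C * Z * (2 * δ) ^ s * (q : ℝ) ^ (-τ) ≤ 2 * C * Z * (2 * δ ^ s) * (q : ℝ) ^ (-s) := by gcongr
        _ = _ := by ring
    have h9 : 1 / 2 * μ.real {x : ℝ | nint (q * x - z) < δ} ≤ 2 * δ + 4 * C * Z * (δ / q) ^ s := by
      calc 1 / 2 * μ.real {x : ℝ | nint (q * x - z) < δ} ≤ 1 / 2 * μ.real {x | 1 / 2 ≤ tent (2 * δ) (q * x - z)} := by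
            gcongr
        _ ≤ ∫ x, tent (2 * δ) (q * x - z) ∂μ := hmk
        _ ≤ _ := by linarith
    linarith

end Pool.Agent.KS6_2
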