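import Pool.Agent.KS6_2.Count

open Real Finset

namespace Pool.Agent.KS6_2

lemma shell_aux {x X : ℝ} (hx : 0 < x) (hX : 0 < X) (I : ℕ) :
    ((4 : ℝ) ^ I < x * X → ∑ i ∈ range (I + 1), (if x ≤ 4 ^ i / X then X / 4 ^ i else 0) = 0) ∧
    (x * X ≤ (4 : ℝ) ^ I → ∑ i ∈ range (I + 1), (if x ≤ 4 ^ i / X then X / 4 ^ i else 0)
      ≤ 4 / 3 / x - 1 / 3 * (X / 4 ^ I)) := by
  induction I with
  | zero =>
    simp only [zero_add, range_one, sum_singleton, pow_zero]
    constructor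
    · intro h
      rw [if_neg]
      rw [not_le, div_lt_iff₀ hX]; exact h
    · intro h
      rw [if_pos (by rw [le_div_iff₀ hX]; exact h)]
      have : X / 1 ≤ 1 / x := by
        rw [div_one, le_div_iff₀ hx]; linarith
      have e : 4 / 3 / x = 4 / 3 * (1 / x) := by ring
      rw [e]; linarith
  | succ I ih =>
    rw [sum_range_succ]
    have h4 : (4 : ℝ) ^ I < 4 ^ (I + 1) := by
      rw [pow_succ]; have : (0 : ℝ) < 4 ^ I := by positivity
      linarith
    constructor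
    · intro h
      rw [ih.1 (h4.trans h), if_neg, add_zero]
      rw [not_le, div_lt_iff₀ hX]; exact h
    · intro h
      rw [if_pos (by rw [le_div_iff₀ hX]; exact h)]
      have e1 : X / 4 ^ I = 4 * (X / 4 ^ (I + 1)) := by rw [pow_succ]; field_simp
      rcases lt_or_ge ((4 : ℝ) ^ I) (x * X) with h' | h'
      · rw [ih.1 h']
        have : X / 4 ^ (I + 1) ≤ 1 / x := by
          rw [div_le_div_iff₀ (by positivity) hx]; linarith
        have e : 4 / 3 / x = 4 / 3 * (1 / x) := by ring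
        rw [e]; linarith
      · have := ih.2 h'
        rw [e1] at this
        linarith

lemma shell {x X : ℝ} (hx : 0 < x) (hX : 0 < X) (I : ℕ) :
    ∑ i ∈ range (I + 1), (if x ≤ 4 ^ i / X then X / 4 ^ i else 0) ≤ 4 / 3 / x := by
  rcases lt_or_ge ((4 : ℝ) ^ I) (x * X) with h | h
  · rw [(shell_aux hx hX I).1 h]; positivity
  · have h1 := (shell_aux hx hX I).2 h
    have : 0 ≤ X / 4 ^ I := by positivity
    linarith

lemma Fam_mono {α : ℝ} {X Y : ℕ} {ε ε' : ℝ} (h : ε ≤ ε') : Fam α X Y ε ⊆ Fam α X Y ε' := by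
  intro q hq
  rw [mem_Fam] at hq ⊢
  obtain ⟨h1, p, h2, h3⟩ := hq
  exact ⟨h1, p, h2, h3.trans h⟩

lemma nint_le_of_Ap {α ε : ℝ} {q : ℕ} (h : Ap α ε q) : nint (q * α) ≤ ε := by
  obtain ⟨p, _, hp⟩ := h
  exact (nint_le_abs_sub _ p).trans hp

lemma nint_pos_of_bad {c α : ℝ} (h : Bad c α) {q : ℕ} (hq : 1 ≤ q) :
    c / q ≤ nint (q * α) := by
  have h1 := h q hq
  have : (0 : ℝ) < q := by exact_mod_cast hq
  rw [div_le_iff₀ this]; linarith

/-- **the sum of the reciprocals over the family** -/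
lemma sum_family {c α : ℝ} (hc : 0 < c) (h : Bad c α) {X R I : ℕ} (hX : 2 * (4 : ℝ) ^ I < X)
    (hR : 16 / c + 2 ≤ R) :
    3 / 32 * (X : ℝ) * (I + 1) ≤ ∑ q ∈ Fam α X (R * X) ((4 : ℝ) ^ I / X), 1 / nint (q * α) := by
  have hX0 : (0 : ℝ) < X := lt_of_le_of_lt (by positivity) hX
  have hX0' : 0 < X := by exact_mod_cast hX0
  set F := Fam α X (R * X) ((4 : ℝ) ^ I / X) with hF
  have hpos : ∀ q ∈ F, 0 < nint (q * α) := by
    intro q hq
    have h1 := (mem_Fam.mp hq).1.1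
    have h2 := nint_pos_of_bad h (q := q) (by omega)
    have : (0 : ℝ) < q := by exact_mod_cast (by omega : 0 < q)
    exact lt_of_lt_of_le (by positivity) h2
  have h1 : ∑ q ∈ F, (3 / 4 : ℝ) * ∑ i ∈ range (I + 1),
      (if nint (q * α) ≤ 4 ^ i / X then (X : ℝ) / 4 ^ i else 0) ≤ ∑ q ∈ F, 1 / nint (q * α) := by
    refine sum_le_sum fun q hq => ?_
    have := shell (hpos q hq) hX0 I
    calc _ ≤ (3 / 4 : ℝ) * (4 / 3 / nint (q * α)) := by gcongr
      _ = _ := by ring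
  refine le_trans ?_ h1
  rw [← mul_sum, sum_comm]
  have h2 : ∀ i ∈ range (I + 1), (X : ℝ) / 8 ≤
      ∑ q ∈ F, (if nint (q * α) ≤ 4 ^ i / X then (X : ℝ) / 4 ^ i else 0) := by
    intro i hi
    rw [mem_range] at hi
    have h4 : (4 : ℝ) ^ i ≤ 4 ^ I := pow_le_pow_right₀ (by norm_num) (by omega)
    have hU : ((2 ^ i : ℕ) : ℝ) ^ 2 = 4 ^ i := by
      push_cast; rw [← pow_mul, mul_comm, pow_mul]; norm_num
    have h3 := count_family hc h (X := X) (R := R) (U := 2 ^ i) Nat.one_le_two_pow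
      (by rw [hU]; linarith) hR
    rw [hU] at h3
    rw [← sum_filter, sum_const, nsmul_eq_mul]
    have h5 : Fam α X (R * X) ((4 : ℝ) ^ i / X) ⊆ F.filter (fun q : ℕ => nint (q * α) ≤ 4 ^ i / X) := by
      intro q hq
      rw [mem_filter]
      exact ⟨Fam_mono (by gcongr) hq, nint_le_of_Ap (mem_Fam.mp hq).2⟩
    have h6 : ((Fam α X (R * X) ((4 : ℝ) ^ i / X)).card : ℝ) ≤
        ((F.filter (fun q : ℕ => nint (q * α) ≤ 4 ^ i / X)).card : ℝ) := by
      exact_mod_cast card_le_card h5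
    calc (X : ℝ) / 8 = (4 : ℝ) ^ i / 8 * (X / 4 ^ i) := by field_simp
      _ ≤ _ := by
        apply mul_le_mul_of_nonneg_right (h3.trans h6) (by positivity)
  calc 3 / 32 * (X : ℝ) * (I + 1) = 3 / 4 * ∑ i ∈ range (I + 1), (X : ℝ) / 8 := by
        rw [sum_const, card_range, nsmul_eq_mul]; push_cast; ring
    _ ≤ _ := by
        apply mul_le_mul_of_nonneg_left (sum_le_sum h2) (by norm_num)

end Pool.Agent.KS6_2
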