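import Pool.Agent.KS6_2.Main

open Real Finset MeasureTheory Filter

namespace Pool.Agent.KS6_2

namespace Dat

variable (d : Dat)

open Classical in
/-- the index set -/
noncomputable def idx (K : ℕ) : Finset (Σ _ : ℕ, ℕ) := ((range K).filter (· ∈ d.A)).sigma d.F

lemma mem_idx {K : ℕ} {i : Σ _ : ℕ, ℕ} : i ∈ d.idx K ↔ (i.1 < K ∧ i.1 ∈ d.A) ∧ i.2 ∈ d.F i.1 := by
  classical
  simp [idx]

/-- the total weight -/
noncomputable def T : ℝ := ∑' k : ℕ, ((k : ℝ) + 1) * 16 ^ d.I k * d.E k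

lemma ne_of_ne {K : ℕ} {i j : Σ _ : ℕ, ℕ} (hi : i ∈ d.idx K) (hj : j ∈ d.idx K) (h : i ≠ j) :
    i.2 ≠ j.2 := by
  obtain ⟨k, q⟩ := i
  obtain ⟨k', q'⟩ := j
  rw [mem_idx] at hi hj
  simp only at hi hj ⊢
  intro e
  subst e
  have h1 := (d.mem_F.mp hi.2).1
  have h2 := (d.mem_F.mp hj.2).1
  have hk : k = k' := by
    have key : ∀ a b : ℕ, a < b → q < d.R * d.R ^ a → d.R ^ b ≤ q → False := by
      intro a b hab h1 h2
      have : d.R * d.R ^ a ≤ d.R ^ b := by
        rw [mul_comm, ← pow_succ]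
        exact Nat.pow_le_pow_right d.R_pos (by omega)
      omega
    rcases lt_trichotomy k k' with hl | hl | hl
    · exact (key k k' hl h1.2 h2.1).elim
    · exact hl
    · exact (key k' k hl h2.2 h1.1).elim
  subst hk
  exact h rfl

lemma card_le (K k : ℕ) : (((d.idx K).filter (fun j => j.1 ≤ k)).card : ℝ) ≤
    (k + 1) * (d.CF * 4 ^ d.I k) := by
  have h1 : (d.idx K).filter (fun j => j.1 ≤ k) ⊆ (range (k + 1)).sigma d.F := by
    intro j hj
    rw [mem_filter, mem_idx] at hj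
    rw [mem_sigma, mem_range]
    exact ⟨by omega, hj.1.2⟩
  have h2 := card_le_card h1
  rw [card_sigma] at h2
  have h3 : (((d.idx K).filter (fun j => j.1 ≤ k)).card : ℝ) ≤ ∑ k' ∈ range (k + 1), ((d.F k').card : ℝ) := by
    exact_mod_cast h2
  refine h3.trans ?_
  calc ∑ k' ∈ range (k + 1), ((d.F k').card : ℝ) ≤ ∑ k' ∈ range (k + 1), (d.CF * 4 ^ d.I k) := by
        refine sum_le_sum fun k' hk' => ?_
        refine (d.card_F k').trans ?_
        have := d.CF_pos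
        rw [mem_range] at hk'
        have h4 : d.I k' ≤ d.I k := d.hI (by omega)
        gcongr
        norm_num
    _ = _ := by rw [sum_const, card_range, nsmul_eq_mul]; push_cast; ring

lemma sum_le_T (hT : Summable (fun k : ℕ => ((k : ℝ) + 1) * 16 ^ d.I k * d.E k)) (K : ℕ) :
    ∑ i ∈ d.idx K, d.E i.1 * ((i.1 + 1) * (d.CF * 4 ^ d.I i.1)) ≤ d.CF ^ 2 * d.T := by
  classical
  rw [idx, sum_sigma]
  simp only [sum_const, nsmul_eq_mul]
  have hCF := d.CF_pos
  calc ∑ k ∈ (range K).filter (· ∈ d.A), ((d.F k).card : ℝ) * (d.E k * ((k + 1) * (d.CF * 4 ^ d.I k)))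
      ≤ ∑ k ∈ (range K).filter (· ∈ d.A), d.CF ^ 2 * (((k : ℝ) + 1) * 16 ^ d.I k * d.E k) := by
        refine sum_le_sum fun k _ => ?_
        have h1 := d.card_F k
        have h2 := d.E_nonneg k
        calc _ ≤ (d.CF * 4 ^ d.I k) * (d.E k * ((k + 1) * (d.CF * 4 ^ d.I k))) := by gcongr
          _ = _ := by
            have : (16 : ℝ) ^ d.I k = 4 ^ d.I k * 4 ^ d.I k := by rw [← mul_pow]; norm_num
            rw [this]; ring
    _ ≤ ∑ k ∈ range K, d.CF ^ 2 * (((k : ℝ) + 1) * 16 ^ d.I k * d.E k) := by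
        apply sum_le_sum_of_subset_of_nonneg (filter_subset _ _)
        intro k _ _
        have h2 := d.E_nonneg k
        positivity
    _ = d.CF ^ 2 * ∑ k ∈ range K, (((k : ℝ) + 1) * 16 ^ d.I k * d.E k) := by rw [mul_sum]
    _ ≤ d.CF ^ 2 * d.T := by
        gcongr
        apply hT.sum_le_tsum
        intro k _
        have h2 := d.E_nonneg k
        positivity

lemma second {μ : Measure ℝ} [IsProbabilityMeasure μ] (hμ : d.Dec μ)
    (hT : Summable (fun k : ℕ => ((k : ℝ) + 1) * 16 ^ d.I k * d.E k)) (K : ℕ) :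
    ∫ x, (∑ i ∈ d.idx K, d.g i.1 i.2 x) ^ 2 ∂μ ≤
      2 * ∑ i ∈ d.idx K, d.δ i.1 i.2 + 3 * (d.CF ^ 2 * d.T) := by
  classical
  have h := second_moment μ (d.idx K) (fun i => d.g i.1 i.2) (fun i => d.measurable_g i.1 i.2)
    (fun i hi x => d.abs_g_le (d.mem_idx.mp hi).1.2 (d.mem_idx.mp hi).2 x)
    (fun i => 2 * d.δ i.1 i.2 + d.E i.1) (fun i j => d.E (max i.1 j.1))
    (fun i hi => d.var_le hμ (d.mem_idx.mp hi).1.2 (d.mem_idx.mp hi).2)
    (fun i hi j hj hij => (le_abs_self _).trans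
      (d.cross' hμ (d.mem_idx.mp hi).1.2 (d.mem_idx.mp hj).1.2 (d.mem_idx.mp hi).2
        (d.mem_idx.mp hj).2 (d.ne_of_ne hi hj hij)))
    (fun i j => d.E_nonneg _)
  refine h.trans ?_
  have hT' := d.sum_le_T hT K
  have hCF := d.CF_pos
  -- diagonal
  have h1 : ∑ i ∈ d.idx K, (2 * d.δ i.1 i.2 + d.E i.1) ≤
      2 * ∑ i ∈ d.idx K, d.δ i.1 i.2 + d.CF ^ 2 * d.T := by
    rw [sum_add_distrib, ← mul_sum]
    have : ∑ i ∈ d.idx K, d.E i.1 ≤ ∑ i ∈ d.idx K, d.E i.1 * ((i.1 + 1) * (d.CF * 4 ^ d.I i.1)) := by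
      refine sum_le_sum fun i _ => ?_
      have h2 := d.E_nonneg i.1
      apply le_mul_of_one_le_right h2
      have h4 : (1 : ℝ) ≤ 4 ^ d.I i.1 := one_le_pow₀ (by norm_num)
      have h5 : (1 : ℝ) ≤ (i.1 : ℝ) + 1 := by
        have : (0 : ℝ) ≤ (i.1 : ℝ) := by positivity
        linarith
      nlinarith [mul_le_mul hCF h4 (by norm_num) (by linarith)]
    linarith
  have h2 : ∑ i ∈ d.idx K, ∑ j ∈ d.idx K, d.E (max i.1 j.1) ≤ 2 * (d.CF ^ 2 * d.T) := by
    have e1 : ∑ i ∈ d.idx K, ∑ j ∈ d.idx K, d.E (max i.1 j.1) ≤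
        ∑ i ∈ d.idx K, ∑ j ∈ d.idx K, ((if j.1 ≤ i.1 then d.E i.1 else 0) +
          (if i.1 ≤ j.1 then d.E j.1 else 0)) := by
      refine sum_le_sum fun i _ => sum_le_sum fun j _ => ?_
      have hi := d.E_nonneg i.1
      have hj := d.E_nonneg j.1
      rcases le_total i.1 j.1 with hl | hl
      · rw [max_eq_right hl, if_pos hl]
        split_ifs <;> linarith
      · rw [max_eq_left hl, if_pos hl]
        split_ifs <;> linarith
    refine e1.trans ?_
    simp_rw [sum_add_distrib]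
    have e2 : ∑ i ∈ d.idx K, ∑ j ∈ d.idx K, (if i.1 ≤ j.1 then d.E j.1 else 0) =
        ∑ i ∈ d.idx K, ∑ j ∈ d.idx K, (if j.1 ≤ i.1 then d.E i.1 else 0) := sum_comm
    rw [e2]
    have e3 : ∑ i ∈ d.idx K, ∑ j ∈ d.idx K, (if j.1 ≤ i.1 then d.E i.1 else 0) ≤ d.CF ^ 2 * d.T := by
      refine le_trans (sum_le_sum fun i _ => ?_) hT'
      rw [← sum_filter, sum_const, nsmul_eq_mul, mul_comm]
      exact mul_le_mul_of_nonneg_left (d.card_le K i.1) (d.E_nonneg i.1)
    linarith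
  linarith

/-- **almost everywhere infinitely many solutions** -/
theorem ae_infinitely {μ : Measure ℝ} [IsProbabilityMeasure μ] (hμ : d.Dec μ)
    (hT : Summable (fun k : ℕ => ((k : ℝ) + 1) * 16 ^ d.I k * d.E k))
    (hD : ∀ B : ℝ, ∃ K, B ≤ ∑ i ∈ d.idx K, d.δ i.1 i.2) :
    ∀ᵐ x ∂μ, ∀ N : ℕ, ∃ k, N ≤ k ∧ k ∈ d.A ∧ ∃ q ∈ d.F k, nint (q * x - d.z q) < d.δ k q := by
  have h := ae_unbounded μ d.idx (fun i x => tent (d.δ i.1 i.2) (i.2 * x - d.z i.2))
    (fun i => d.δ i.1 i.2) (fun i => (measurable_tent _).comp (by fun_prop))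
    (fun K i hi x => d.abs_g_le (d.mem_idx.mp hi).1.2 (d.mem_idx.mp hi).2 x)
    (3 * (d.CF ^ 2 * d.T)) (fun K => d.second hμ hT K) hD
  filter_upwards [h] with x hx N
  by_contra hcon
  push Not at hcon
  obtain ⟨K, hK⟩ := hx (d.idx N).card
  apply absurd hK
  push Not
  calc ∑ i ∈ d.idx K, tent (d.δ i.1 i.2) (i.2 * x - d.z i.2)
      ≤ ∑ i ∈ d.idx N, 1 := by
        have h1 : ∑ i ∈ d.idx K, tent (d.δ i.1 i.2) (i.2 * x - d.z i.2) =
            ∑ i ∈ (d.idx K).filter (fun i => i.1 < N), tent (d.δ i.1 i.2) (i.2 * x - d.z i.2) := by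
          rw [sum_filter]
          refine sum_congr rfl fun i hi => ?_
          split_ifs with hlt
          · rfl
          · have hi' := d.mem_idx.mp hi
            have h2 := hcon i.1 (by omega) hi'.1.2 i.2 hi'.2
            have h0 := d.δ_pos hi'.1.2 hi'.2
            rw [tent, max_eq_left]
            have := (one_le_div h0).mpr h2
            linarith
        rw [h1]
        have h3 : (d.idx K).filter (fun i => i.1 < N) ⊆ d.idx N := by
          intro i hi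
          rw [mem_filter, mem_idx] at hi
          rw [mem_idx]
          exact ⟨⟨hi.2, hi.1.1.2⟩, hi.1.2⟩
        calc _ ≤ ∑ i ∈ (d.idx K).filter (fun i => i.1 < N), (1 : ℝ) := by
              refine sum_le_sum fun i hi => ?_
              have hi' := d.mem_idx.mp (mem_filter.mp hi).1
              exact tent_le_one (d.δ_pos hi'.1.2 hi'.2) _
          _ ≤ _ := sum_le_sum_of_subset_of_nonneg h3 (fun _ _ _ => zero_le_one)
    _ = (d.idx N).card := by simp

end Dat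

end Pool.Agent.KS6_2
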