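import Pool.Agent.KS6_2.Cases

open Real Finset MeasureTheory Filter

namespace Pool.Agent.KS6_2

lemma doubling_iter {w : ℝ → ℝ} {K : ℝ} (hK : 0 ≤ K) (hw : ∀ t, 1 ≤ t → w (2 * t) ≤ K * (w t + 1))
    (hw0 : ∀ t, 1 ≤ t → 0 ≤ w t) (j : ℕ) {t : ℝ} (ht : 1 ≤ t) :
    w (2 ^ j * t) + 1 ≤ (K + 1) ^ j * (w t + 1) := by
  induction j with
  | zero => simp
  | succ j ih =>
    have h1 : (1 : ℝ) ≤ 2 ^ j := one_le_pow₀ (by norm_num)
    have h2 : 1 ≤ 2 ^ j * t := by nlinarith
    have h3 := hw (2 ^ j * t) h2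
    have h4 := hw0 (2 ^ j * t) h2
    have e : (2 : ℝ) ^ (j + 1) * t = 2 * (2 ^ j * t) := by rw [pow_succ]; ring
    rw [e, pow_succ]
    have h5 : 0 ≤ w t + 1 := by have := hw0 t ht; linarith
    calc w (2 * (2 ^ j * t)) + 1 ≤ K * (w (2 ^ j * t) + 1) + 1 := by linarith
      _ ≤ (K + 1) * (w (2 ^ j * t) + 1) := by nlinarith
      _ ≤ (K + 1) * ((K + 1) ^ j * (w t + 1)) := by gcongr
      _ = _ := by ring

/-- general decay, divergence -/
theorem w_div {c α : ℝ} (hc : 0 < c) (hbad : Bad c α) (z : ℕ → ℝ) (μ : Measure ℝ)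
    [IsProbabilityMeasure μ] {C ε : ℝ} (hε : 0 < ε) {w : ℝ → ℝ}
    (hwm : ∀ s t, 1 ≤ s → s ≤ t → w s ≤ w t) (hw0 : ∀ t, 1 ≤ t → 0 ≤ w t) (hw1 : ∀ t, 1 ≤ t → w t ≤ t)
    {K : ℝ} (hwK : ∀ t, 1 ≤ t → w (2 * t) ≤ K * (w t + 1))
    (hμ : ∀ m : ℕ, 3 ≤ m →
      ‖∫ x, Complex.exp (2 * π * Complex.I * (m : ℂ) * x) ∂μ‖ ≤
        C * (Real.log m) ^ (-(2 + ε)) * Real.exp (-(ε * w (Real.log m))))
    {ψ : ℕ → ℝ} (hψ : Antitone ψ) (hψ0 : ∀ q, 0 ≤ ψ q)
    (hdiv : ¬ Summable (fun q : ℕ => ψ q * w (Real.log q))) :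
    ∀ᵐ β ∂μ, ∃ᶠ q : ℕ in atTop, nint (q * α) * nint (q * β - z q) < ψ q := by
  obtain ⟨S, hS, hSc⟩ : ∃ S : ℕ, 2 ≤ S ∧ 16 / c + 2 ≤ (S : ℝ) :=
    ⟨⌈16 / c⌉₊ + 2, by omega, by push_cast; linarith [Nat.le_ceil (16 / c)]⟩
  have hS2 : (2 : ℝ) ≤ S := by exact_mod_cast hS
  have hS0 : (0 : ℝ) < S := by linarith
  obtain ⟨R, hR⟩ : ∃ R : ℕ, R = S ^ 32 := ⟨_, rfl⟩
  have hK0 : 0 ≤ |K| := abs_nonneg K
  have hwK' : ∀ t, 1 ≤ t → w (2 * t) ≤ |K| * (w t + 1) := fun t ht =>
    (hwK t ht).trans (mul_le_mul_of_nonneg_right (le_abs_self K) (by have := hw0 t ht; linarith))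
  have hl2 : 0 < Real.log 2 := Real.log_pos (by norm_num)
  have hl4 : 0 < Real.log 4 := Real.log_pos (by norm_num)
  have hl16 : 0 < Real.log 16 := Real.log_pos (by norm_num)
  have hl42 : Real.log 4 = 2 * Real.log 2 := by
    rw [show (4 : ℝ) = 2 ^ 2 by norm_num, Real.log_pow]; norm_num
  set a : ℝ := min (1 / 2) (ε / Real.log 16) with ha
  have ha0 : 0 < a := lt_min (by norm_num) (by positivity)
  have ha1 : a ≤ 1 / 2 := min_le_left _ _
  have ha2 : a ≤ ε / Real.log 16 := min_le_right _ _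
  -- `W k = w (max k 1)`
  set W : ℕ → ℝ := fun k => w (max (k : ℝ) 1) with hW
  have hW0 : ∀ k, 0 ≤ W k := fun k => hw0 _ (le_max_right _ _)
  set I : ℕ → ℕ := fun k => ⌊a * W k⌋₊ with hI
  have hIle : ∀ k : ℕ, (I k : ℝ) ≤ a * W k := fun k => Nat.floor_le (mul_nonneg ha0.le (hW0 k))
  have hIge : ∀ k : ℕ, a * W k < (I k : ℝ) + 1 := fun k => Nat.lt_floor_add_one _
  have hC : 0 ≤ C := by
    have h1 := (norm_nonneg _).trans (hμ 3 le_rfl)
    by_contra hneg
    push Not at hneg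
    have h3 : (0 : ℝ) < Real.log (3 : ℕ) := Real.log_pos (by norm_num)
    have : (0 : ℝ) < (Real.log (3 : ℕ)) ^ (-(2 + ε)) * Real.exp (-(ε * w (Real.log (3 : ℕ)))) := by positivity
    nlinarith
  have hlogS : ∀ k : ℕ, Real.log ((S ^ (10 * k) : ℕ) : ℝ) = 10 * k * Real.log S := by
    intro k; rw [Nat.cast_pow, Real.log_pow]; push_cast; ring
  have hl2' : (1 : ℝ) / 2 < Real.log 2 := by have := Real.log_two_gt_d9; linarith
  have hlS : Real.log 2 ≤ Real.log S := Real.log_le_log (by norm_num) hS2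
  have hbig : ∀ k : ℕ, 1 ≤ k → ((k : ℝ) + 1) / 2 ≤ Real.log ((S ^ (10 * k) : ℕ) : ℝ) ∧
      (k : ℝ) ≤ Real.log ((S ^ (10 * k) : ℕ) : ℝ) := by
    intro k hk
    have hk1 : (1 : ℝ) ≤ k := by exact_mod_cast hk
    rw [hlogS]
    constructor <;> nlinarith
  set ρ : ℕ → ℝ := fun k => |C| * (((k : ℝ) + 1) / 2) ^ (-(2 + ε)) * Real.exp (-(ε * W k)) with hρ
  have hdiv' : ¬ Summable (fun q : ℕ => ψ q * max 0 (w (Real.log q))) := by
    intro h
    apply hdiv
    rw [← summable_nat_add_iff 3] at h ⊢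
    refine h.congr fun q => ?_
    congr 1
    rw [max_eq_right]
    apply hw0
    rw [Real.le_log_iff_exp_le (by positivity)]
    have := Real.exp_one_lt_d9
    push_cast
    have : (0 : ℝ) ≤ q := by positivity
    linarith
  -- the number of doublings
  obtain ⟨j, hj⟩ : ∃ j : ℕ, 3 * Real.log R ≤ 2 ^ j := by
    obtain ⟨j, hj⟩ := exists_nat_ge (3 * Real.log R)
    exact ⟨j, hj.trans (by exact_mod_cast Nat.lt_two_pow_self.le)⟩
  refine general (k0 := 1) (ρ := ρ) hc hbad z μ hS hSc (I := I) ?_ ?_ ?_ ?_ ?_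
    hψ hψ0 (Λ := fun q => max 0 (w (Real.log q))) (fun q => le_max_left _ _)
    (C := (|K| + 1) ^ j * (1 / a + 1)) ?_ hdiv'
  · intro i k hik
    refine Nat.floor_le_floor (mul_le_mul_of_nonneg_left ?_ ha0.le)
    apply hwm _ _ (le_max_right _ _)
    apply max_le_max _ le_rfl
    exact_mod_cast hik
  · intro k hk
    have hk1 : (1 : ℝ) ≤ k := by exact_mod_cast hk
    have hWk : W k ≤ k := by
      simp only [hW, max_eq_left hk1]; exact hw1 _ hk1
    calc (4 : ℝ) ^ I k = Real.exp (I k * Real.log 4) := by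
          rw [mul_comm, Real.exp_mul, Real.exp_log (by norm_num), Real.rpow_natCast]
      _ ≤ Real.exp (k * Real.log 2) := by
          apply Real.exp_le_exp.mpr
          have h1 : (I k : ℝ) ≤ 1 / 2 * k := by
            refine (hIle k).trans ?_
            exact mul_le_mul ha1 hWk (hW0 k) (by norm_num)
          rw [hl42]
          nlinarith
      _ = 2 ^ k := by rw [mul_comm, Real.exp_mul, Real.exp_log (by norm_num), Real.rpow_natCast]
      _ ≤ (S : ℝ) ^ k := by gcongr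
  · intro k; positivity
  · intro k hk m hm
    have hk1 : (1 : ℝ) ≤ k := by exact_mod_cast hk
    have h3 : 3 ≤ m := by
      calc 3 ≤ 2 ^ 10 := by norm_num
        _ ≤ S ^ 10 := Nat.pow_le_pow_left hS 10
        _ ≤ S ^ (10 * k) := Nat.pow_le_pow_right (by omega) (by omega)
        _ ≤ m := hm
    obtain ⟨b1, b2⟩ := hbig k hk
    have hSpos : (0 : ℝ) < ((S ^ (10 * k) : ℕ) : ℝ) := by
      have : 0 < S ^ (10 * k) := by positivity
      exact_mod_cast this
    have b3 : Real.log ((S ^ (10 * k) : ℕ) : ℝ) ≤ Real.log m :=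
      Real.log_le_log hSpos (by exact_mod_cast hm)
    refine (hμ m h3).trans ?_
    have c1 : (Real.log m) ^ (-(2 + ε)) ≤ (((k : ℝ) + 1) / 2) ^ (-(2 + ε)) :=
      Real.rpow_le_rpow_of_nonpos (by positivity) (b1.trans b3) (by linarith)
    have c2 : Real.exp (-(ε * w (Real.log m))) ≤ Real.exp (-(ε * W k)) := by
      apply Real.exp_le_exp.mpr
      have : W k ≤ w (Real.log m) := by
        simp only [hW, max_eq_left hk1]
        exact hwm _ _ hk1 (b2.trans b3)
      nlinarith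
    have h0 : 0 ≤ (Real.log m) ^ (-(2 + ε)) := by
      have : 0 ≤ Real.log m := Real.log_natCast_nonneg m
      positivity
    simp only [hρ]
    rw [abs_of_nonneg hC]
    gcongr
  · -- summability
    have h2 : Summable (fun k : ℕ => |C| * 2 ^ (2 + ε) * ((k + 1 : ℕ) : ℝ) ^ (-(1 + ε))) := by
      apply Summable.mul_left
      exact (summable_nat_add_iff 1).mpr (Real.summable_nat_rpow.mpr (by linarith))
    refine Summable.of_nonneg_of_le (fun k => by positivity) (fun k => ?_) h2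
    have h3 : (16 : ℝ) ^ I k ≤ Real.exp (ε * W k) := by
      calc (16 : ℝ) ^ I k = Real.exp (I k * Real.log 16) := by
            rw [mul_comm, Real.exp_mul, Real.exp_log (by norm_num), Real.rpow_natCast]
        _ ≤ Real.exp (ε * W k) := by
            apply Real.exp_le_exp.mpr
            calc (I k : ℝ) * Real.log 16 ≤ (a * W k) * Real.log 16 := by
                  gcongr; exact hIle k
              _ ≤ (ε / Real.log 16 * W k) * Real.log 16 := by
                  have := hW0 k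
                  gcongr
              _ = ε * W k := by field_simp
    have hk2 : (0 : ℝ) < (k : ℝ) + 1 := by positivity
    calc ((k : ℝ) + 1) * 16 ^ I k * ρ k
        ≤ ((k : ℝ) + 1) * Real.exp (ε * W k) * (|C| * (((k : ℝ) + 1) / 2) ^ (-(2 + ε)) * Real.exp (-(ε * W k))) := by
          gcongr
      _ = |C| * (((k : ℝ) + 1) * (((k : ℝ) + 1) / 2) ^ (-(2 + ε))) * (Real.exp (ε * W k) * Real.exp (-(ε * W k))) := by ring
      _ = |C| * (((k : ℝ) + 1) * (((k : ℝ) + 1) / 2) ^ (-(2 + ε))) := by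
          rw [← Real.exp_add]; simp
      _ = |C| * 2 ^ (2 + ε) * ((k + 1 : ℕ) : ℝ) ^ (-(1 + ε)) := by
          have e1 : (((k : ℝ) + 1) / 2) ^ (-(2 + ε)) = 2 ^ (2 + ε) * ((k : ℝ) + 1) ^ (-(2 + ε)) := by
            rw [Real.div_rpow (by positivity) (by norm_num), Real.rpow_neg (by norm_num : (0:ℝ) ≤ 2)]
            field_simp
          have e2 : ((k : ℝ) + 1) * ((k : ℝ) + 1) ^ (-(2 + ε)) = ((k : ℝ) + 1) ^ (-(1 + ε)) := by
            nth_rewrite 1 [← Real.rpow_one ((k : ℝ) + 1)]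
            rw [← Real.rpow_add hk2]
            congr 1; ring
          rw [e1]
          push_cast
          linear_combination (|C| * 2 ^ (2 + ε)) * e2
  · rw [← hR]
    intro k hk q hq1 hq2
    have hk1 : (1 : ℝ) ≤ k := by exact_mod_cast hk
    have hR0 : 0 < R := by rw [hR]; positivity
    have hR3 : 3 ≤ R := by
      rw [hR]
      calc 3 ≤ 2 ^ 32 := by norm_num
        _ ≤ S ^ 32 := Nat.pow_le_pow_left hS 32
    have hq0 : 3 ≤ q := by
      calc 3 ≤ R := hR3
        _ = R ^ 1 := (pow_one R).symm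
        _ ≤ R ^ (k + 1) := Nat.pow_le_pow_right (by omega) (by omega)
        _ ≤ q := hq1
    have hlogq : 1 ≤ Real.log q := by
      have h3 : (3 : ℝ) ≤ q := by exact_mod_cast hq0
      rw [Real.le_log_iff_exp_le (by linarith)]
      have := Real.exp_one_lt_d9
      linarith
    have h1 := log_le_of_lt (by omega : 0 < q) hq2
    have hlR : 0 ≤ Real.log R := Real.log_natCast_nonneg R
    have h2 : Real.log q ≤ 2 ^ j * k := by
      calc Real.log q ≤ ((k : ℝ) + 2) * Real.log R := h1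
        _ ≤ (3 * k) * Real.log R := by gcongr; linarith
        _ = (3 * Real.log R) * k := by ring
        _ ≤ 2 ^ j * k := by gcongr
    have h3 := doubling_iter hK0 hwK' hw0 j hk1
    have h4 : w (Real.log q) ≤ w (2 ^ j * k) := hwm _ _ hlogq h2
    have hWk : W k = w k := by simp only [hW, max_eq_left hk1]
    have h5 := hIge k
    rw [hWk] at h5
    have h6 : w k ≤ 1 / a * (I k + 1) := by
      rw [one_div, ← div_eq_inv_mul, le_div_iff₀ ha0]; linarith
    have h7 : (0 : ℝ) ≤ I k := by positivity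
    have h8 : 0 ≤ 1 / a := by positivity
    apply max_le
    · positivity
    · calc w (Real.log q) ≤ (|K| + 1) ^ j * (w k + 1) := by linarith
        _ ≤ (|K| + 1) ^ j * ((1 / a + 1) * (I k + 1)) := by
            gcongr
            linarith
        _ = _ := by ring

end Pool.Agent.KS6_2
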